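import Pool.Agent.PolyR126.Defs

set_option autoImplicit false

universe u v

namespace PolyR126

open Set Metric Filter Topology

theorem ext_finite_Hrep {F : Type u} [AddCommGroup F] [Module ℝ F] (Φ : Finset (F →ₗ[ℝ] ℝ)) :
    (Set.extremePoints ℝ {x : F | ∀ φ ∈ Φ, φ x ≤ 1}).Finite := by
  classical
  set K : Set F := {x : F | ∀ φ ∈ Φ, φ x ≤ 1} with hK
  have hinj : Set.InjOn (fun x : F => Φ.filter (fun φ => φ x = 1)) (Set.extremePoints ℝ K) := by
    intro x hx y hy hxy
    have hact : ∀ φ ∈ Φ, φ x = 1 → φ y = 1 := by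
      intro φ hφ h1
      have : φ ∈ Φ.filter (fun φ => φ x = 1) := Finset.mem_filter.2 ⟨hφ, h1⟩
      have h2 : φ ∈ Φ.filter (fun φ => φ y = 1) := by
        have h3 : Φ.filter (fun φ => φ x = 1) = Φ.filter (fun φ => φ y = 1) := hxy
        rwa [h3] at this
      exact (Finset.mem_filter.1 h2).2
    have ev : ∀ φ ∈ Φ, ∀ᶠ t : ℝ in 𝓝 (0 : ℝ), φ (x + t • (y - x)) ≤ 1 ∧ φ (x - t • (y - x)) ≤ 1 := by
      intro φ hφ
      by_cases h1 : φ x = 1
      · have h2 := hact φ hφ h1
        refine Filter.Eventually.of_forall fun t => ?_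
        simp [h1, h2]
      · have h3 : φ x < 1 := lt_of_le_of_ne (hx.1 φ hφ) h1
        have c1 : Tendsto (fun t : ℝ => φ x + t * (φ y - φ x)) (𝓝 0) (𝓝 (φ x + 0 * (φ y - φ x))) := by
          apply Continuous.tendsto
          fun_prop
        have c2 : Tendsto (fun t : ℝ => φ x - t * (φ y - φ x)) (𝓝 0) (𝓝 (φ x - 0 * (φ y - φ x))) := by
          apply Continuous.tendsto
          fun_prop
        rw [zero_mul, add_zero] at c1
        rw [zero_mul, sub_zero] at c2
        filter_upwards [c1.eventually (gt_mem_nhds h3), c2.eventually (gt_mem_nhds h3)] with t a b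
        simp only [map_add, map_sub, map_smul, smul_eq_mul]
        exact ⟨a.le, b.le⟩
    have ev2 : ∀ᶠ t : ℝ in 𝓝 (0 : ℝ), ∀ φ ∈ Φ, φ (x + t • (y - x)) ≤ 1 ∧ φ (x - t • (y - x)) ≤ 1 :=
      (Filter.eventually_all_finset Φ).2 ev
    obtain ⟨ε, hε, hball⟩ := Metric.eventually_nhds_iff.1 ev2
    have ht := @hball (ε / 2) (by rw [Real.dist_eq, sub_zero, abs_of_pos (by positivity)]; linarith)
    have hseg : x ∈ openSegment ℝ (x + (ε / 2) • (y - x)) (x - (ε / 2) • (y - x)) := by
      refine ⟨1 / 2, 1 / 2, by norm_num, by norm_num, by norm_num, ?_⟩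
      module
    have h5 := hx.2 (fun φ hφ => (ht φ hφ).1) (fun φ hφ => (ht φ hφ).2) hseg
    have h6 : (ε / 2) • (y - x) = 0 := by
      simpa using h5
    rcases smul_eq_zero.1 h6 with h7 | h7
    · exact absurd h7 (by positivity)
    · exact (sub_eq_zero.1 h7).symm
  refine Set.Finite.of_finite_image ?_ hinj
  refine (Φ.powerset.finite_toSet).subset ?_
  rintro _ ⟨x, _, rfl⟩
  simp only [Finset.coe_powerset, Set.mem_preimage, Set.mem_powerset_iff]
  intro φ hφ
  exact (Finset.mem_filter.1 (Finset.mem_coe.1 hφ)).1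

end PolyR126
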