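import Pool.Agent.PolyR126.Defs

set_option autoImplicit false

universe u v

namespace PolyR126

open Set Metric Filter Topology

/-- One-sided affinity along segments. PROOF. Apply `hq` to `F = span {x, y}`. Among the (finitely many) `φ ∈ Φ` with `φ x = q x` take one,
`ψ`, with `φ y` maximal; for the other active ones `φ (x + t y) ≤ ψ (x + t y)` for `t ≥ 0`, and for the non-active ones `φ x < ψ x`, so
`φ (x + t y) ≤ ψ (x + t y)` for all small `t`. So `q (x + t y) = ψ x + t ψ y` on some `[0, t0]`; `d = ψ y`. -/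
theorem HPoly.pa {X : Type u} [AddCommGroup X] [Module ℝ X] {q : X → ℝ} (hq : HPoly q) (x y : X) :
    ∃ t0 : ℝ, 0 < t0 ∧ ∃ d : ℝ, ∀ t : ℝ, 0 ≤ t → t ≤ t0 → q (x + t • y) = q x + t * d := by
  classical
  let F : Submodule ℝ X := Submodule.span ℝ {x, y}
  have hxF : x ∈ F := Submodule.subset_span (by simp)
  have hyF : y ∈ F := Submodule.subset_span (by simp)
  have hfd : FiniteDimensional ℝ F :=
    FiniteDimensional.span_of_finite ℝ ((Set.finite_singleton y).insert x)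
  obtain ⟨Φ, hle, hex⟩ := hq F hfd
  let xF : F := ⟨x, hxF⟩
  let yF : F := ⟨y, hyF⟩
  have hne : (Φ.filter (fun φ => φ xF = q x)).Nonempty := by
    obtain ⟨φ, hφ, h⟩ := hex xF
    exact ⟨φ, Finset.mem_filter.2 ⟨hφ, h⟩⟩
  obtain ⟨ψ, hψ, hmax⟩ := Finset.exists_max_image (Φ.filter (fun φ => φ xF = q x)) (fun φ => φ yF) hne
  obtain ⟨hψΦ, hψx⟩ := Finset.mem_filter.1 hψ
  have key : ∀ φ ∈ Φ, ∃ s : ℝ, 0 < s ∧ ∀ t : ℝ, 0 ≤ t → t ≤ s → φ xF + t * φ yF ≤ ψ xF + t * ψ yF := by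
    intro φ hφ
    by_cases h : φ xF = q x
    · refine ⟨1, one_pos, fun t ht _ => ?_⟩
      have h1 : φ yF ≤ ψ yF := hmax φ (Finset.mem_filter.2 ⟨hφ, h⟩)
      rw [h, hψx]
      have := mul_le_mul_of_nonneg_left h1 ht
      linarith
    · have hlt : φ xF < ψ xF := by
        rw [hψx]
        exact lt_of_le_of_ne (hle φ hφ xF) h
      refine ⟨(ψ xF - φ xF) / (|φ yF - ψ yF| + 1), div_pos (by linarith) (by positivity), fun t ht hts => ?_⟩
      have hpos : 0 < |φ yF - ψ yF| + 1 := by positivity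
      have h2 : t * (|φ yF - ψ yF| + 1) ≤ ψ xF - φ xF := (le_div_iff₀ hpos).1 hts
      have h3 : t * (φ yF - ψ yF) ≤ t * (|φ yF - ψ yF| + 1) :=
        mul_le_mul_of_nonneg_left (by linarith [le_abs_self (φ yF - ψ yF)]) ht
      nlinarith
  choose! s hs0 hs using key
  have hΦne : Φ.Nonempty := ⟨ψ, hψΦ⟩
  refine ⟨Φ.inf' hΦne s, ?_, ψ yF, fun t ht htt => ?_⟩
  · rw [Finset.lt_inf'_iff]
    exact hs0
  · obtain ⟨φ, hφ, hφe⟩ := hex (xF + t • yF)
    have hco : ((xF + t • yF : F) : X) = x + t • y := rfl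
    rw [hco] at hφe
    have hψle := hle ψ hψΦ (xF + t • yF)
    rw [hco] at hψle
    have hφt : φ (xF + t • yF) = φ xF + t * φ yF := by simp
    have hψt : ψ (xF + t • yF) = ψ xF + t * ψ yF := by simp
    have h4 := hs φ hφ t ht (htt.trans (Finset.inf'_le _ hφ))
    rw [← hψx]
    apply le_antisymm
    · rw [← hφe, hφt]
      exact h4
    · rw [← hψt]
      exact hψle

end PolyR126
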