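import Pool.Agent.PolyR126.Defs

set_option autoImplicit false

universe u v

namespace PolyR126

open Set Metric Filter Topology

/-- PROOF. Take `Φ` for `F`; each `φ ∈ Φ` satisfies `φ x ≤ ‖x‖` on `F`, so also `|φ x| ≤ ‖x‖`, and extends to a functional on `X` of norm
`≤ 1` by Hahn-Banach (`exists_extension_norm_eq`, or the sublinear version). -/
theorem HP.norming {X : Type u} [NormedAddCommGroup X] [NormedSpace ℝ X] (h : HP X)
    (F : Submodule ℝ X) (hF : FiniteDimensional ℝ F) :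
    ∃ G : Finset (X →L[ℝ] ℝ), (∀ φ ∈ G, ‖φ‖ ≤ 1) ∧ ∀ x ∈ F, ∃ φ ∈ G, φ x = ‖x‖ := by
  classical
  obtain ⟨Φ, h1, h2⟩ := h F hF
  have hext : ∀ φ : F →ₗ[ℝ] ℝ, ∃ g : X →L[ℝ] ℝ, φ ∈ Φ → (∀ x : F, g x = φ x) ∧ ‖g‖ ≤ 1 := by
    intro φ
    by_cases hφ : φ ∈ Φ
    · have hb : ∀ x : F, ‖φ x‖ ≤ 1 * ‖x‖ := by
        intro x
        rw [one_mul, Real.norm_eq_abs, abs_le]
        have h3 := h1 φ hφ x
        have h4 := h1 φ hφ (-x)
        simp only [map_neg] at h4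
        have h5 : ‖((-x : F) : X)‖ = ‖x‖ := by
          rw [Submodule.coe_neg, norm_neg]; rfl
        have h6 : ‖(x : X)‖ = ‖x‖ := rfl
        constructor
        · linarith [h4, h5]
        · linarith [h3, h6]
      obtain ⟨g, hg1, hg2⟩ := exists_extension_norm_eq (𝕜 := ℝ) F (LinearMap.mkContinuous φ 1 hb)
      refine ⟨g, fun _ => ⟨fun x => ?_, ?_⟩⟩
      · rw [hg1 x]; rfl
      · rw [hg2]
        exact LinearMap.mkContinuous_norm_le φ zero_le_one hb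
    · exact ⟨0, fun h => absurd h hφ⟩
  choose g hg using hext
  refine ⟨Φ.image g, ?_, ?_⟩
  · intro ψ hψ
    obtain ⟨φ, hφ, rfl⟩ := Finset.mem_image.1 hψ
    exact (hg φ hφ).2
  · intro x hx
    obtain ⟨φ, hφ, hφx⟩ := h2 ⟨x, hx⟩
    refine ⟨g φ, Finset.mem_image_of_mem g hφ, ?_⟩
    have h3 := (hg φ hφ).1 ⟨x, hx⟩
    rw [show g φ x = φ ⟨x, hx⟩ from h3]
    exact hφx

end PolyR126
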