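import Pool.Agent.PolyR126.Defs

set_option autoImplicit false

universe u v

namespace PolyR126

open Set Metric Filter Topology

theorem ext_finite_convexHull_inter {X : Type u} [AddCommGroup X] [Module ℝ X] (V : Set X)
    (hV : V.Finite) (F : Submodule ℝ X) :
    (Set.extremePoints ℝ (convexHull ℝ V ∩ (F : Set X))).Finite := by
  classical
  obtain ⟨s, rfl⟩ := hV.exists_finset_coe
  have hrep : ∀ x ∈ convexHull ℝ (s : Set X), ∃ w : X → ℝ, (∀ v ∈ s, 0 ≤ w v) ∧ ∑ v ∈ s, w v = 1 ∧
      ∑ v ∈ s, w v • v = x := by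
    intro x hx
    rw [Finset.convexHull_eq] at hx
    obtain ⟨w, h0, h1, h2⟩ := hx
    refine ⟨w, h0, h1, ?_⟩
    rw [← h2, Finset.centerMass_eq_of_sum_1 _ _ h1]
    rfl
  have hmem : ∀ w : X → ℝ, (∀ v ∈ s, 0 ≤ w v) → ∑ v ∈ s, w v = 1 →
      ∑ v ∈ s, w v • v ∈ convexHull ℝ (s : Set X) := by
    intro w h0 h1
    rw [Finset.convexHull_eq]
    refine ⟨w, h0, h1, ?_⟩
    rw [Finset.centerMass_eq_of_sum_1 _ _ h1]
    rfl
  choose! w hw0 hw1 hw2 using hrep
  have hinj : Set.InjOn (fun x : X => s.filter (fun v => 0 < w x v))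
      (Set.extremePoints ℝ (convexHull ℝ (s : Set X) ∩ (F : Set X))) := by
    intro x hx y hy hxy
    have hxy' : s.filter (fun v => 0 < w x v) = s.filter (fun v => 0 < w y v) := hxy
    have hx1 := hx.1.1
    have hy1 := hy.1.1
    have ev : ∀ v ∈ s, ∀ᶠ t : ℝ in 𝓝 (0 : ℝ), 0 ≤ w x v + t * (w x v - w y v) := by
      intro v hv
      by_cases h : 0 < w x v
      · have c1 : Tendsto (fun t : ℝ => w x v + t * (w x v - w y v)) (𝓝 0)
            (𝓝 (w x v + 0 * (w x v - w y v))) := by
          apply Continuous.tendsto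
          fun_prop
        rw [zero_mul, add_zero] at c1
        filter_upwards [c1.eventually (lt_mem_nhds h)] with t a
        exact a.le
      · have h2 : ¬ 0 < w y v := by
          intro h3
          have : v ∈ s.filter (fun v => 0 < w y v) := Finset.mem_filter.2 ⟨hv, h3⟩
          rw [← hxy'] at this
          exact h (Finset.mem_filter.1 this).2
        have h4 : w x v = 0 := le_antisymm (not_lt.1 h) (hw0 x hx1 v hv)
        have h5 : w y v = 0 := le_antisymm (not_lt.1 h2) (hw0 y hy1 v hv)
        refine Filter.Eventually.of_forall fun t => ?_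
        simp [h4, h5]
    have ev2 : ∀ᶠ t : ℝ in 𝓝 (0 : ℝ), ∀ v ∈ s, 0 ≤ w x v + t * (w x v - w y v) :=
      (Filter.eventually_all_finset s).2 ev
    obtain ⟨ε, hε, hball⟩ := Metric.eventually_nhds_iff.1 ev2
    have ht := @hball (ε / 2) (by rw [Real.dist_eq, sub_zero, abs_of_pos (by positivity)]; linarith)
    set t : ℝ := ε / 2 with htdef
    have htpos : 0 < t := by positivity
    have hsum : ∑ v ∈ s, (w x v + t * (w x v - w y v)) • v = x + t • (x - y) := by
      have : ∀ v ∈ s, (w x v + t * (w x v - w y v)) • v = w x v • v + t • (w x v • v - w y v • v) := by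
        intro v _
        module
      rw [Finset.sum_congr rfl this, Finset.sum_add_distrib, ← Finset.smul_sum,
        Finset.sum_sub_distrib, hw2 x hx1, hw2 y hy1]
    have hx' : x + t • (x - y) ∈ convexHull ℝ (s : Set X) ∩ (F : Set X) := by
      refine ⟨?_, ?_⟩
      · rw [← hsum]
        apply hmem
        · exact ht
        · rw [Finset.sum_add_distrib, ← Finset.mul_sum, Finset.sum_sub_distrib, hw1 x hx1, hw1 y hy1]
          ring
      · exact F.add_mem hx.1.2 (F.smul_mem _ (F.sub_mem hx.1.2 hy.1.2))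
    have hseg : x ∈ openSegment ℝ y (x + t • (x - y)) := by
      have h1t : 0 < 1 + t := by positivity
      refine ⟨t / (1 + t), 1 / (1 + t), by positivity, by positivity, by field_simp; ring, ?_⟩
      have : (1 / (1 + t) : ℝ) • (x + t • (x - y)) = x - (t / (1 + t)) • y := by
        have e1 : x - (t / (1 + t)) • y = (1 / (1 + t) : ℝ) • ((1 + t) • x - t • y) := by
          rw [smul_sub, smul_smul, smul_smul, one_div, inv_mul_cancel₀ h1t.ne', one_smul, div_eq_mul_inv,
            mul_comm t]
        rw [e1]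
        congr 1
        module
      rw [this]
      abel
    exact (hx.2 hy.1 hx' hseg).symm
  refine Set.Finite.of_finite_image ?_ hinj
  refine (s.powerset.finite_toSet).subset ?_
  rintro _ ⟨x, _, rfl⟩
  simp only [Finset.coe_powerset, Set.mem_preimage, Set.mem_powerset_iff]
  intro φ hφ
  exact (Finset.mem_filter.1 (Finset.mem_coe.1 hφ)).1

end PolyR126
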