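import Pool.Agent.PolyR126.Defs
import Pool.Agent.PolyR126.A1

set_option autoImplicit false

universe u v

namespace PolyR126

open Set Metric Filter Topology

namespace A3

/-- The ball is the convex hull of its extreme points when these are finitely many. -/
theorem ball_eq_convexHull {E : Type u} [NormedAddCommGroup E] [NormedSpace ℝ E]
    [FiniteDimensional ℝ E] (hfin : (extremePoints ℝ (closedBall (0 : E) 1)).Finite) :
    closedBall (0 : E) 1 = convexHull ℝ (extremePoints ℝ (closedBall (0 : E) 1)) := by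
  have hprop : ProperSpace E := FiniteDimensional.proper_real E
  have h1 := closure_convexHull_extremePoints (isCompact_closedBall (0 : E) 1)
    (convex_closedBall (0 : E) 1)
  rw [(hfin.isClosed_convexHull ℝ).closure_eq] at h1
  exact h1.symm

theorem norm_le_one_of {E : Type u} [NormedAddCommGroup E] [NormedSpace ℝ E]
    (φ : E →L[ℝ] ℝ) (h : ∀ x ∈ closedBall (0 : E) 1, φ x ≤ 1) : ‖φ‖ ≤ 1 := by
  have h2 : ∀ x : E, φ x ≤ ‖x‖ := by
    intro x
    rcases eq_or_ne x 0 with rfl | hx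
    · simp
    · have hpos : 0 < ‖x‖ := norm_pos_iff.mpr hx
      have h3 := h (‖x‖⁻¹ • x) (by
        rw [mem_closedBall_zero_iff, norm_smul, norm_inv, norm_norm,
          inv_mul_cancel₀ hpos.ne'])
      rw [map_smul, smul_eq_mul] at h3
      have h4 := mul_le_mul_of_nonneg_left h3 hpos.le
      rw [← mul_assoc, mul_inv_cancel₀ hpos.ne', one_mul, mul_one] at h4
      exact h4
  refine φ.opNorm_le_bound zero_le_one fun x => ?_
  rw [one_mul, Real.norm_eq_abs, abs_le]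
  have h5 := h2 (-x)
  rw [map_neg, norm_neg] at h5
  exact ⟨by linarith, h2 x⟩

theorem mem_dual_ball {E : Type u} [NormedAddCommGroup E] [NormedSpace ℝ E]
    (φ : E →L[ℝ] ℝ) : φ ∈ closedBall (0 : E →L[ℝ] ℝ) 1 ↔ ‖φ‖ ≤ 1 :=
  mem_closedBall_zero_iff (E := E →L[ℝ] ℝ) (r := 1) (a := φ)

theorem le_of_mem_convexHull {E : Type u} [NormedAddCommGroup E] [NormedSpace ℝ E]
    (φ : E →ₗ[ℝ] ℝ) (c : ℝ) (V : Set E) (h : ∀ v ∈ V, φ v ≤ c) (x : E)
    (hx : x ∈ convexHull ℝ V) : φ x ≤ c := by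
  have h1 : convexHull ℝ V ⊆ {y | φ y ≤ c} :=
    convexHull_min h (convex_halfSpace_le φ.isLinear c)
  exact h1 hx

end A3

/-- PROOF. Let `F` be finite-dimensional, with the norm of `X`. If `x : F` is an extreme point of `closedBall (0 : F) 1` then `(x : X)` is
an extreme point of `closedBall (0 : X) 1 ∩ F`; so `V = extremePoints (closedBall (0 : F) 1)` is finite. Krein-Milman
(`closure_convexHull_extremePoints`, `F` is a proper space): `closedBall (0:F) 1 = closure (convexHull V) = convexHull V` (a finite set has a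
compact convex hull: `Set.Finite.isCompact_convexHull`/`isClosed_convexHull`). Let `D = closedBall (0 : F →L[ℝ] ℝ) 1`. Then
`D = {φ | ∀ v ∈ V, φ v ≤ 1}` (if `φ ≤ 1` on `V` then `φ ≤ 1` on the ball, so `‖φ‖ ≤ 1`). By `ext_finite_Hrep` applied to the vector space
`F →L[ℝ] ℝ` and the evaluations at `v ∈ V`, `ext D` is finite. `F →L[ℝ] ℝ` is finite-dimensional, so `D` is compact and again
`D = convexHull (ext D)`. For `x : F` there is `φ ∈ D` with `φ x = ‖x‖` (`exists_dual_vector''`), `φ` is a convex combination of elements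
`ψ ∈ ext D`, all with `ψ x ≤ ‖x‖`, so some `ψ ∈ ext D` has `ψ x = ‖x‖`. Take for `Φ` the linear maps underlying `ext D`. -/
theorem hp_of_polySpace {X : Type u} [NormedAddCommGroup X] [NormedSpace ℝ X]
    (h : PolySpace X) : HP X := by
  classical
  intro F hF
  -- the extreme points of the ball of `F` are finitely many
  have hV : (extremePoints ℝ (closedBall (0 : F) 1)).Finite := by
    refine ((h F hF).preimage (f := ((↑) : F → X)) Subtype.val_injective.injOn).subset ?_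
    intro x hx
    rw [mem_preimage, mem_extremePoints_iff_left]
    rw [mem_extremePoints_iff_left] at hx
    obtain ⟨hx1, hx2⟩ := hx
    refine ⟨⟨by simpa using hx1, x.2⟩, ?_⟩
    rintro y ⟨hy, hyF⟩ z ⟨hz, hzF⟩ hxyz
    have h1 := hx2 ⟨y, hyF⟩ (by simpa using hy) ⟨z, hzF⟩ (by simpa using hz) (by
      obtain ⟨a, b, ha, hb, hab, hxe⟩ := hxyz
      exact ⟨a, b, ha, hb, hab, Subtype.ext hxe⟩)
    exact congrArg Subtype.val h1
  have hball := A3.ball_eq_convexHull hV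
  -- the dual ball
  have hD : closedBall (0 : F →L[ℝ] ℝ) 1 = {φ : F →L[ℝ] ℝ |
      ∀ g ∈ hV.toFinset.image
        (fun v => ((ContinuousLinearMap.apply ℝ ℝ v : (F →L[ℝ] ℝ) →L[ℝ] ℝ) :
          (F →L[ℝ] ℝ) →ₗ[ℝ] ℝ)), g φ ≤ 1} := by
    ext φ
    rw [A3.mem_dual_ball, mem_ofPred_eq]
    constructor
    · intro hφ g hg
      rw [Finset.mem_image] at hg
      obtain ⟨v, hv, rfl⟩ := hg
      rw [Set.Finite.mem_toFinset] at hv
      have hv1 : ‖v‖ ≤ 1 := mem_closedBall_zero_iff.mp hv.1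
      have h1 : φ v ≤ ‖φ‖ * ‖v‖ := (le_abs_self _).trans (φ.le_opNorm v)
      have h2 : ‖φ‖ * ‖v‖ ≤ 1 := mul_le_one₀ hφ (norm_nonneg _) hv1
      exact h1.trans h2
    · intro hφ
      refine A3.norm_le_one_of φ fun x hx => ?_
      rw [hball] at hx
      refine A3.le_of_mem_convexHull (φ : F →ₗ[ℝ] ℝ) 1 _ (fun v hv => ?_) x hx
      exact hφ _ (Finset.mem_image.mpr ⟨v, hV.mem_toFinset.mpr hv, rfl⟩)
  have hfinD : (extremePoints ℝ (closedBall (0 : F →L[ℝ] ℝ) 1)).Finite := by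
    rw [hD]
    exact ext_finite_Hrep _
  have hball2 := A3.ball_eq_convexHull (E := F →L[ℝ] ℝ) hfinD
  refine ⟨hfinD.toFinset.image (fun ψ : F →L[ℝ] ℝ => (ψ : F →ₗ[ℝ] ℝ)), ?_, ?_⟩
  · intro φ hφ x
    rw [Finset.mem_image] at hφ
    obtain ⟨ψ, hψ, rfl⟩ := hφ
    rw [Set.Finite.mem_toFinset] at hψ
    have hψ1 : ‖ψ‖ ≤ 1 := (A3.mem_dual_ball ψ).mp hψ.1
    have h1 : ψ x ≤ ‖ψ‖ * ‖x‖ := (le_abs_self _).trans (ψ.le_opNorm x)
    have h2 : ‖ψ‖ * ‖x‖ ≤ ‖x‖ := mul_le_of_le_one_left (norm_nonneg _) hψ1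
    exact h1.trans h2
  · intro x
    obtain ⟨φ, hφ1, hφ2⟩ := exists_dual_vector'' ℝ x
    by_contra hcon
    push Not at hcon
    have hmem : φ ∈ closedBall (0 : F →L[ℝ] ℝ) 1 := (A3.mem_dual_ball φ).mpr hφ1
    -- the values at `x` of the extreme functionals are bounded by `c < ‖x‖`
    have hlt : ∀ ψ ∈ extremePoints ℝ (closedBall (0 : F →L[ℝ] ℝ) 1), ψ x < ‖x‖ := by
      intro ψ hψ
      have hψ1 : ‖ψ‖ ≤ 1 := (A3.mem_dual_ball ψ).mp hψ.1
      have h1 : ψ x ≤ ‖ψ‖ * ‖x‖ := (le_abs_self _).trans (ψ.le_opNorm x)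
      have h2 : ‖ψ‖ * ‖x‖ ≤ ‖x‖ := mul_le_of_le_one_left (norm_nonneg _) hψ1
      refine lt_of_le_of_ne (h1.trans h2) ?_
      exact hcon (ψ : F →ₗ[ℝ] ℝ) (Finset.mem_image.mpr ⟨ψ, hfinD.mem_toFinset.mpr hψ, rfl⟩)
    have hsub : convexHull ℝ (extremePoints ℝ (closedBall (0 : F →L[ℝ] ℝ) 1)) ⊆
        {ψ : F →L[ℝ] ℝ | (ContinuousLinearMap.apply ℝ ℝ x : (F →L[ℝ] ℝ) →L[ℝ] ℝ) ψ < ‖x‖} :=
      convexHull_min hlt (convex_halfSpace_lt
        (ContinuousLinearMap.apply ℝ ℝ x : (F →L[ℝ] ℝ) →L[ℝ] ℝ).toLinearMap.isLinear _)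
    rw [hball2] at hmem
    have h3 : φ x < ‖x‖ := hsub hmem
    rw [hφ2] at h3
    exact lt_irrefl _ h3

end PolyR126
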