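import Pool.Agent.PolyR126.Defs
import Pool.Agent.PolyR126.A1

set_option autoImplicit false

universe u v

namespace PolyR126

open Set Metric Filter Topology

/-- PROOF. For `F` finite-dimensional take `Φ` from `h`; for `x : F`, `‖x‖ ≤ 1` iff `φ x ≤ 1` for all `φ ∈ Φ`. By `ext_finite_Hrep` the set
`{x : F | ∀ φ ∈ Φ, φ x ≤ 1}` has finitely many extreme points, and each extreme point of `closedBall 0 1 ∩ F` in `X` is the image under
`F → X` of an extreme point of that set. -/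
theorem polySpace_of_hp {X : Type u} [NormedAddCommGroup X] [NormedSpace ℝ X]
    (h : HP X) : PolySpace X := by
  intro F hF
  obtain ⟨Φ, h1, h2⟩ := h F hF
  refine ((ext_finite_Hrep Φ).image (fun x : F => (x : X))).subset ?_
  intro x hx
  obtain ⟨⟨hxb, hxF⟩, hx2⟩ := hx
  have hS : ∀ y : F, (∀ φ ∈ Φ, φ y ≤ 1) → (y : X) ∈ Metric.closedBall (0 : X) 1 ∩ (F : Set X) := by
    intro y hy
    refine ⟨?_, y.2⟩
    obtain ⟨φ, hφ, e⟩ := h2 y
    rw [mem_closedBall_zero_iff]
    exact e.symm.le.trans (hy φ hφ)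
  refine ⟨⟨x, hxF⟩, ⟨?_, ?_⟩, rfl⟩
  · intro φ hφ
    refine (h1 φ hφ _).trans ?_
    simpa using hxb
  · intro y hy z hz hxyz
    apply Subtype.ext
    refine hx2 (hS y hy) (hS z hz) ?_
    obtain ⟨a, b, ha, hb, hab, e⟩ := hxyz
    exact ⟨a, b, ha, hb, hab, congrArg Subtype.val e⟩

end PolyR126
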