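import Pool.Agent.PolyR126.Defs

set_option autoImplicit false

universe u v

namespace PolyR126

open Set Metric Filter Topology

theorem HPoly.comp {X : Type u} {Y : Type v} [AddCommGroup X] [Module ℝ X] [AddCommGroup Y]
    [Module ℝ Y] {q : Y → ℝ} (hq : HPoly q) (T : X →ₗ[ℝ] Y) : HPoly (fun x => q (T x)) := by
  classical
  intro F hF
  obtain ⟨Φ, h1, h2⟩ := hq (F.map T) inferInstance
  let S : F →ₗ[ℝ] (F.map T) := (T.domRestrict F).codRestrict (F.map T) (fun x => ⟨x, x.2, rfl⟩)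
  have hS : ∀ x : F, ((S x : F.map T) : Y) = T x := fun x => rfl
  refine ⟨Φ.image (fun φ => φ.comp S), ?_, ?_⟩
  · intro φ hφ x
    obtain ⟨ψ, hψ, rfl⟩ := Finset.mem_image.1 hφ
    have := h1 ψ hψ (S x)
    rw [hS] at this
    exact this
  · intro x
    obtain ⟨ψ, hψ, h3⟩ := h2 (S x)
    refine ⟨ψ.comp S, Finset.mem_image.2 ⟨ψ, hψ, rfl⟩, ?_⟩
    rw [hS] at h3
    exact h3

theorem HPoly.max {X : Type u} [AddCommGroup X] [Module ℝ X] {p q : X → ℝ} (hp : HPoly p)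
    (hq : HPoly q) : HPoly (fun x => max (p x) (q x)) := by
  classical
  intro F hF
  obtain ⟨Φ, h1, h2⟩ := hp F hF
  obtain ⟨Ψ, h3, h4⟩ := hq F hF
  refine ⟨Φ ∪ Ψ, ?_, ?_⟩
  · intro φ hφ x
    rcases Finset.mem_union.1 hφ with h | h
    · exact le_max_of_le_left (h1 φ h x)
    · exact le_max_of_le_right (h3 φ h x)
  · intro x
    rcases le_total (p x) (q x) with h | h
    · obtain ⟨φ, hφ, h5⟩ := h4 x
      exact ⟨φ, Finset.mem_union_right _ hφ, by rw [h5]; exact (max_eq_right h).symm⟩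
    · obtain ⟨φ, hφ, h5⟩ := h2 x
      exact ⟨φ, Finset.mem_union_left _ hφ, by rw [h5]; exact (max_eq_left h).symm⟩

theorem HPoly.add {X : Type u} [AddCommGroup X] [Module ℝ X] {p q : X → ℝ} (hp : HPoly p)
    (hq : HPoly q) : HPoly (fun x => p x + q x) := by
  classical
  intro F hF
  obtain ⟨Φ, h1, h2⟩ := hp F hF
  obtain ⟨Ψ, h3, h4⟩ := hq F hF
  refine ⟨(Φ ×ˢ Ψ).image (fun z => z.1 + z.2), ?_, ?_⟩
  · intro φ hφ x
    obtain ⟨⟨a, b⟩, hab, rfl⟩ := Finset.mem_image.1 hφ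
    obtain ⟨ha, hb⟩ := Finset.mem_product.1 hab
    exact add_le_add (h1 a ha x) (h3 b hb x)
  · intro x
    obtain ⟨a, ha, h5⟩ := h2 x
    obtain ⟨b, hb, h6⟩ := h4 x
    refine ⟨a + b, Finset.mem_image.2 ⟨(a, b), Finset.mem_product.2 ⟨ha, hb⟩, rfl⟩, ?_⟩
    rw [LinearMap.add_apply, h5, h6]

theorem HPoly.mul {X : Type u} [AddCommGroup X] [Module ℝ X] {p : X → ℝ} (hp : HPoly p)
    {c : ℝ} (hc : 0 ≤ c) : HPoly (fun x => c * p x) := by
  classical
  intro F hF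
  obtain ⟨Φ, h1, h2⟩ := hp F hF
  refine ⟨Φ.image (fun z => c • z), ?_, ?_⟩
  · intro φ hφ x
    obtain ⟨a, ha, rfl⟩ := Finset.mem_image.1 hφ
    exact mul_le_mul_of_nonneg_left (h1 a ha x) hc
  · intro x
    obtain ⟨a, ha, h5⟩ := h2 x
    refine ⟨c • a, Finset.mem_image.2 ⟨a, ha, rfl⟩, ?_⟩
    rw [LinearMap.smul_apply, h5, smul_eq_mul]

theorem HPoly.abs {X : Type u} [AddCommGroup X] [Module ℝ X] (k : X →ₗ[ℝ] ℝ) :
    HPoly (fun x => |k x|) := by
  classical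
  intro F hF
  refine ⟨{k.domRestrict F, -(k.domRestrict F)}, ?_, ?_⟩
  · intro φ hφ x
    rcases Finset.mem_insert.1 hφ with h | h
    · rw [h]
      exact le_abs_self _
    · rw [Finset.mem_singleton.1 h]
      exact neg_le_abs _
  · intro x
    rcases abs_choice (k x) with h | h
    · exact ⟨k.domRestrict F, by simp, h.symm⟩
    · exact ⟨-(k.domRestrict F), by simp, h.symm⟩

theorem HP.submodule {X : Type u} [NormedAddCommGroup X] [NormedSpace ℝ X] (h : HP X)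
    (Y : Submodule ℝ X) : HP Y := by
  have := HPoly.comp h Y.subtype
  exact this

end PolyR126
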