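import Pool.Agent.PolyR126.Defs

set_option autoImplicit false

universe u v

namespace PolyR126

open Set Metric Filter Topology

theorem Fac.apply {X : Type u} [NormedAddCommGroup X] [NormedSpace ℝ X] {f : X →L[ℝ] ℝ} {w : X}
    (h : Fac f w) : f w = ‖w‖ := by
  obtain ⟨r, hr, hf⟩ := h
  have := hf 0 (by simpa using hr)
  simpa using this.symm

theorem Fac.le {X : Type u} [NormedAddCommGroup X] [NormedSpace ℝ X] {f : X →L[ℝ] ℝ} {w : X}
    (h : Fac f w) (v : X) : f v ≤ ‖v‖ := by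
  have h0 := h.apply
  obtain ⟨r, hr, hf⟩ := h
  set t : ℝ := r / (2 * (‖v‖ + 1)) with ht
  have hv : 0 < ‖v‖ + 1 := by positivity
  have htpos : 0 < t := by positivity
  have hlt : ‖t • v‖ < r := by
    rw [norm_smul, Real.norm_eq_abs, abs_of_pos htpos, ht, div_mul_eq_mul_div, div_lt_iff₀ (by positivity)]
    nlinarith [norm_nonneg v]
  have h1 := hf (t • v) hlt
  have h2 : ‖w + t • v‖ ≤ ‖w‖ + t * ‖v‖ := by
    calc ‖w + t • v‖ ≤ ‖w‖ + ‖t • v‖ := norm_add_le _ _
      _ = ‖w‖ + t * ‖v‖ := by rw [norm_smul, Real.norm_eq_abs, abs_of_pos htpos]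
  rw [h1, map_add, map_smul, smul_eq_mul, h0] at h2
  have h3 : t * f v ≤ t * ‖v‖ := by linarith
  exact le_of_mul_le_mul_left h3 htpos

theorem Fac.norm_le {X : Type u} [NormedAddCommGroup X] [NormedSpace ℝ X] {f : X →L[ℝ] ℝ} {w : X}
    (h : Fac f w) : ‖f‖ ≤ 1 := by
  refine ContinuousLinearMap.opNorm_le_bound _ zero_le_one fun v => ?_
  rw [one_mul, Real.norm_eq_abs, abs_le]
  constructor
  · have := h.le (-v)
    rw [map_neg, norm_neg] at this
    linarith
  · exact h.le v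

theorem Fac.unique {X : Type u} [NormedAddCommGroup X] [NormedSpace ℝ X] {f g : X →L[ℝ] ℝ} {w : X}
    (h : Fac f w) (h' : Fac g w) : f = g := by
  obtain ⟨r, hr, hf⟩ := h
  obtain ⟨s, hs, hg⟩ := h'
  have key : ∀ u : X, ‖u‖ < min r s → f u = g u := by
    intro u hu
    have h1 := hf u (lt_of_lt_of_le hu (min_le_left _ _))
    have h2 := hg u (lt_of_lt_of_le hu (min_le_right _ _))
    have h3 := hf 0 (by simpa using hr)
    have h4 := hg 0 (by simpa using hs)
    simp only [add_zero] at h3 h4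
    rw [map_add] at h1 h2
    linarith
  ext v
  have hm : 0 < min r s := lt_min hr hs
  set t : ℝ := min r s / (2 * (‖v‖ + 1)) with ht
  have hv : 0 < ‖v‖ + 1 := by positivity
  have htpos : 0 < t := by positivity
  have hlt : ‖t • v‖ < min r s := by
    rw [norm_smul, Real.norm_eq_abs, abs_of_pos htpos, ht, div_mul_eq_mul_div, div_lt_iff₀ (by positivity)]
    nlinarith [norm_nonneg v]
  have := key _ hlt
  rw [map_smul, map_smul, smul_eq_mul, smul_eq_mul] at this
  exact mul_left_cancel₀ htpos.ne' this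

theorem Fac.nhds {X : Type u} [NormedAddCommGroup X] [NormedSpace ℝ X] {f : X →L[ℝ] ℝ} {w : X}
    (h : Fac f w) : ∃ r : ℝ, 0 < r ∧ ∀ w' : X, ‖w' - w‖ < r → Fac f w' := by
  obtain ⟨r, hr, hf⟩ := h
  refine ⟨r / 2, by positivity, fun w' hw' => ⟨r / 2, by positivity, fun u hu => ?_⟩⟩
  have h1 : ‖(w' - w) + u‖ < r := by
    calc ‖(w' - w) + u‖ ≤ ‖w' - w‖ + ‖u‖ := norm_add_le _ _
      _ < r := by linarith
  have h2 := hf _ h1
  have h3 : w + (w' - w + u) = w' + u := by abel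
  rwa [h3] at h2

theorem Fac.smul {X : Type u} [NormedAddCommGroup X] [NormedSpace ℝ X] {f : X →L[ℝ] ℝ} {w : X}
    (h : Fac f w) {c : ℝ} (hc : 0 < c) : Fac f (c • w) := by
  obtain ⟨r, hr, hf⟩ := h
  refine ⟨c * r, by positivity, fun u hu => ?_⟩
  have h1 : ‖c⁻¹ • u‖ < r := by
    rw [norm_smul, norm_inv, Real.norm_eq_abs, abs_of_pos hc, inv_mul_lt_iff₀ hc]
    exact hu
  have h2 := hf _ h1
  have h3 : c • w + u = c • (w + c⁻¹ • u) := by
    rw [smul_add, smul_smul, mul_inv_cancel₀ hc.ne', one_smul]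
  rw [h3, norm_smul, Real.norm_eq_abs, abs_of_pos hc, h2, map_smul, smul_eq_mul]

end PolyR126
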