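import Pool.Agent.PolyR126.Defs

set_option autoImplicit false

universe u v

namespace PolyR126

open Set Metric Filter Topology

/-- PROOF. Take `f` with `‖f‖ ≤ 1`, `f y = ‖y‖` (`exists_dual_vector''`). Let `K = {u | ‖y + u‖ ≤ ‖y‖ + f u}`; it is closed and convex and `0 ∈ K`.
For each `z` take `t` from `h`: `‖y ± t z‖ ≥ f (y ± t z) = ‖y‖ ± t f z` and the sum of the two norms is `2 ‖y‖`, so both are equalities:
`t z, -t z ∈ K`. So `K0 = K ∩ (-K)` is closed, convex, symmetric, absorbing: `Y = ⋃ n K0` (n natural, using `0 ∈ K0` and convexity). By Baire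
(`nonempty_interior_of_iUnion_of_closed`) some `n K0`, hence `K0`, has nonempty interior; by symmetry and convexity `0` is interior to
`K0`. So `‖y + u‖ = ‖y‖ + f u = f (y + u)` for all small `u` (`≥` holds always since `‖f‖ ≤ 1`). -/
theorem fac_of_sd {Y : Type u} [NormedAddCommGroup Y] [NormedSpace ℝ Y] [CompleteSpace Y] (y : Y)
    (h : ∀ z : Y, ∃ t : ℝ, 0 < t ∧ ‖y + t • z‖ + ‖y - t • z‖ = 2 * ‖y‖) :
    ∃ f : Y →L[ℝ] ℝ, Fac f y := by
  obtain ⟨f, hf1, hfy⟩ := exists_dual_vector'' ℝ y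
  replace hfy : f y = ‖y‖ := by simpa using hfy
  have hge : ∀ w, f w ≤ ‖w‖ := fun w => by
    have := f.le_of_opNorm_le hf1 w
    rw [one_mul] at this
    exact (le_abs_self _).trans this
  let K0 : Set Y := {u | ‖y + u‖ ≤ ‖y‖ + f u ∧ ‖y - u‖ ≤ ‖y‖ - f u}
  have hK0 : K0 = {u | ‖y + u‖ ≤ ‖y‖ + f u ∧ ‖y - u‖ ≤ ‖y‖ - f u} := rfl
  have hclosed : IsClosed K0 := by
    have c1 : IsClosed {u : Y | ‖y + u‖ ≤ ‖y‖ + f u} := isClosed_le (by fun_prop) (by fun_prop)
    have c2 : IsClosed {u : Y | ‖y - u‖ ≤ ‖y‖ - f u} := isClosed_le (by fun_prop) (by fun_prop)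
    exact c1.inter c2
  have hsymm : ∀ u ∈ K0, -u ∈ K0 := by
    rintro u ⟨h1, h2⟩
    refine ⟨?_, ?_⟩
    · rw [map_neg, ← sub_eq_add_neg, ← sub_eq_add_neg]; exact h2
    · rw [map_neg, sub_neg_eq_add, sub_neg_eq_add]; exact h1
  have hconv : ∀ u ∈ K0, ∀ v ∈ K0, ∀ a b : ℝ, 0 ≤ a → 0 ≤ b → a + b = 1 →
      a • u + b • v ∈ K0 := by
    rintro u ⟨h1, h2⟩ v ⟨h3, h4⟩ a b ha hb hab
    refine ⟨?_, ?_⟩
    · have e : y + (a • u + b • v) = a • (y + u) + b • (y + v) := by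
        have : y = a • y + b • y := by rw [← add_smul, hab, one_smul]
        calc y + (a • u + b • v) = (a • y + b • y) + (a • u + b • v) := by rw [← this]
          _ = _ := by simp only [smul_add]; abel
      rw [e]
      calc ‖a • (y + u) + b • (y + v)‖ ≤ ‖a • (y + u)‖ + ‖b • (y + v)‖ := norm_add_le _ _
        _ = a * ‖y + u‖ + b * ‖y + v‖ := by
            rw [norm_smul, norm_smul, Real.norm_of_nonneg ha, Real.norm_of_nonneg hb]
        _ ≤ a * (‖y‖ + f u) + b * (‖y‖ + f v) := by gcongr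
        _ = (a + b) * ‖y‖ + (a * f u + b * f v) := by ring
        _ = _ := by rw [hab, one_mul, map_add, map_smul, map_smul]; simp
    · have e : y - (a • u + b • v) = a • (y - u) + b • (y - v) := by
        have : y = a • y + b • y := by rw [← add_smul, hab, one_smul]
        calc y - (a • u + b • v) = (a • y + b • y) - (a • u + b • v) := by rw [← this]
          _ = _ := by simp only [smul_sub]; abel
      rw [e]
      calc ‖a • (y - u) + b • (y - v)‖ ≤ ‖a • (y - u)‖ + ‖b • (y - v)‖ := norm_add_le _ _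
        _ = a * ‖y - u‖ + b * ‖y - v‖ := by
            rw [norm_smul, norm_smul, Real.norm_of_nonneg ha, Real.norm_of_nonneg hb]
        _ ≤ a * (‖y‖ - f u) + b * (‖y‖ - f v) := by gcongr
        _ = (a + b) * ‖y‖ - (a * f u + b * f v) := by ring
        _ = _ := by rw [hab, one_mul, map_add, map_smul, map_smul]; simp
  have hzero : (0 : Y) ∈ K0 := by
    refine ⟨?_, ?_⟩ <;> simp
  have habs : ∀ z : Y, ∃ t : ℝ, 0 < t ∧ t • z ∈ K0 := by
    intro z
    obtain ⟨t, ht, hz⟩ := h z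
    refine ⟨t, ht, ?_⟩
    have h1 := hge (y + t • z)
    have h2 := hge (y - t • z)
    rw [map_add, hfy] at h1
    rw [map_sub, hfy] at h2
    exact ⟨by linarith, by linarith⟩
  let C : ℕ → Set Y := fun n => {z | ((n : ℝ) + 1)⁻¹ • z ∈ K0}
  have hCcl : ∀ n, IsClosed (C n) := fun n =>
    hclosed.preimage (continuous_const_smul (((n : ℝ) + 1)⁻¹))
  have hCun : ⋃ n, C n = univ := by
    rw [eq_univ_iff_forall]
    intro z
    obtain ⟨t, ht, htz⟩ := habs z
    obtain ⟨n, hn⟩ := exists_nat_one_div_lt ht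
    refine mem_iUnion.2 ⟨n, ?_⟩
    change ((n : ℝ) + 1)⁻¹ • z ∈ K0
    have hpos : (0 : ℝ) < (n : ℝ) + 1 := by positivity
    have hlt : ((n : ℝ) + 1)⁻¹ < t := by rwa [one_div] at hn
    have e : ((n : ℝ) + 1)⁻¹ • z
        = (((n : ℝ) + 1)⁻¹ / t) • (t • z) + (1 - ((n : ℝ) + 1)⁻¹ / t) • (0 : Y) := by
      rw [smul_zero, add_zero, smul_smul, div_mul_cancel₀ _ ht.ne']
    rw [e]
    refine hconv _ htz _ hzero _ _ (by positivity) ?_ (by ring)
    rw [sub_nonneg, div_le_one ht]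
    exact hlt.le
  obtain ⟨n, x0, hx0⟩ := nonempty_interior_of_iUnion_of_closed hCcl hCun
  obtain ⟨ρ, hρ, hball⟩ := Metric.isOpen_iff.1 isOpen_interior x0 hx0
  have hpos : (0 : ℝ) < (n : ℝ) + 1 := by positivity
  have hin : ∀ u : Y, ‖u‖ < ρ → ((n : ℝ) + 1)⁻¹ • u ∈ K0 := by
    intro u hu
    have h1 : x0 + u ∈ C n := interior_subset (hball (by
      rw [mem_ball, dist_eq_norm]; simpa using hu))
    have h2 : x0 - u ∈ C n := interior_subset (hball (by
      rw [mem_ball, dist_eq_norm]; simpa using hu))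
    have h3 := hsymm _ h2
    have h4 := hconv _ h1 _ h3 (1 / 2) (1 / 2) (by norm_num) (by norm_num) (by norm_num)
    have e : (1 / 2 : ℝ) • ((n : ℝ) + 1)⁻¹ • (x0 + u) + (1 / 2 : ℝ) • -(((n : ℝ) + 1)⁻¹ • (x0 - u))
        = ((n : ℝ) + 1)⁻¹ • u := by
      module
    rwa [e] at h4
  refine ⟨f, ρ / ((n : ℝ) + 1), by positivity, fun u hu => ?_⟩
  have h1 : ‖((n : ℝ) + 1) • u‖ < ρ := by
    rw [norm_smul, Real.norm_of_nonneg hpos.le]
    rwa [lt_div_iff₀ hpos, mul_comm] at hu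
  have h2 := hin _ h1
  rw [smul_smul, inv_mul_cancel₀ hpos.ne', one_smul] at h2
  refine le_antisymm ?_ (hge _)
  rw [map_add, hfy]
  exact h2.1

end PolyR126
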