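import Pool.Agent.PolyR126.Defs
import Pool.Agent.PolyR126.A10

set_option autoImplicit false

universe u v

namespace PolyR126

open Set Metric Filter Topology

private theorem ord_aux {Y : Type u} [NormedAddCommGroup Y] [NormedSpace ℝ Y] (y w : Y) (s t d : ℝ)
    (hs : 0 < s) (hst : s ≤ t) (h : ‖y + s • w‖ = ‖y‖ + s * d) : ‖y‖ + t * d ≤ ‖y + t • w‖ := by
  have ht : 0 < t := lt_of_lt_of_le hs hst
  have e : y + s • w = (1 - s / t) • y + (s / t) • (y + t • w) := by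
    rw [smul_add, smul_smul, sub_smul, one_smul, div_mul_cancel₀ _ ht.ne']
    abel
  have h1 : ‖y + s • w‖ ≤ (1 - s / t) * ‖y‖ + (s / t) * ‖y + t • w‖ := by
    rw [e]
    refine (norm_add_le _ _).trans ?_
    rw [norm_smul, norm_smul, Real.norm_of_nonneg, Real.norm_of_nonneg]
    · positivity
    · have : s / t ≤ 1 := (div_le_one ht).mpr hst
      linarith
  rw [h] at h1
  have h2 : s * d ≤ (s / t) * (‖y + t • w‖ - ‖y‖) := by linarith
  have h3 : (s / t) * (‖y + t • w‖ - ‖y‖) = s * ((‖y + t • w‖ - ‖y‖) / t) := by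
    field_simp
  rw [h3] at h2
  have h4 := le_of_mul_le_mul_left h2 hs
  rw [le_div_iff₀ ht] at h4
  linarith

/-- PROOF. For `w ∈ W`, `k : ℕ` let `O w k = {y | ∃ t > 0, ‖y + t w‖ + ‖y - t w‖ - 2 ‖y‖ < t / (k+1)}`. It is open (for fixed `t` the condition is
open). It is dense: given `y`, by `HPoly.pa` the function `t ↦ ‖y + t w‖` is affine on some `[0, t0]`, so for `0 < s < t0` the point
`y + s w` is in `O w k` (use a small `t`: then `‖y + (s+t) w‖ + ‖y + (s-t) w‖ - 2 ‖y + s w‖ = 0`). By Baire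
(`dense_iInter_of_isOpen`/`dense_biInter_of_isOpen` for countable families) there is `y` in all `O w k`, `w ∈ W`, with `‖y - y0‖ < ε`. Fix
`w ∈ W`. By `HPoly.pa` at `y` in the directions `w` and `-w`: `‖y + t w‖ = ‖y‖ + t d`, `‖y - t w‖ = ‖y‖ + t d'` for `0 ≤ t ≤ t1`. The function
`G t = ‖y + t w‖ + ‖y - t w‖ - 2 ‖y‖` is convex with `G 0 = 0`, `G ≥ 0`, so `G t / t` is nondecreasing in `t > 0`; hence
`0 ≤ d + d' ≤ G t / t` for every `t > 0`, and since `y ∈ O w k` for all `k`, `d + d' < 1/(k+1)` for all `k`. So `d + d' = 0` and `G t1 = 0`. -/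
theorem exists_smooth {Y : Type u} [NormedAddCommGroup Y] [NormedSpace ℝ Y] [CompleteSpace Y]
    (hY : HP Y) (W : Set Y) (hW : W.Countable) (y0 : Y) (ε : ℝ) (hε : 0 < ε) :
    ∃ y : Y, ‖y - y0‖ < ε ∧
      ∀ w ∈ W, ∃ t : ℝ, 0 < t ∧ ‖y + t • w‖ + ‖y - t • w‖ = 2 * ‖y‖ := by
  have := hW.to_subtype
  let O : W × ℕ → Set Y := fun p =>
    ⋃ t : {t : ℝ // 0 < t}, {y : Y | ‖y + t.1 • p.1.1‖ + ‖y - t.1 • p.1.1‖ - 2 * ‖y‖ < t.1 / (p.2 + 1)}
  have ho : ∀ p, IsOpen (O p) := by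
    intro p
    refine isOpen_iUnion fun t => ?_
    refine isOpen_lt ?_ continuous_const
    fun_prop
  have hd : ∀ p, Dense (O p) := by
    rintro ⟨⟨w, hw⟩, k⟩
    rw [Metric.dense_iff]
    intro y r hr
    obtain ⟨t0, ht0, d, hd⟩ := HPoly.pa hY y w
    obtain ⟨s, hs0, hs1, hs2⟩ : ∃ s : ℝ, 0 < s ∧ s ≤ t0 / 2 ∧ s * ‖w‖ < r := by
      refine ⟨min (t0 / 2) (r / (2 * (‖w‖ + 1))), ?_, min_le_left _ _, ?_⟩
      · have : 0 < ‖w‖ + 1 := by positivity
        exact lt_min (by linarith) (by positivity)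
      · have hw1 : 0 < ‖w‖ + 1 := by positivity
        have h1 : min (t0 / 2) (r / (2 * (‖w‖ + 1))) * ‖w‖ ≤ r / (2 * (‖w‖ + 1)) * ‖w‖ :=
          mul_le_mul_of_nonneg_right (min_le_right _ _) (norm_nonneg _)
        refine lt_of_le_of_lt h1 ?_
        rw [div_mul_eq_mul_div, div_lt_iff₀ (by positivity)]
        nlinarith [norm_nonneg w]
    refine ⟨y + s • w, ?_, ?_⟩
    · rw [Metric.mem_ball, dist_eq_norm, add_sub_cancel_left, norm_smul, Real.norm_of_nonneg hs0.le]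
      exact hs2
    · refine Set.mem_iUnion.mpr ⟨⟨s, hs0⟩, ?_⟩
      change ‖y + s • w + s • w‖ + ‖y + s • w - s • w‖ - 2 * ‖y + s • w‖ < s / ((k : ℝ) + 1)
      have e1 : y + s • w + s • w = y + (2 * s) • w := by
        rw [add_assoc, ← add_smul, two_mul]
      have h1 : ‖y + s • w‖ = ‖y‖ + s * d := hd s hs0.le (by linarith)
      have h2 : ‖y + (2 * s) • w‖ = ‖y‖ + (2 * s) * d := hd (2 * s) (by linarith) (by linarith)
      rw [e1, add_sub_cancel_right, h1, h2]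
      have : 0 < s / ((k : ℝ) + 1) := by positivity
      linarith
  have hD := dense_iInter_of_isOpen ho hd
  obtain ⟨y, hyb, hyO⟩ := Metric.dense_iff.mp hD y0 ε hε
  refine ⟨y, by rwa [Metric.mem_ball, dist_eq_norm] at hyb, fun w hw => ?_⟩
  obtain ⟨t1, ht1, d, h1⟩ := HPoly.pa hY y w
  obtain ⟨t2, ht2, d', h2⟩ := HPoly.pa hY y (-w)
  have hkey : ∀ k : ℕ, d + d' < 1 / ((k : ℝ) + 1) := by
    intro k
    have hk := Set.mem_iInter.mp hyO (⟨w, hw⟩, k)
    obtain ⟨⟨t, ht⟩, hlt⟩ := Set.mem_iUnion.mp hk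
    change ‖y + t • w‖ + ‖y - t • w‖ - 2 * ‖y‖ < t / ((k : ℝ) + 1) at hlt
    have a1 : ‖y‖ + t * d ≤ ‖y + t • w‖ :=
      ord_aux y w (min t t1) t d (lt_min ht ht1) (min_le_left _ _)
        (h1 _ (lt_min ht ht1).le (min_le_right _ _))
    have a2 : ‖y‖ + t * d' ≤ ‖y + t • (-w)‖ :=
      ord_aux y (-w) (min t t2) t d' (lt_min ht ht2) (min_le_left _ _)
        (h2 _ (lt_min ht ht2).le (min_le_right _ _))
    rw [smul_neg, ← sub_eq_add_neg] at a2
    have a3 : t * (d + d') < t * (1 / ((k : ℝ) + 1)) := by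
      rw [mul_one_div]
      linarith
    exact lt_of_mul_lt_mul_left a3 ht.le
  have hle : d + d' ≤ 0 := by
    by_contra hcon
    push Not at hcon
    obtain ⟨k, hk⟩ := exists_nat_one_div_lt hcon
    exact absurd (hkey k) (not_lt.mpr hk.le)
  have hτ : 0 < min t1 t2 := lt_min ht1 ht2
  refine ⟨min t1 t2, hτ, ?_⟩
  have b1 : ‖y + min t1 t2 • w‖ = ‖y‖ + min t1 t2 * d := h1 _ hτ.le (min_le_left _ _)
  have b2 : ‖y + min t1 t2 • (-w)‖ = ‖y‖ + min t1 t2 * d' := h2 _ hτ.le (min_le_right _ _)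
  rw [smul_neg, ← sub_eq_add_neg] at b2
  have b3 : 2 * ‖y‖ ≤ ‖y + min t1 t2 • w‖ + ‖y - min t1 t2 • w‖ := by
    have e : (2 : ℝ) • y = (y + min t1 t2 • w) + (y - min t1 t2 • w) := by
      rw [two_smul]; abel
    calc 2 * ‖y‖ = ‖(2 : ℝ) • y‖ := by rw [norm_smul]; simp
      _ ≤ _ := by rw [e]; exact norm_add_le _ _
  nlinarith [mul_nonpos_of_nonneg_of_nonpos hτ.le hle]

end PolyR126
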