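import Pool.Agent.PolyR126.Defs
import Pool.Agent.PolyR126.A10

set_option autoImplicit false

universe u v

namespace PolyR126

open Set Metric Filter Topology

/-- PROOF. Fix `z`. `HPoly.pa` at `y` in the directions `z`, `-z`: `‖y ± t z‖ = ‖y‖ + t d±` for `0 ≤ t ≤ t0`. `d+ + d- ≥ 0` by the triangle
inequality (`2‖y‖ ≤ ‖y + t z‖ + ‖y - t z‖`). Given `w ∈ W` with `t_w` from `h`; the function `t ↦ ‖y + t w‖ + ‖y - t w‖` is convex, `≥ 2‖y‖`,
equal to `2‖y‖` at `t = 0` and `t = t_w`, so it is `2‖y‖` on `[0, t_w]`. For `0 < t ≤ min t0 t_w`: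
`t (d+ + d-) = ‖y + t z‖ + ‖y - t z‖ - 2‖y‖ ≤ 2 t ‖z - w‖`. As `W` is dense, `d+ + d- ≤ 0`. So `t = t0` works. -/
theorem sd_of_dense {Y : Type u} [NormedAddCommGroup Y] [NormedSpace ℝ Y]
    (hY : HP Y) (y : Y) (W : Set Y) (hW : Dense W)
    (h : ∀ w ∈ W, ∃ t : ℝ, 0 < t ∧ ‖y + t • w‖ + ‖y - t • w‖ = 2 * ‖y‖) (z : Y) :
    ∃ t : ℝ, 0 < t ∧ ‖y + t • z‖ + ‖y - t • z‖ = 2 * ‖y‖ := by
  obtain ⟨t1, ht1, d1, h1⟩ := HPoly.pa hY y z
  obtain ⟨t2, ht2, d2, h2⟩ := HPoly.pa hY y (-z)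
  have h2' : ∀ t : ℝ, 0 ≤ t → t ≤ t2 → ‖y - t • z‖ = ‖y‖ + t * d2 := by
    intro t ha hb
    have := h2 t ha hb
    simp only [smul_neg] at this
    rw [sub_eq_add_neg]
    exact this
  have h1' : ∀ t : ℝ, 0 ≤ t → t ≤ t1 → ‖y + t • z‖ = ‖y‖ + t * d1 := h1
  have hd : d1 + d2 ≤ 0 := by
    apply le_of_forall_pos_le_add
    intro ε hε
    obtain ⟨w, hwW, hw⟩ := Metric.dense_iff.1 hW z (ε / 2) (by positivity)
    have hzw : ‖z - w‖ < ε / 2 := by
      rw [← dist_eq_norm, dist_comm]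
      exact hwW
    obtain ⟨tw, htw, hfw⟩ := h w hw
    set t : ℝ := min (min t1 t2) tw with ht
    have htpos : 0 < t := lt_min (lt_min ht1 ht2) htw
    have htt1 : t ≤ t1 := (min_le_left _ _).trans (min_le_left _ _)
    have htt2 : t ≤ t2 := (min_le_left _ _).trans (min_le_right _ _)
    have httw : t ≤ tw := min_le_right _ _
    set s : ℝ := t / tw with hs
    have hs0 : 0 ≤ s := by positivity
    have hs1 : s ≤ 1 := (div_le_one htw).2 httw
    have hst : s * tw = t := by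
      rw [hs]
      field_simp
    have e1 : y + t • w = (1 - s) • y + s • (y + tw • w) := by
      rw [smul_add, smul_smul, hst, sub_smul, one_smul]
      abel
    have e2 : y - t • w = (1 - s) • y + s • (y - tw • w) := by
      rw [smul_sub, smul_smul, hst, sub_smul, one_smul]
      abel
    have n1 : ‖y + t • w‖ ≤ (1 - s) * ‖y‖ + s * ‖y + tw • w‖ := by
      rw [e1]
      refine (norm_add_le _ _).trans (le_of_eq ?_)
      rw [norm_smul, norm_smul, Real.norm_of_nonneg (by linarith), Real.norm_of_nonneg hs0]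
    have n2 : ‖y - t • w‖ ≤ (1 - s) * ‖y‖ + s * ‖y - tw • w‖ := by
      rw [e2]
      refine (norm_add_le _ _).trans (le_of_eq ?_)
      rw [norm_smul, norm_smul, Real.norm_of_nonneg (by linarith), Real.norm_of_nonneg hs0]
    have n3 : ‖y + t • w‖ + ‖y - t • w‖ ≤ 2 * ‖y‖ := by
      have : s * (‖y + tw • w‖ + ‖y - tw • w‖) = s * (2 * ‖y‖) := by rw [hfw]
      linarith
    have m1 : ‖y + t • z‖ ≤ ‖y + t • w‖ + t * ‖z - w‖ := by
      have : y + t • z = (y + t • w) + t • (z - w) := by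
        rw [smul_sub]
        abel
      rw [this]
      refine (norm_add_le _ _).trans (le_of_eq ?_)
      rw [norm_smul, Real.norm_of_nonneg htpos.le]
    have m2 : ‖y - t • z‖ ≤ ‖y - t • w‖ + t * ‖z - w‖ := by
      have : y - t • z = (y - t • w) - t • (z - w) := by
        rw [smul_sub]
        abel
      rw [this]
      refine (norm_sub_le _ _).trans (le_of_eq ?_)
      rw [norm_smul, Real.norm_of_nonneg htpos.le]
    have k1 := h1' t htpos.le htt1
    have k2 := h2' t htpos.le htt2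
    have k3 : t * (d1 + d2) ≤ t * (2 * ‖z - w‖) := by
      rw [k1] at m1
      rw [k2] at m2
      linarith
    have k4 := le_of_mul_le_mul_left k3 htpos
    linarith
  refine ⟨min t1 t2, lt_min ht1 ht2, le_antisymm ?_ ?_⟩
  · rw [h1' _ (lt_min ht1 ht2).le (min_le_left _ _), h2' _ (lt_min ht1 ht2).le (min_le_right _ _)]
    have := mul_nonneg (lt_min ht1 ht2).le (neg_nonneg.2 hd)
    linarith
  · have e : (2 : ℝ) • y = (y + min t1 t2 • z) + (y - min t1 t2 • z) := by
      rw [two_smul]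
      abel
    have := norm_add_le (y + min t1 t2 • z) (y - min t1 t2 • z)
    rw [← e, norm_smul, Real.norm_of_nonneg (by norm_num)] at this
    exact this

end PolyR126
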