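import Pool.Agent.PolyR126.Defs

set_option autoImplicit false

universe u v

namespace PolyR126

open Set Metric Filter Topology

namespace E1

/-- one step of the closing off -/
def step {X : Type u} [AddCommGroup X] [Module ℝ X] (Z : ℕ → List X → X) (A : Set X) : Set X :=
  ((A ∪ Set.image2 (fun x y => x + y) A A) ∪ ⋃ q : ℚ, (fun x => (q : ℝ) • x) '' A) ∪
    ⋃ n : ℕ, Z n '' {l : List X | ∀ x ∈ l, x ∈ A}

theorem step_countable {X : Type u} [AddCommGroup X] [Module ℝ X] (Z : ℕ → List X → X)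
    {A : Set X} (hA : A.Countable) : (step Z A).Countable := by
  unfold step
  refine ((hA.union (hA.image2 hA _)).union (Set.countable_iUnion fun q => hA.image _)).union
    (Set.countable_iUnion fun n => Set.Countable.image ?_ _)
  rw [← Set.range_list_map_coe]
  have : Countable A := hA.to_subtype
  exact Set.countable_range _

/-- the iterated steps -/
def it {X : Type u} [AddCommGroup X] [Module ℝ X] (Z : ℕ → List X → X) (S : Set X) : ℕ → Set X
  | 0 => insert 0 S
  | n + 1 => step Z (it Z S n)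

theorem it_mono {X : Type u} [AddCommGroup X] [Module ℝ X] (Z : ℕ → List X → X) (S : Set X) :
    Monotone (it Z S) :=
  monotone_nat_of_le_succ fun n x hx => Or.inl (Or.inl (Or.inl hx))

theorem it_countable {X : Type u} [AddCommGroup X] [Module ℝ X] (Z : ℕ → List X → X)
    {S : Set X} (hS : S.Countable) (n : ℕ) : (it Z S n).Countable := by
  induction n with
  | zero => exact hS.insert 0
  | succ n ih => exact step_countable Z ih

theorem list_mem {X : Type u} [AddCommGroup X] [Module ℝ X] (Z : ℕ → List X → X) (S : Set X)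
    (l : List X) (hl : ∀ x ∈ l, x ∈ ⋃ n, it Z S n) : ∃ n, ∀ x ∈ l, x ∈ it Z S n := by
  induction l with
  | nil => exact ⟨0, fun x hx => absurd hx (List.not_mem_nil)⟩
  | cons a l ih =>
    obtain ⟨n, hn⟩ := ih fun x hx => hl x (List.mem_cons_of_mem a hx)
    obtain ⟨n', hn'⟩ := Set.mem_iUnion.1 (hl a List.mem_cons_self)
    refine ⟨max n n', fun x hx => ?_⟩
    rcases List.mem_cons.1 hx with rfl | hx
    · exact it_mono Z S (le_max_right n n') hn'
    · exact it_mono Z S (le_max_left n n') (hn x hx)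

end E1

/-- Closing off: a countable set of points is contained in a countable `ℚ`-subspace which is closed under a given countable family of
finitary operations. PROOF. `W_0 = S ∪ {0}`, `W_{j+1} = W_j ∪ {x + y | x, y ∈ W_j} ∪ {q x | q ∈ ℚ, x ∈ W_j} ∪ {Z n l | n ∈ ℕ, l a list in W_j}`;
all countable; `W = ⋃ W_j`. (Or: take the smallest such set as an inductively defined set and show it is countable.) -/
theorem closing_off {X : Type u} [AddCommGroup X] [Module ℝ X] (S : Set X) (hS : S.Countable)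
    (Z : ℕ → List X → X) :
    ∃ W : Set X, W.Countable ∧ S ⊆ W ∧ (0 : X) ∈ W ∧ (∀ x ∈ W, ∀ y ∈ W, x + y ∈ W) ∧
      (∀ q : ℚ, ∀ x ∈ W, (q : ℝ) • x ∈ W) ∧
      ∀ n : ℕ, ∀ l : List X, (∀ x ∈ l, x ∈ W) → Z n l ∈ W := by
  refine ⟨⋃ n, E1.it Z S n, Set.countable_iUnion fun n => E1.it_countable Z hS n, ?_, ?_, ?_, ?_, ?_⟩
  · intro x hx
    exact Set.mem_iUnion.2 ⟨0, Set.mem_insert_of_mem _ hx⟩
  · exact Set.mem_iUnion.2 ⟨0, Set.mem_insert _ _⟩
  · intro x hx y hy
    obtain ⟨n, hn⟩ := Set.mem_iUnion.1 hx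
    obtain ⟨n', hn'⟩ := Set.mem_iUnion.1 hy
    refine Set.mem_iUnion.2 ⟨max n n' + 1, Or.inl (Or.inl (Or.inr ?_))⟩
    exact Set.mem_image2_of_mem (E1.it_mono Z S (le_max_left n n') hn)
      (E1.it_mono Z S (le_max_right n n') hn')
  · intro q x hx
    obtain ⟨n, hn⟩ := Set.mem_iUnion.1 hx
    refine Set.mem_iUnion.2 ⟨n + 1, Or.inl (Or.inr (Set.mem_iUnion.2 ⟨q, ?_⟩))⟩
    exact Set.mem_image_of_mem _ hn
  · intro n l hl
    obtain ⟨n', hn'⟩ := E1.list_mem Z S l hl
    refine Set.mem_iUnion.2 ⟨n' + 1, Or.inr (Set.mem_iUnion.2 ⟨n, ?_⟩)⟩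
    exact Set.mem_image_of_mem _ hn'

end PolyR126
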