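import Pool.Agent.PolyR126.Defs

set_option autoImplicit false

universe u v

namespace PolyR126

open Set Metric Filter Topology

/-- The closure of a `ℚ`-subspace is a real subspace. -/
theorem closure_ratSpan {X : Type u} [NormedAddCommGroup X] [NormedSpace ℝ X] (W : Set X)
    (h0 : (0 : X) ∈ W) (hadd : ∀ x ∈ W, ∀ y ∈ W, x + y ∈ W)
    (hq : ∀ q : ℚ, ∀ x ∈ W, (q : ℝ) • x ∈ W) :
    ∃ Y : Submodule ℝ X, (Y : Set X) = closure W := by
  refine ⟨{ carrier := closure W
            add_mem' := ?_
            zero_mem' := subset_closure h0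
            smul_mem' := ?_ }, rfl⟩
  · intro x y hx hy
    exact map_mem_closure₂ continuous_add hx hy hadd
  · intro c x hx
    have hd : c ∈ closure (Set.range ((↑) : ℚ → ℝ)) := by
      rw [Rat.denseRange_cast.closure_range]
      exact Set.mem_univ c
    refine map_mem_closure₂ (continuous_smul (M := ℝ) (X := X)) hd hx ?_
    rintro _ ⟨q, rfl⟩ y hy
    exact hq q y hy

end PolyR126
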