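import Pool.Agent.PolyR126.Defs
import Pool.Agent.PolyR126.A5
import Pool.Agent.PolyR126.B
import Pool.Agent.PolyR126.C1
import Pool.Agent.PolyR126.C2
import Pool.Agent.PolyR126.C3
import Pool.Agent.PolyR126.E1
import Pool.Agent.PolyR126.E2

set_option autoImplicit false

universe u v

namespace PolyR126

open Set Metric Filter Topology

/-- PROOF. Suppose no `w` with `‖w - x‖ < ε` has a facet. By (the contrapositive of) `fac_of_sd` choose for every such `w` a vector `z w` such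
that `‖w + t z‖ + ‖w - t z‖ ≠ 2 ‖w‖` for all `t > 0`. Apply `closing_off` to `S = {x}` and `Z n l = z (l.headD 0)` to get a countable `W ∋ x`, and
`closure_ratSpan` to get the closed subspace `Y` with `(Y : Set X) = closure W`; `Y` is complete and `HP Y` holds (`HP.submodule`). Let
`W' = {y : Y | (y : X) ∈ W}`, a countable dense subset of `Y`. By `exists_smooth` in `Y` there is `y : Y` with `‖y - x‖ < ε` which satisfies
the condition for all `w ∈ W'`, by `sd_of_dense` for all `z : Y`, so by `fac_of_sd` in `Y` there is `f : Y →L[ℝ] ℝ` with `Fac f y`. By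
`Fac.nhds` and density of `W'` there is `w ∈ W'` with `‖w - x‖ < ε` and `Fac f w` (in `Y`). Then for `z = z w ∈ W ⊆ Y` and small `t > 0`
`‖w + t z‖ + ‖w - t z‖ = f (w + t z) + f (w - t z) = 2 f w = 2 ‖w‖`, a contradiction. -/
theorem dense_facets {X : Type u} [NormedAddCommGroup X] [NormedSpace ℝ X] [CompleteSpace X]
    (hX : HP X) (x : X) (ε : ℝ) (hε : 0 < ε) :
    ∃ w : X, ‖w - x‖ < ε ∧ ∃ f : X →L[ℝ] ℝ, Fac f w := by
  by_contra hcon
  push Not at hcon
  have hz : ∀ w : X, ∃ z : X, ‖w - x‖ < ε →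
      ∀ t : ℝ, 0 < t → ‖w + t • z‖ + ‖w - t • z‖ ≠ 2 * ‖w‖ := by
    intro w
    by_cases hw : ‖w - x‖ < ε
    · by_contra h
      push Not at h
      obtain ⟨f, hf⟩ := fac_of_sd w (fun z => (h z).2)
      exact hcon w hw f hf
    · exact ⟨0, fun h => absurd h hw⟩
  choose z hz using hz
  obtain ⟨W, hWc, hSW, h0, hadd, hq, hZ⟩ :=
    closing_off {x} (Set.countable_singleton x) (fun _ l => z (l.headD 0))
  have hxW : x ∈ W := hSW rfl
  have hzW : ∀ w ∈ W, z w ∈ W := by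
    intro w hw
    have := hZ 0 [w] (by simpa using hw)
    simpa using this
  obtain ⟨Y, hY⟩ := closure_ratSpan W h0 hadd hq
  have hYc : IsClosed (Y : Set X) := by rw [hY]; exact isClosed_closure
  haveI : CompleteSpace Y := hYc.completeSpace_coe
  have hPY : HP Y := hX.submodule Y
  have hWY : ∀ w ∈ W, w ∈ Y := by
    intro w hw
    have : w ∈ (Y : Set X) := by rw [hY]; exact subset_closure hw
    exact this
  set W' : Set Y := {y | (y : X) ∈ W} with hW'
  have hW'c : W'.Countable := hWc.preimage Subtype.val_injective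
  have hW'd : Dense W' := by
    rw [Metric.dense_iff]
    intro y r hr
    have hy : (y : X) ∈ closure W := by rw [← hY]; exact y.2
    obtain ⟨w, hw, hd⟩ := Metric.mem_closure_iff.mp hy r hr
    refine ⟨⟨w, hWY w hw⟩, ?_, hw⟩
    rw [Metric.mem_ball, dist_comm]
    exact hd
  obtain ⟨y, hyx, hyW⟩ := exists_smooth hPY W' hW'c ⟨x, hWY x hxW⟩ ε hε
  obtain ⟨f, hf⟩ := fac_of_sd y (fun u => sd_of_dense hPY y W' hW'd hyW u)
  obtain ⟨r, hr, hfr⟩ := hf.nhds
  have hδ : 0 < min r (ε - ‖y - ⟨x, hWY x hxW⟩‖) := lt_min hr (by linarith)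
  obtain ⟨w, hwW, hwd⟩ : ∃ w ∈ W', dist y w < min r (ε - ‖y - ⟨x, hWY x hxW⟩‖) :=
    hW'd.exists_dist_lt y hδ
  have hwy : ‖w - y‖ < min r (ε - ‖y - ⟨x, hWY x hxW⟩‖) := by
    rw [← dist_eq_norm, dist_comm]; exact hwd
  have hfw : Fac f w := hfr w (lt_of_lt_of_le hwy (min_le_left _ _))
  have hwx : ‖(w : X) - x‖ < ε := by
    have h1 : ‖w - ⟨x, hWY x hxW⟩‖ ≤ ‖w - y‖ + ‖y - ⟨x, hWY x hxW⟩‖ := norm_sub_le_norm_sub_add_norm_sub _ _ _
    have h2 : ‖w - y‖ < ε - ‖y - ⟨x, hWY x hxW⟩‖ := lt_of_lt_of_le hwy (min_le_right _ _)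
    have h3 : ‖w - ⟨x, hWY x hxW⟩‖ = ‖(w : X) - x‖ := rfl
    rw [← h3]
    linarith
  obtain ⟨ρ, hρ, hfρ⟩ := hfw
  set u : Y := ⟨z w, hWY _ (hzW _ hwW)⟩ with hu
  have hcu : 0 < ‖u‖ + 1 := by positivity
  set t : ℝ := ρ / (2 * (‖u‖ + 1)) with ht
  have htpos : 0 < t := by positivity
  have htu : ‖t • u‖ < ρ := by
    rw [norm_smul, Real.norm_of_nonneg htpos.le, ht, div_mul_eq_mul_div, div_lt_iff₀ (by positivity)]
    nlinarith [norm_nonneg u]
  have e1 : ‖w + t • u‖ = f (w + t • u) := hfρ _ htu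
  have e2 : ‖w - t • u‖ = f (w - t • u) := by
    have := hfρ (-(t • u)) (by rwa [norm_neg])
    rwa [← sub_eq_add_neg] at this
  have e3 : f w = ‖w‖ := Fac.apply ⟨ρ, hρ, hfρ⟩
  have e4 : ‖w + t • u‖ + ‖w - t • u‖ = 2 * ‖w‖ := by
    rw [e1, e2, map_add, map_sub, ← e3]; ring
  exact hz w hwx t htpos e4

end PolyR126
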