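import Pool.Agent.PolyR126.Defs
import Pool.Agent.PolyR126.A10
import Pool.Agent.PolyR126.B

set_option autoImplicit false

universe u v

namespace PolyR126

open Set Metric Filter Topology

/-- PROOF. Let `O n = {y : Y | ∃ t, 0 < t ∧ t < 1/(n+1) ∧ ∃ f, Fac f (z + t y)}`. It is open in `Y` (the set of points with a facet is open in `X`
by `Fac.nhds`) and dense in `Y`: given `y : Y` and `ρ > 0` pick `t ∈ (0, 1/(n+1))`, `w ∈ Y` with a facet and `‖w - (z + t y)‖ < t ρ` by `hd`, and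
take `y' = (w - z)/t`. `Y` is complete, so by Baire there is `y : Y` in all `O n`. By `HPoly.pa` `‖z + t y‖ = ‖z‖ + t d` for `0 ≤ t ≤ t0`. Choose `n`
large and `t ∈ (0, 1/(n+1))` with `t < t0`, `t ‖y‖ < ε` and `Fac f w`, `w = z + t y`. For all small `|s|`: `‖w + s y‖ = f w + s f y` and also
`= ‖z‖ + (t + s) d`. So `f y = d`, and `f z = f w - t f y = ‖w‖ - t d = ‖z‖`. -/
theorem bp {X : Type u} [NormedAddCommGroup X] [NormedSpace ℝ X] [CompleteSpace X]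
    (hX : HP X) (Y : Submodule ℝ X) (hY : IsClosed (Y : Set X))
    (hd : ∀ y ∈ Y, ∀ ε : ℝ, 0 < ε → ∃ w ∈ Y, ‖w - y‖ < ε ∧ ∃ f : X →L[ℝ] ℝ, Fac f w)
    (z : X) (hz : z ∈ Y) (ε : ℝ) (hε : 0 < ε) :
    ∃ w ∈ Y, ∃ f : X →L[ℝ] ℝ, Fac f w ∧ ‖w - z‖ < ε ∧ f z = ‖z‖ := by
  have hO : IsOpen {x : X | ∃ f : X →L[ℝ] ℝ, Fac f x} := by
    rw [Metric.isOpen_iff]
    rintro x ⟨f, hf⟩
    obtain ⟨r, hr, h⟩ := hf.nhds
    exact ⟨r, hr, fun x' hx' => ⟨f, h x' (by rwa [mem_ball, dist_eq_norm] at hx')⟩⟩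
  have : CompleteSpace Y := hY.completeSpace_coe
  let O : ℕ → Set Y := fun n =>
    {y : Y | ∃ t : ℝ, (0 < t ∧ t < 1 / ((n : ℝ) + 1)) ∧ ∃ f : X →L[ℝ] ℝ, Fac f (z + t • (y : X))}
  have hOo : ∀ n, IsOpen (O n) := by
    intro n
    have h1 : O n = ⋃ t ∈ {t : ℝ | 0 < t ∧ t < 1 / ((n : ℝ) + 1)},
        (fun y : Y => z + t • (y : X)) ⁻¹' {x : X | ∃ f : X →L[ℝ] ℝ, Fac f x} := by
      ext y
      simp [O]
    rw [h1]
    exact isOpen_biUnion fun t _ => hO.preimage (by fun_prop)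
  have hOd : ∀ n, Dense (O n) := by
    intro n
    rw [Metric.dense_iff]
    intro y ρ hρ
    have hn : (0 : ℝ) < (n : ℝ) + 1 := by positivity
    obtain ⟨t, ht, ht'⟩ : ∃ t : ℝ, 0 < t ∧ t < 1 / ((n : ℝ) + 1) :=
      exists_between (by positivity)
    obtain ⟨w, hw, hwn, f, hf⟩ := hd (z + t • (y : X)) (Y.add_mem hz (Y.smul_mem t y.2)) (t * ρ)
      (by positivity)
    refine ⟨⟨t⁻¹ • (w - z), Y.smul_mem _ (Y.sub_mem hw hz)⟩, ?_, t, ⟨ht, ht'⟩, f, ?_⟩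
    · rw [mem_ball, dist_eq_norm]
      show ‖t⁻¹ • (w - z) - (y : X)‖ < ρ
      have h2 : t⁻¹ • (w - z) - (y : X) = t⁻¹ • (w - (z + t • (y : X))) := by
        rw [← sub_sub, smul_sub t⁻¹ (w - z), smul_smul, inv_mul_cancel₀ ht.ne', one_smul]
      rw [h2, norm_smul, norm_inv, Real.norm_of_nonneg ht.le, inv_mul_lt_iff₀ ht]
      exact hwn
    · show Fac f (z + t • t⁻¹ • (w - z))
      rw [smul_smul, mul_inv_cancel₀ ht.ne', one_smul, add_sub_cancel]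
      exact hf
  obtain ⟨y, hy⟩ := (dense_iInter_of_isOpen_nat hOo hOd).nonempty
  rw [mem_iInter] at hy
  obtain ⟨t0, ht0, d, hdd⟩ := HPoly.pa hX z (y : X)
  have hdd : ∀ t : ℝ, 0 ≤ t → t ≤ t0 → ‖z + t • (y : X)‖ = ‖z‖ + t * d := hdd
  have hy0 : 0 < ‖(y : X)‖ + 1 := by positivity
  obtain ⟨n, hn⟩ := exists_nat_one_div_lt (show 0 < min t0 (ε / (‖(y : X)‖ + 1)) by positivity)
  obtain ⟨t, ⟨ht, ht'⟩, f, hf⟩ := hy n
  have htt0 : t < t0 := (ht'.trans hn).trans_le (min_le_left _ _)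
  have hte : t < ε / (‖(y : X)‖ + 1) := (ht'.trans hn).trans_le (min_le_right _ _)
  have hfw : f (z + t • (y : X)) = ‖z + t • (y : X)‖ := hf.apply
  obtain ⟨r, hr, hrf⟩ := hf
  set s : ℝ := min (t0 - t) (r / (2 * (‖(y : X)‖ + 1))) with hs
  have hs0 : 0 < s := by
    rw [hs]
    exact lt_min (by linarith) (by positivity)
  have hs1 : t + s ≤ t0 := by
    have : s ≤ t0 - t := min_le_left _ _
    linarith
  have hs2 : ‖s • (y : X)‖ < r := by
    rw [norm_smul, Real.norm_of_nonneg hs0.le]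
    have h3 : s ≤ r / (2 * (‖(y : X)‖ + 1)) := min_le_right _ _
    rw [le_div_iff₀ (by positivity)] at h3
    nlinarith [norm_nonneg (y : X)]
  have e1 := hrf _ hs2
  have e2 : z + t • (y : X) + s • (y : X) = z + (t + s) • (y : X) := by
    rw [add_smul, add_assoc]
  have e3 := hdd (t + s) (by linarith) hs1
  have e4 := hdd t ht.le htt0.le
  have e5 : f (z + t • (y : X) + s • (y : X)) = f (z + t • (y : X)) + s * f (y : X) := by
    rw [map_add f (z + t • (y : X)), map_smul, smul_eq_mul]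
  rw [e5, e2, e3, hfw, e4] at e1
  have e6 : f (y : X) = d := by
    have : s * f (y : X) = s * d := by linarith
    exact mul_left_cancel₀ hs0.ne' this
  refine ⟨z + t • (y : X), Y.add_mem hz (Y.smul_mem t y.2), f, ⟨r, hr, hrf⟩, ?_, ?_⟩
  · rw [add_sub_cancel_left, norm_smul, Real.norm_of_nonneg ht.le]
    rw [lt_div_iff₀ hy0] at hte
    nlinarith [norm_nonneg (y : X)]
  · have e7 : f (z + t • (y : X)) = f z + t * f (y : X) := by
      rw [map_add, map_smul, smul_eq_mul]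
    rw [e6] at e7
    linarith

end PolyR126
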