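import Mathlib

/-!
Polyhedral Banach spaces: basic definitions (helper126, MP_a60229_an).
-/

set_option autoImplicit false

universe u v

namespace PolyR126

open Set Metric Filter Topology

/-- `q` is, on every finite-dimensional subspace, the maximum of finitely many linear functionals. -/
def HPoly {X : Type u} [AddCommGroup X] [Module ℝ X] (q : X → ℝ) : Prop :=
  ∀ F : Submodule ℝ X, FiniteDimensional ℝ F →
    ∃ Φ : Finset (F →ₗ[ℝ] ℝ), (∀ φ ∈ Φ, ∀ x : F, φ x ≤ q x) ∧ ∀ x : F, ∃ φ ∈ Φ, φ x = q x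

/-- Polyhedral space, in the words of the frozen statement. -/
def PolySpace (X : Type u) [NormedAddCommGroup X] [NormedSpace ℝ X] : Prop :=
  ∀ F : Submodule ℝ X, FiniteDimensional ℝ F →
    (Set.extremePoints ℝ (Metric.closedBall (0 : X) 1 ∩ (F : Set X))).Finite

/-- The norm of `X` is polyhedral, in terms of functionals. -/
def HP (X : Type u) [NormedAddCommGroup X] [NormedSpace ℝ X] : Prop :=
  HPoly (fun x : X => ‖x‖)

/-- `f` is the facet functional at `w`: near `w` the norm is equal to `f`. -/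
def Fac {X : Type u} [NormedAddCommGroup X] [NormedSpace ℝ X] (f : X →L[ℝ] ℝ) (w : X) : Prop :=
  ∃ r : ℝ, 0 < r ∧ ∀ u : X, ‖u‖ < r → ‖w + u‖ = f (w + u)

/-- A polyhedral Banach space with the coordinate system used in the construction. -/
structure Base (X : Type u) [NormedAddCommGroup X] [NormedSpace ℝ X] where
  e : ℕ → X
  k : ℕ → X →L[ℝ] ℝ
  R : ℕ → X →L[ℝ] X
  δ : ℕ → ℝ
  K : ℝ
  δ_pos : ∀ m, 0 < δ m
  δ_le : ∀ m, δ m ≤ 1 / 2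
  δ_lim : Tendsto δ atTop (𝓝 0)
  hk : ∀ n, ‖k n‖ ≤ K
  bi : ∀ n m, k n (e m) = if n = m then 1 else 0
  e_norm : ∀ n, ‖e n‖ = 1
  R_e : ∀ m n, m ≤ n → R m (e n) = 0
  k_R : ∀ m n, m ≤ n → ∀ x, k n (R m x) = 0
  R_id : ∀ m x, (∀ n, m ≤ n → k n x = 0) → R m x = x
  R_lim : ∀ x, Tendsto (fun m => R m x) atTop (𝓝 x)
  lower : ∀ m x, max (max ‖R m x‖ |k m x|) ((‖R m x‖ + |k m x|) / (2 - δ m)) ≤ ‖x‖
  upper : ∀ m x C, (∀ n, m < n → 2 * |k n x| ≤ C) →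
    ‖x‖ ≤ max (max (max ‖R m x‖ |k m x|) ((‖R m x‖ + |k m x|) / (2 - δ m))) C
  indep : ∃ y : ℕ → X, LinearIndependent ℝ y ∧ ∀ n m, k n (y m) = 0

/-- A symmetric family of facet points with separation and exact generation. -/
structure GoodFamily (X : Type u) [NormedAddCommGroup X] [NormedSpace ℝ X] where
  I : Type u
  P : I → X
  F : I → X →L[ℝ] ℝ
  r : I → ℝ
  c : I → ℝ
  neg : I → I
  ne : Nonempty I
  r_pos : ∀ i, 0 < r i
  c_pos : ∀ i, 0 < c i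
  norm_P : ∀ i, ‖P i‖ = 1
  fac : ∀ i u, ‖u‖ < r i → ‖P i + u‖ = 1 + F i u
  sep : ∀ i j, i ≠ j → c i ≤ ‖F i - F j‖
  neg_neg : ∀ i, neg (neg i) = i
  P_neg : ∀ i, P (neg i) = - P i
  gen : ∀ g : X →L[ℝ] ℝ, (∀ i, g (P i) ≤ 1) → ∀ x, g x ≤ ‖x‖

/-- Data of the new vertices. -/
structure Spikes (X : Type u) [NormedAddCommGroup X] [NormedSpace ℝ X] where
  I : Type u
  ne : Nonempty I
  Y : I → X
  F : I → X →L[ℝ] ℝ
  ε : I → ℝ
  neg : I → I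
  ε_pos : ∀ i, 0 < ε i
  ε_le : ∀ i, ε i ≤ 1 / 4
  norm_Y : ∀ i, ‖Y i‖ = 1 + ε i
  F_norm : ∀ i, ‖F i‖ ≤ 1
  F_Y : ∀ i, F i (Y i) = 1 + ε i
  Y_neg : ∀ i, Y (neg i) = - Y i
  excl : ∀ (g : X →L[ℝ] ℝ), ‖g‖ ≤ 1 → ∀ i j, i ≠ j → 1 < g (Y j) → g (Y i) ≤ 1 - ε i
  gen : ∀ g : X →L[ℝ] ℝ, (∀ i, g (Y i) ≤ 1) → ‖g‖ ≤ 1

/-- The new unit ball: the union of the convex hulls of the unit ball and one new vertex. -/
def Spikes.ball {X : Type u} [NormedAddCommGroup X] [NormedSpace ℝ X] (S : Spikes X) : Set X :=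
  {x | ∃ i, ∃ μ : ℝ, 0 ≤ μ ∧ μ ≤ 1 ∧ ‖x - μ • S.Y i‖ ≤ 1 - μ}

end PolyR126
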