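import Pool.Agent.PolyR126.Defs

set_option autoImplicit false

universe u v

namespace PolyR126

open Set Metric Filter Topology

/-- PROOF. Let `m = #L` and `T : X → (L → ℝ)`, `T y = (h y - f y)_f`, linear. If no such `y` exists, the convex set `T (closedBall 0 1)` is disjoint from
the nonempty open convex set `U = {v | ∀ f, ε' < v f}`. Separate (`geometric_hahn_banach_open`): a linear functional `λ` on `L → ℝ`, given by
coefficients `λ_f`, and a real `s` with `λ (T b) ≤ s < λ v` (after a sign choice) for `b` in the ball and `v ∈ U`. Since `U + [0,∞)^m ⊆ U`, all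
`λ_f ≥ 0`, and not all are `0`; normalise to `∑ λ_f = 1`. Letting `v → (ε', …, ε')` we get `s ≤ ε'`. So `F = ∑ λ_f f ∈ convexHull L` satisfies
`(h - F) b ≤ ε'` for all `‖b‖ ≤ 1`, so `‖h - F‖ ≤ max ε' 0`; together with `ε ≤ ‖h - F‖`, `ε' < ε` and `0 < ε` a contradiction. -/
theorem finite_sep {X : Type u} [NormedAddCommGroup X] [NormedSpace ℝ X] (h : X →L[ℝ] ℝ)
    (L : Finset (X →L[ℝ] ℝ)) (ε ε' : ℝ) (hε : 0 < ε) (hε' : ε' < ε)
    (hd : ∀ F ∈ convexHull ℝ (L : Set (X →L[ℝ] ℝ)), ε ≤ ‖h - F‖) :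
    ∃ y : X, ‖y‖ ≤ 1 ∧ ∀ f ∈ L, ε' ≤ h y - f y := by
  classical
  by_contra hcon
  push Not at hcon
  -- the linear map
  let T : X →ₗ[ℝ] (L → ℝ) := LinearMap.pi fun f => ((h - f.1 : X →L[ℝ] ℝ) : X →ₗ[ℝ] ℝ)
  have hT : ∀ y f, T y f = h y - f.1 y := fun y f => rfl
  have hUo : IsOpen {v : L → ℝ | ∀ f, ε' < v f} := by
    simp only [Set.setOf_forall]
    exact isOpen_iInter_of_finite fun f => isOpen_lt continuous_const (continuous_apply f)
  have hUc : Convex ℝ {v : L → ℝ | ∀ f, ε' < v f} := by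
    intro v hv w hw a b ha hb hab f
    have h1 : ε' < v f := hv f
    have h2 : ε' < w f := hw f
    show ε' < a * v f + b * w f
    rcases eq_or_lt_of_le ha with h0 | h0
    · have : b = 1 := by linarith
      subst h0; subst this; linarith
    · nlinarith [mul_lt_mul_of_pos_left h1 h0, mul_le_mul_of_nonneg_left h2.le hb]
  have hBc : Convex ℝ (T '' closedBall (0 : X) 1) := (convex_closedBall 0 1).linear_image T
  have hdisj : Disjoint {v : L → ℝ | ∀ f, ε' < v f} (T '' closedBall (0 : X) 1) := by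
    rw [Set.disjoint_left]
    rintro v hv ⟨y, hy, rfl⟩
    obtain ⟨f, hf, hlt⟩ := hcon y (by simpa using hy)
    have : ε' < T y ⟨f, hf⟩ := hv ⟨f, hf⟩
    rw [hT] at this
    linarith
  obtain ⟨g, u, hg1, hg2⟩ := geometric_hahn_banach_open hUc hUo hBc hdisj
  have hgs : ∀ v : L → ℝ, g v = ∑ f, v f * g (Pi.single f 1) := by
    intro v
    conv_lhs => rw [← Finset.univ_sum_single v]
    rw [map_sum]
    refine Finset.sum_congr rfl fun f _ => ?_
    have : Pi.single f (v f) = v f • (Pi.single f 1 : L → ℝ) := by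
      rw [← Pi.single_smul, smul_eq_mul, mul_one]
    rw [this, map_smul, smul_eq_mul]
  have hneg : ∀ f, g (Pi.single f 1) ≤ 0 := by
    intro f
    by_contra hpos
    push Not at hpos
    -- go far in the direction f
    obtain ⟨t, ht⟩ : ∃ t : ℝ, 0 ≤ t ∧ u ≤ g (fun _ => ε' + 1) + t * g (Pi.single f 1) := by
      refine ⟨|u - g (fun _ => ε' + 1)| / g (Pi.single f 1), by positivity, ?_⟩
      rw [div_mul_cancel₀ _ hpos.ne']
      linarith [le_abs_self (u - g (fun _ => ε' + 1))]
    have hmem : (fun _ => ε' + 1 : L → ℝ) + t • (Pi.single f 1 : L → ℝ) ∈ {v : L → ℝ | ∀ f, ε' < v f} := by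
      intro f'
      have h1 : 0 ≤ (Pi.single f 1 : L → ℝ) f' := by
        by_cases hff : f' = f
        · subst hff; simp
        · rw [Pi.single_eq_of_ne hff]
      have h2 : 0 ≤ t * (Pi.single f 1 : L → ℝ) f' := mul_nonneg ht.1 h1
      show ε' < (ε' + 1) + t * (Pi.single f 1 : L → ℝ) f'
      linarith
    have := hg1 _ hmem
    rw [map_add, map_smul, smul_eq_mul] at this
    linarith [ht.2]
  obtain ⟨S, hS⟩ : ∃ S : ℝ, S = ∑ f : L, -g (Pi.single f 1) := ⟨_, rfl⟩
  have hS0 : 0 ≤ S := by rw [hS]; exact Finset.sum_nonneg fun f _ => by linarith [hneg f]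
  have hconst : ∀ c : ℝ, g (fun _ => c) = -(c * S) := by
    intro c
    rw [hgs, hS, Finset.sum_neg_distrib, mul_neg, neg_neg, Finset.mul_sum]
  have hc : ∀ c : ℝ, ε' < c → -u < c * S := by
    intro c hcε
    have := hg1 (fun _ => c) (fun _ => hcε)
    rw [hconst] at this
    linarith
  have hu0 : u ≤ 0 := by
    have := hg2 (T 0) ⟨0, by simp, rfl⟩
    rwa [map_zero, map_zero] at this
  have hSpos : 0 < S := by
    rcases eq_or_lt_of_le hS0 with h0 | h0
    · have := hc (ε' + 1) (by linarith)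
      rw [← h0] at this
      linarith
    · exact h0
  have hlim : -u ≤ ε' * S := by
    refine le_of_forall_pos_lt_add fun δ hδ => ?_
    have := hc (ε' + δ / S) (by linarith [div_pos hδ hSpos])
    rwa [add_mul, div_mul_cancel₀ _ hSpos.ne'] at this
  obtain ⟨F, hF⟩ : ∃ F : X →L[ℝ] ℝ, F = ∑ f : L, (-g (Pi.single f 1) / S) • f.1 := ⟨_, rfl⟩
  have hw1 : ∑ f : L, (-g (Pi.single f 1) / S) = 1 := by
    rw [← Finset.sum_div, ← hS, div_self hSpos.ne']
  have hFmem : F ∈ convexHull ℝ (L : Set (X →L[ℝ] ℝ)) := by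
    rw [hF]
    refine (convex_convexHull ℝ _).sum_mem (fun f _ => div_nonneg (by linarith [hneg f]) hS0) hw1 ?_
    intro f _
    exact subset_convexHull ℝ _ f.2
  have hFb : ∀ b : X, ‖b‖ ≤ 1 → (h - F) b ≤ ε' := by
    intro b hb
    have h1 := hg2 (T b) ⟨b, by simpa using hb, rfl⟩
    rw [hgs] at h1
    have h2 : (h - F) b = (∑ f : L, T b f * (-g (Pi.single f 1))) / S := by
      rw [ContinuousLinearMap.sub_apply, hF, ContinuousLinearMap.sum_apply]
      have h3 : h b = ∑ f : L, (-g (Pi.single f 1) / S) * h b := by rw [← Finset.sum_mul, hw1, one_mul]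
      rw [h3, ← Finset.sum_sub_distrib, Finset.sum_div]
      refine Finset.sum_congr rfl fun f _ => ?_
      rw [ContinuousLinearMap.smul_apply, smul_eq_mul, hT]
      ring
    rw [h2, div_le_iff₀ hSpos]
    have h4 : ∑ f : L, T b f * (-g (Pi.single f 1)) = -∑ f : L, T b f * g (Pi.single f 1) := by
      rw [← Finset.sum_neg_distrib]
      exact Finset.sum_congr rfl fun f _ => by ring
    rw [h4]
    linarith
  have hε'0 : 0 ≤ ε' := by simpa using hFb 0 (by simp)
  have hnorm : ‖h - F‖ ≤ ε' := by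
    refine ContinuousLinearMap.opNorm_le_of_unit_norm hε'0 fun b hb => ?_
    rw [Real.norm_eq_abs, abs_le]
    refine ⟨?_, hFb b hb.le⟩
    have := hFb (-b) (by rw [norm_neg]; exact hb.le)
    rw [map_neg] at this
    linarith
  linarith [hd F hFmem]

end PolyR126
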