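import Pool.Agent.PolyR126.Defs

set_option autoImplicit false

universe u v

namespace PolyR126

open Set Metric Filter Topology

private theorem simons_pick {X : Type u} [NormedAddCommGroup X] [NormedSpace ℝ X]
    (Φ : X → ℝ) (hΦ0 : ∀ s, 0 ≤ Φ s) (K : Set X) (hne : K.Nonempty) (c ε : ℝ) (hε : 0 < ε)
    (s : X) : ∃ z ∈ K, ∀ w ∈ K, Φ (s + c • z) ≤ Φ (s + c • w) + ε := by
  have hb : BddBelow ((fun w => Φ (s + c • w)) '' K) := by
    refine ⟨0, ?_⟩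
    rintro _ ⟨w, _, rfl⟩
    exact hΦ0 _
  have hn : ((fun w => Φ (s + c • w)) '' K).Nonempty := hne.image _
  obtain ⟨_, ⟨z, hz, rfl⟩, hlt⟩ := Real.lt_sInf_add_pos hn hε
  refine ⟨z, hz, fun w hw => ?_⟩
  have h1 := csInf_le hb ⟨w, hw, rfl⟩
  simp only at h1 hlt
  linarith

private theorem simons_mem {X : Type u} [NormedAddCommGroup X] [NormedSpace ℝ X] (C : Set X)
    (hC : Convex ℝ C) (z : ℕ → X) (hz : ∀ i, z i ∈ C) (j : ℕ) : ∀ w ∈ C,
    (∑ i ∈ Finset.range j, ((1 / 2 : ℝ) ^ (i + 1)) • z i) + ((1 / 2 : ℝ) ^ j) • w ∈ C := by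
  induction j with
  | zero => intro w hw; simpa using hw
  | succ j ih =>
    intro w hw
    have hw' : (1 / 2 : ℝ) • z j + (1 / 2 : ℝ) • w ∈ C :=
      hC (hz j) hw (by norm_num) (by norm_num) (by norm_num)
    have h := ih _ hw'
    convert h using 1
    rw [Finset.sum_range_succ, smul_add, smul_smul, smul_smul, ← pow_succ, add_assoc]

/-- PROOF. Choose recursively `z n ∈ K n` with, for `s_n = ∑_{i<n} 2^{-(i+1)} z_i`,
`Φ (s_n + 2^{-n} z_n) ≤ inf_{z ∈ K n} Φ (s_n + 2^{-n} z) + δ 4^{-n}` (the infimum exists since `Φ ≥ 0`). The series converges absolutely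
(`‖z_i‖ ≤ 1`) to some `s`, and `s = s_n + 2^{-n} ζ_n` with `ζ_n = ∑_{i ≥ n} 2^{-(i-n+1)} z_i ∈ K n` (an infinite convex combination of points of
the closed convex set `K n`, as `z_i ∈ K i ⊆ K n`; e.g. the partial sums divided by `1 - 2^{-j}` are in `K n` and converge to `ζ_n`).
Finally `2 s_{n+1} - s_n = s_n + 2^{-n} z_n`. -/
theorem simons_seq {X : Type u} [NormedAddCommGroup X] [NormedSpace ℝ X] [CompleteSpace X]
    (Φ : X → ℝ) (hΦ0 : ∀ s, 0 ≤ Φ s) (K : ℕ → Set X)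
    (hne : ∀ n, (K n).Nonempty) (hcl : ∀ n, IsClosed (K n)) (hconv : ∀ n, Convex ℝ (K n))
    (hanti : Antitone K) (hball : ∀ n, K n ⊆ closedBall (0 : X) 1) (δ : ℝ) (hδ : 0 < δ) :
    ∃ (z : ℕ → X) (s : X), (∀ n, z n ∈ K n) ∧
      HasSum (fun i : ℕ => ((1 / 2 : ℝ) ^ (i + 1)) • z i) s ∧
      ∀ n : ℕ, Φ ((2 : ℝ) • (∑ i ∈ Finset.range (n + 1), ((1 / 2 : ℝ) ^ (i + 1)) • z i) -
        ∑ i ∈ Finset.range n, ((1 / 2 : ℝ) ^ (i + 1)) • z i) ≤ Φ s + δ * (1 / 4 : ℝ) ^ n := by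
  have hpick : ∀ (n : ℕ) (t : X), ∃ z ∈ K n, ∀ w ∈ K n,
      Φ (t + ((1 / 2 : ℝ) ^ n) • z) ≤ Φ (t + ((1 / 2 : ℝ) ^ n) • w) + δ * (1 / 4 : ℝ) ^ n :=
    fun n t => simons_pick Φ hΦ0 (K n) (hne n) _ _ (by positivity) t
  choose f hfK hf using hpick
  let S : ℕ → X := fun n => Nat.rec (0 : X) (fun n t => t + ((1 / 2 : ℝ) ^ (n + 1)) • f n t) n
  have hS0 : S 0 = 0 := rfl
  have hS1 : ∀ n, S (n + 1) = S n + ((1 / 2 : ℝ) ^ (n + 1)) • f n (S n) := fun n => rfl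
  set z : ℕ → X := fun n => f n (S n) with hz
  have hzK : ∀ n, z n ∈ K n := fun n => hfK n (S n)
  have hSs : ∀ n, S n = ∑ i ∈ Finset.range n, ((1 / 2 : ℝ) ^ (i + 1)) • z i := by
    intro n
    induction n with
    | zero => simp [hS0]
    | succ n ih => rw [Finset.sum_range_succ, ← ih, hS1]
  have hnorm : ∀ i, ‖((1 / 2 : ℝ) ^ (i + 1)) • z i‖ ≤ (1 / 2 : ℝ) ^ (i + 1) := by
    intro i
    have h1 : ‖z i‖ ≤ 1 := by simpa using hball i (hzK i)
    rw [norm_smul, norm_pow, Real.norm_of_nonneg (by norm_num : (0 : ℝ) ≤ 1 / 2)]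
    calc (1 / 2 : ℝ) ^ (i + 1) * ‖z i‖ ≤ (1 / 2 : ℝ) ^ (i + 1) * 1 := by gcongr
      _ = _ := mul_one _
  have hsum : Summable (fun i : ℕ => ((1 / 2 : ℝ) ^ (i + 1)) • z i) :=
    Summable.of_norm_bounded ((summable_nat_add_iff 1).2 (summable_geometric_of_lt_one
      (by norm_num) (by norm_num))) hnorm
  refine ⟨z, ∑' i, ((1 / 2 : ℝ) ^ (i + 1)) • z i, hzK, hsum.hasSum, ?_⟩
  set s : X := ∑' i, ((1 / 2 : ℝ) ^ (i + 1)) • z i with hs
  intro n
  have hlim : Tendsto S atTop (𝓝 s) := by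
    have := hsum.hasSum.tendsto_sum_nat
    refine this.congr fun n => (hSs n).symm
  have hζ : ((2 : ℝ) ^ n) • (s - S n) ∈ K n := by
    have hshift : ∀ j, ∑ i ∈ Finset.range j, ((1 / 2 : ℝ) ^ (i + 1)) • z (n + i) =
        ((2 : ℝ) ^ n) • (S (n + j) - S n) := by
      intro j
      rw [hSs (n + j), hSs n, Finset.sum_range_add_sub_sum_range]
      rw [Finset.smul_sum]
      refine Finset.sum_congr rfl fun i _ => ?_
      rw [smul_smul]
      congr 1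
      have e : (2 : ℝ) ^ n * (1 / 2) ^ n = 1 := by rw [← mul_pow]; norm_num
      calc (1 / 2 : ℝ) ^ (i + 1) = 1 * (1 / 2 : ℝ) ^ (i + 1) := (one_mul _).symm
        _ = ((2 : ℝ) ^ n * (1 / 2) ^ n) * (1 / 2 : ℝ) ^ (i + 1) := by rw [e]
        _ = 2 ^ n * (1 / 2) ^ (n + i + 1) := by ring
    have hmem : ∀ j, ((2 : ℝ) ^ n) • (S (n + j) - S n) + ((1 / 2 : ℝ) ^ j) • z n ∈ K n := by
      intro j
      rw [← hshift]
      exact simons_mem (K n) (hconv n) (fun i => z (n + i))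
        (fun i => hanti (Nat.le_add_right n i) (hzK (n + i))) j _ (hzK n)
    have ht : Tendsto (fun j => ((2 : ℝ) ^ n) • (S (n + j) - S n) + ((1 / 2 : ℝ) ^ j) • z n) atTop
        (𝓝 (((2 : ℝ) ^ n) • (s - S n) + (0 : ℝ) • z n)) := by
      refine Tendsto.add ?_ ?_
      · refine Tendsto.const_smul ?_ _
        refine Tendsto.sub_const ?_ _
        exact hlim.comp (tendsto_atTop_mono (fun j => Nat.le_add_left j n) tendsto_id)
      · exact (tendsto_pow_atTop_nhds_zero_of_lt_one (by norm_num) (by norm_num)).smul_const _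
    rw [zero_smul, add_zero] at ht
    exact (hcl n).mem_of_tendsto ht (Eventually.of_forall hmem)
  have hmain := hf n (S n) _ hζ
  have e1 : S n + ((1 / 2 : ℝ) ^ n) • ((2 : ℝ) ^ n) • (s - S n) = s := by
    rw [smul_smul, ← mul_pow]
    norm_num
  rw [e1] at hmain
  have e2 : (2 : ℝ) • (∑ i ∈ Finset.range (n + 1), ((1 / 2 : ℝ) ^ (i + 1)) • z i) -
        ∑ i ∈ Finset.range n, ((1 / 2 : ℝ) ^ (i + 1)) • z i =
      S n + ((1 / 2 : ℝ) ^ n) • f n (S n) := by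
    rw [← hSs, ← hSs, hS1, smul_add, smul_smul, pow_succ, two_smul]
    rw [show (2 : ℝ) * ((1 / 2) ^ n * (1 / 2)) = (1 / 2) ^ n by ring]
    abel
  rw [e2]
  exact hmain

end PolyR126
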