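import Pool.Agent.PolyR126.Defs

set_option autoImplicit false

universe u v

namespace PolyR126

open Set Metric Filter Topology

/-- PROOF. Put `t n = 2^n D n`. `hstep` times `2^n`: `t n - t (n+1) ≤ δ 2^{-n}`, so `t n ≥ t 0 - 2 δ ≥ -A - 2 δ`. For `n ≥ k`, `hD` gives
`D n - D (n+1) = 2^{-(n+1)} c n ≤ -ε 2^{-(n+1)}`; sum over `n ≥ k` (`D → 0`): `D k ≤ -ε 2^{-k}`, so `t k ≤ -ε`. (For instance show that
`D n + ε 2^{-n}` is nondecreasing for `n ≥ k` and tends to `0`.) -/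
theorem simons_real (D c : ℕ → ℝ) (ε δ A : ℝ) (k : ℕ) (hδ : 0 ≤ δ)
    (hD : ∀ n, D (n + 1) = D n - (1 / 2 : ℝ) ^ (n + 1) * c n)
    (hlim : Tendsto D atTop (𝓝 0)) (h0 : -A ≤ D 0)
    (hstep : ∀ n, D n - 2 * D (n + 1) ≤ δ * (1 / 4 : ℝ) ^ n)
    (hc : ∀ n, k ≤ n → c n ≤ -ε) : ε ≤ A + 2 * δ := by
  have h1 : ∀ n, D 0 - δ * (2 - 2 * (1 / 2 : ℝ) ^ n) ≤ 2 ^ n * D n := by
    intro n
    induction n with
    | zero => simp
    | succ n ih =>
      have h2 := mul_le_mul_of_nonneg_left (hstep n) (show (0 : ℝ) ≤ 2 ^ n by positivity)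
      have h3 : (2 : ℝ) ^ n * (δ * (1 / 4) ^ n) = δ * (1 / 2) ^ n := by
        have : (1 / 4 : ℝ) ^ n = (1 / 2) ^ n * (1 / 2) ^ n := by
          rw [← mul_pow]
          norm_num
        rw [this]
        have h4 : (2 : ℝ) ^ n * (1 / 2) ^ n = 1 := by
          rw [← mul_pow]
          norm_num
        calc (2 : ℝ) ^ n * (δ * ((1 / 2) ^ n * (1 / 2) ^ n)) =
            (2 ^ n * (1 / 2) ^ n) * (δ * (1 / 2) ^ n) := by ring
          _ = _ := by rw [h4, one_mul]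
      rw [h3] at h2
      have h5 : (2 : ℝ) ^ (n + 1) * D (n + 1) = 2 ^ n * D n - 2 ^ n * (D n - 2 * D (n + 1)) := by
        rw [pow_succ]
        ring
      rw [h5, pow_succ]
      linarith
  have h2 : -A - 2 * δ ≤ 2 ^ k * D k := by
    have h3 := h1 k
    have h4 : 0 ≤ δ * (1 / 2 : ℝ) ^ k := by positivity
    linarith
  have h3 : ∀ n, D (k + n) + ε * (1 / 2 : ℝ) ^ (k + n) ≤ 0 := by
    have hmono : Monotone fun n : ℕ => D (k + n) + ε * (1 / 2 : ℝ) ^ (k + n) := by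
      apply monotone_nat_of_le_succ
      intro n
      have h4 := hD (k + n)
      have h5 := mul_le_mul_of_nonneg_left (hc (k + n) (Nat.le_add_right k n))
        (show (0 : ℝ) ≤ (1 / 2 : ℝ) ^ (k + n + 1) by positivity)
      have h6 : k + (n + 1) = k + n + 1 := rfl
      rw [h6, h4]
      have h7 : (1 / 2 : ℝ) ^ (k + n) = 2 * (1 / 2 : ℝ) ^ (k + n + 1) := by
        rw [pow_succ]
        ring
      rw [h7]
      linarith
    have hlim2 : Tendsto (fun n : ℕ => D (k + n) + ε * (1 / 2 : ℝ) ^ (k + n)) atTop (𝓝 0) := by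
      have e1 : Tendsto (fun n : ℕ => k + n) atTop atTop :=
        tendsto_atTop_mono (fun n => Nat.le_add_left n k) tendsto_id
      have e2 := hlim.comp e1
      have e3 := ((tendsto_pow_atTop_nhds_zero_of_lt_one (r := (1 / 2 : ℝ)) (by norm_num)
        (by norm_num)).comp e1).const_mul ε
      have e4 := e2.add e3
      simpa using e4
    intro n
    exact hmono.ge_of_tendsto hlim2 n
  have h4 := h3 0
  rw [Nat.add_zero] at h4
  have h5 := mul_le_mul_of_nonneg_left h4 (show (0 : ℝ) ≤ 2 ^ k by positivity)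
  have h6 : (2 : ℝ) ^ k * (D k + ε * (1 / 2) ^ k) = 2 ^ k * D k + ε := by
    have h7 : (2 : ℝ) ^ k * (1 / 2) ^ k = 1 := by
      rw [← mul_pow]
      norm_num
    calc (2 : ℝ) ^ k * (D k + ε * (1 / 2) ^ k) = 2 ^ k * D k + ε * (2 ^ k * (1 / 2) ^ k) := by ring
      _ = _ := by rw [h7, mul_one]
  rw [h6, mul_zero] at h5
  linarith

end PolyR126
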