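import Pool.Agent.PolyR126.Defs
import Pool.Agent.PolyR126.F2
import Pool.Agent.PolyR126.F3

set_option autoImplicit false

universe u v

namespace PolyR126

open Set Metric Filter Topology

/-- PROOF. It is enough to show `ε ≤ Λ τ + 2 δ` for every `δ > 0`. Let `K n` be the closed convex hull of `{y i | n ≤ i}` (in the closed unit ball and
in `Y`) and `Φ s = ‖Λ x0 + s‖ - h (Λ x0 + s) ≥ 0`. Take `z, s` from `simons_seq`. `‖s‖ ≤ 1`, `s ∈ Y`. By `hbd` take `k` with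
`f k (Λ x0 + s) = ‖Λ x0 + s‖`; write `f = f k`, `s_n = ∑_{i<n} 2^{-(i+1)} z_i`. `Φ v ≥ (f - h)(Λ x0 + v)` for all `v`, with equality at `v = s`, so
`(f - h)(2 s_{n+1} - s_n - s) ≤ Φ (2 s_{n+1} - s_n) - Φ s ≤ δ 4^{-n}`. Apply `simons_real` with `D n = (f - h)(s - s_n)`, `c n = (f - h)(z n)`, `A = Λ τ`:
`D n - 2 D (n+1) = (f - h)(2 s_{n+1} - s_n - s)`; `D 0 = (f - h) s = Φ s - Λ (f x0 - h x0) ≥ -Λ τ` since `f x0 ≤ 1`, `h x0 ≥ 1 - τ`; for `n ≥ k`
`hsep` gives `(h - f) ≥ ε` on `{y i | n ≤ i}`, hence on `K n ∋ z n`, so `c n ≤ -ε`. -/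
theorem simons_core {X : Type u} [NormedAddCommGroup X] [NormedSpace ℝ X] [CompleteSpace X]
    (h : X →L[ℝ] ℝ) (hh : ‖h‖ ≤ 1) (x0 : X) (hx0 : ‖x0‖ ≤ 1) (Λ τ ε : ℝ) (hΛ : 0 ≤ Λ)
    (hτ : 1 - τ ≤ h x0) (Y : Submodule ℝ X) (hY : IsClosed (Y : Set X)) (y : ℕ → X)
    (hy : ∀ i, ‖y i‖ ≤ 1) (hyY : ∀ i, y i ∈ Y) (f : ℕ → X →L[ℝ] ℝ) (hf : ∀ k, ‖f k‖ ≤ 1)
    (hsep : ∀ k i, k ≤ i → ε ≤ h (y i) - f k (y i))
    (hbd : ∀ s ∈ Y, ‖s‖ ≤ 1 → ∃ k, f k (Λ • x0 + s) = ‖Λ • x0 + s‖) : ε ≤ Λ * τ := by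
  refine le_of_forall_pos_le_add fun δ' hδ' => ?_
  set δ := δ' / 2 with hδdef
  have hδ : 0 < δ := by positivity
  let K : ℕ → Set X := fun n => closure (convexHull ℝ {x | ∃ i, n ≤ i ∧ y i = x})
  let Φ : X → ℝ := fun s => ‖Λ • x0 + s‖ - h (Λ • x0 + s)
  have hle : ∀ (g : X →L[ℝ] ℝ), ‖g‖ ≤ 1 → ∀ v, g v ≤ ‖v‖ := fun g hg v => by
    calc g v ≤ ‖g v‖ := le_abs_self _
      _ ≤ ‖g‖ * ‖v‖ := g.le_opNorm v
      _ ≤ 1 * ‖v‖ := mul_le_mul_of_nonneg_right hg (norm_nonneg _)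
      _ = ‖v‖ := one_mul _
  have hΦ0 : ∀ s, 0 ≤ Φ s := fun s => sub_nonneg.2 (hle h hh _)
  have hsub : ∀ n, {x | ∃ i, n ≤ i ∧ y i = x} ⊆ closedBall (0 : X) 1 := by
    rintro n x ⟨i, -, rfl⟩
    rw [mem_closedBall_zero_iff]
    exact hy i
  have hKball : ∀ n, K n ⊆ closedBall (0 : X) 1 := fun n =>
    closure_minimal (convexHull_min (hsub n) (convex_closedBall _ _)) isClosed_closedBall
  have hKY : ∀ n, K n ⊆ (Y : Set X) := fun n =>
    closure_minimal (convexHull_min (by rintro x ⟨i, -, rfl⟩; exact hyY i) Y.convex) hY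
  obtain ⟨z, s, hz, hsum, hstep⟩ := simons_seq Φ hΦ0 K
    (fun n => ⟨y n, subset_closure (subset_convexHull ℝ _ ⟨n, le_rfl, rfl⟩)⟩)
    (fun n => isClosed_closure) (fun n => (convex_convexHull ℝ _).closure)
    (fun m n hmn => closure_mono (convexHull_mono (by
      rintro x ⟨i, hi, rfl⟩; exact ⟨i, hmn.trans hi, rfl⟩)))
    hKball δ hδ
  set S : ℕ → X := fun n => ∑ i ∈ Finset.range n, ((1 / 2 : ℝ) ^ (i + 1)) • z i with hS
  have hSlim : Tendsto S atTop (𝓝 s) := hsum.tendsto_sum_nat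
  have hgeo : ∀ n : ℕ, ∑ i ∈ Finset.range n, ((1 / 2 : ℝ) ^ (i + 1)) = 1 - (1 / 2 : ℝ) ^ n := by
    intro n
    induction n with
    | zero => simp
    | succ n ih => rw [Finset.sum_range_succ, ih]; ring
  have hSball : ∀ n, ‖S n‖ ≤ 1 := by
    intro n
    calc ‖S n‖ ≤ ∑ i ∈ Finset.range n, ‖((1 / 2 : ℝ) ^ (i + 1)) • z i‖ := norm_sum_le _ _
      _ ≤ ∑ i ∈ Finset.range n, ((1 / 2 : ℝ) ^ (i + 1)) := by
          refine Finset.sum_le_sum fun i _ => ?_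
          rw [norm_smul, Real.norm_of_nonneg (by positivity)]
          have h1 : ‖z i‖ ≤ 1 := mem_closedBall_zero_iff.1 (hKball i (hz i))
          have h2 : (0 : ℝ) ≤ (1 / 2 : ℝ) ^ (i + 1) := by positivity
          nlinarith
      _ = 1 - (1 / 2 : ℝ) ^ n := hgeo n
      _ ≤ 1 := by
          have : (0 : ℝ) ≤ (1 / 2 : ℝ) ^ n := by positivity
          linarith
  have hs1 : ‖s‖ ≤ 1 := le_of_tendsto (hSlim.norm) (Eventually.of_forall hSball)
  have hSY : ∀ n, S n ∈ (Y : Set X) := fun n =>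
    Y.sum_mem fun i _ => Y.smul_mem _ (hKY i (hz i))
  have hsY : s ∈ Y := hY.mem_of_tendsto hSlim (Eventually.of_forall hSY)
  obtain ⟨k, hk⟩ := hbd s hsY hs1
  have hΦge : ∀ v, f k (Λ • x0 + v) - h (Λ • x0 + v) ≤ Φ v := fun v =>
    sub_le_sub_right (hle (f k) (hf k) _) _
  have hΦs : Φ s = f k (Λ • x0 + s) - h (Λ • x0 + s) := by
    simp only [Φ]
    rw [hk]
  have key := simons_real (fun n => (f k - h) (s - S n)) (fun n => (f k - h) (z n)) ε δ (Λ * τ) k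
    hδ.le ?_ ?_ ?_ ?_ ?_
  · have : 2 * δ = δ' := by rw [hδdef]; ring
    rw [this] at key
    exact key
  · intro n
    have h1 : S (n + 1) = S n + ((1 / 2 : ℝ) ^ (n + 1)) • z n := Finset.sum_range_succ _ _
    simp only [h1, map_sub, map_add, map_smul, smul_eq_mul]
    ring
  · have h1 : Tendsto (fun n => s - S n) atTop (𝓝 (s - s)) := tendsto_const_nhds.sub hSlim
    rw [sub_self] at h1
    have h2 := ((f k - h).continuous.tendsto 0).comp h1
    rw [map_zero] at h2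
    exact h2
  · have h1 : S 0 = 0 := Finset.sum_range_zero _
    have h2 := hΦ0 s
    rw [hΦs] at h2
    simp only [h1, sub_zero, ContinuousLinearMap.sub_apply]
    have h3 : f k x0 ≤ 1 := (hle (f k) (hf k) x0).trans hx0
    simp only [map_add, map_smul, smul_eq_mul] at h2
    nlinarith
  · intro n
    have h1 := hstep n
    have h2 := hΦge ((2 : ℝ) • (∑ i ∈ Finset.range (n + 1), ((1 / 2 : ℝ) ^ (i + 1)) • z i) -
        ∑ i ∈ Finset.range n, ((1 / 2 : ℝ) ^ (i + 1)) • z i)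
    have h3 := h2.trans h1
    rw [hΦs] at h3
    change (f k) (Λ • x0 + ((2 : ℝ) • S (n + 1) - S n)) - h (Λ • x0 + ((2 : ℝ) • S (n + 1) - S n)) ≤
      f k (Λ • x0 + s) - h (Λ • x0 + s) + δ * (1 / 4 : ℝ) ^ n at h3
    simp only [map_add, map_sub, map_smul, smul_eq_mul, ContinuousLinearMap.sub_apply] at h3 ⊢
    linarith
  · intro n hn
    have h1 : K n ⊆ {x | ε ≤ h x - f k x} := by
      refine closure_minimal (convexHull_min ?_ ?_) ?_
      · rintro x ⟨i, hi, rfl⟩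
        exact hsep k i (hn.trans hi)
      · have := convex_halfSpace_ge (h - f k).toLinearMap.isLinear ε
        exact this
      · exact isClosed_le continuous_const (h.continuous.sub (f k).continuous)
    have h2 : ε ≤ h (z n) - f k (z n) := h1 (hz n)
    simp only [ContinuousLinearMap.sub_apply]
    linarith

end PolyR126
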