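import Pool.Agent.PolyR126.Defs
import Pool.Agent.PolyR126.B
import Pool.Agent.PolyR126.C4
import Pool.Agent.PolyR126.D1
import Pool.Agent.PolyR126.E1
import Pool.Agent.PolyR126.E2
import Pool.Agent.PolyR126.F1
import Pool.Agent.PolyR126.F4

set_option autoImplicit false

universe u v

namespace PolyR126

open Set Metric Filter Topology

namespace F5

open Classical in
/-- the facet functional, if there is one -/
private noncomputable def fac {X : Type u} [NormedAddCommGroup X] [NormedSpace ℝ X] (w : X) : X →L[ℝ] ℝ :=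
  if h : ∃ f : X →L[ℝ] ℝ, Fac f w then Classical.choose h else 0

private lemma fac_spec {X : Type u} [NormedAddCommGroup X] [NormedSpace ℝ X] {w : X}
    (h : ∃ f : X →L[ℝ] ℝ, Fac f w) : Fac (fac w) w := by
  unfold fac
  rw [dif_pos h]
  exact Classical.choose_spec h

private lemma exists_near {X : Type u} [NormedAddCommGroup X] [NormedSpace ℝ X] (h : X →L[ℝ] ℝ)
    (hh : ‖h‖ = 1) (τ : ℝ) (hτ : 0 < τ) : ∃ x : X, ‖x‖ ≤ 1 ∧ 1 - τ ≤ h x := by
  obtain ⟨x, hx, hx2⟩ := h.exists_lt_apply_of_lt_opNorm (show 1 - τ < ‖h‖ by rw [hh]; linarith)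
  rw [Real.norm_eq_abs] at hx2
  rcases le_or_gt 0 (h x) with h0 | h0
  · rw [abs_of_nonneg h0] at hx2
    exact ⟨x, hx.le, hx2.le⟩
  · rw [abs_of_neg h0] at hx2
    exact ⟨-x, by rw [norm_neg]; exact hx.le, by rw [map_neg]; exact hx2.le⟩

private lemma exists_yy {X : Type u} [NormedAddCommGroup X] [NormedSpace ℝ X] (h : X →L[ℝ] ℝ)
    (G : X → Prop) (hG : ∀ w, G w → ∃ f : X →L[ℝ] ℝ, Fac f w) (ε : ℝ) (hε : 0 < ε)
    (hd : ∀ F ∈ convexHull ℝ {f : X →L[ℝ] ℝ | ∃ w : X, Fac f w ∧ G w}, ε ≤ ‖h - F‖) (l : List X) :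
    ∃ y : X, ‖y‖ ≤ 1 ∧ ∀ w ∈ l, G w → ε / 2 ≤ h y - fac w y := by
  classical
  obtain ⟨y, hy, hy2⟩ := finite_sep h ((l.toFinset.filter G).image fac) ε (ε / 2) hε (by linarith) (by
    intro F hF
    apply hd
    refine convexHull_mono ?_ hF
    intro f hf
    rw [Finset.coe_image] at hf
    obtain ⟨w, hw, rfl⟩ := hf
    rw [Finset.mem_coe, Finset.mem_filter] at hw
    exact ⟨w, fac_spec (hG w hw.2), hw.2⟩)
  refine ⟨y, hy, fun w hw hGw => hy2 _ ?_⟩
  rw [Finset.mem_image]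
  exact ⟨w, by rw [Finset.mem_filter, List.mem_toFinset]; exact ⟨hw, hGw⟩, rfl⟩

end F5

/-- PROOF. Let `A` be the set `{f | ∃ w, Fac f w ∧ (1-α)‖w‖ < g w}`. Suppose `h ∉ closure (convexHull A)`; so there is `ε > 0` with `ε ≤ ‖h - F‖` for all
`F ∈ convexHull A`. Let `ε' = ε/2`. `Λ = 12/α + 1`, `τ = min (α/4) (ε'/(2Λ))`; as `‖h‖ = 1` pick `x0`, `‖x0‖ ≤ 1`, `1 - τ ≤ h x0`.
CHOICES: for `w` with a facet let `fac w` be its facet. For a list `l` of points let `yy l` be a point with `‖yy l‖ ≤ 1` and `ε' ≤ h (yy l) - fac w (yy l)` for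
all `w ∈ l` with `w` having a facet and `(1-α)‖w‖ < g w` (`finite_sep` for the finite set of these `fac w`; the convex hull is a subset of
`convexHull A`). For `x` and `n` let `ap x n` be a point with a facet, `‖ap x n - x‖ < 1/(n+1)` (`dense_facets`). `closing_off` with `S = {x0}`,
`Z 0 l = yy l`, `Z (n+1) l = ap (l.headD 0) n`: a countable `W`; `closure_ratSpan`: `Y` closed subspace, `(Y : Set X) = closure W`.
The set `{w ∈ W | w has a facet and (1-α)‖w‖ < g w}` is countable; it is nonempty by the last step; enumerate it as `w 0, w 1, …` (with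
repetitions allowed), let `f i = fac (w i)`, `y i = yy [w 0, …, w i] ∈ W`. So `ε' ≤ h (y i) - f k (y i)` for `k ≤ i`. Apply `simons_core` with `ε'`, getting
`ε' ≤ Λ τ ≤ ε'/2`, a contradiction. It remains to check `hbd` (this also gives the nonemptiness): let `s ∈ Y`, `‖s‖ ≤ 1`, `p = Λ x0 + s ∈ Y`. The
points with a facet are dense in `Y` within `Y` (closure of `W` and `ap`), so by `bp` there are `v ∈ Y` and `F` with `Fac F v`, `‖v - p‖ < 1/2`,
`F p = ‖p‖`; by `Fac.nhds` and density of `W` in `Y` there is `w ∈ W`, `Fac F w`, `‖w - p‖ < 1`. Now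
`g w ≥ g p - 1 ≥ Λ g x0 - 2 ≥ Λ (1 - τ - α/4) - 2` (as `g x0 ≥ h x0 - α/4`) and `‖w‖ ≤ Λ + 2`, so `(1-α)‖w‖ < g w` because
`Λ(1 - τ - α/4) - 2 - (1-α)(Λ+2) ≥ Λ α/2 - 4 > 0`. So `w = w k` for some `k`, `f k = F` (`Fac.unique`) and `f k p = ‖p‖`. -/
theorem simons_slice {X : Type u} [NormedAddCommGroup X] [NormedSpace ℝ X] [CompleteSpace X]
    (hX : HP X) (g h : X →L[ℝ] ℝ) (hg : ‖g‖ = 1) (hh : ‖h‖ = 1) (α : ℝ) (hα : 0 < α) (hα1 : α < 1)
    (hgh : ‖h - g‖ ≤ α / 4) :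
    h ∈ closure (convexHull ℝ {f : X →L[ℝ] ℝ | ∃ w : X, Fac f w ∧ (1 - α) * ‖w‖ < g w}) := by
  classical
  by_contra hcon
  rw [Metric.mem_closure_iff] at hcon
  push Not at hcon
  obtain ⟨ε, hε, hcon⟩ := hcon
  set G : X → Prop := fun w => (∃ f : X →L[ℝ] ℝ, Fac f w) ∧ (1 - α) * ‖w‖ < g w with hGdef
  have hset : {f : X →L[ℝ] ℝ | ∃ w : X, Fac f w ∧ (1 - α) * ‖w‖ < g w} =
      {f : X →L[ℝ] ℝ | ∃ w : X, Fac f w ∧ G w} := by
    ext f
    constructor
    · rintro ⟨w, h1, h2⟩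
      exact ⟨w, h1, ⟨f, h1⟩, h2⟩
    · rintro ⟨w, h1, h2⟩
      exact ⟨w, h1, h2.2⟩
  rw [hset] at hcon
  have hd0 : ∀ F ∈ convexHull ℝ {f : X →L[ℝ] ℝ | ∃ w : X, Fac f w ∧ G w}, ε ≤ ‖h - F‖ := by
    intro F hF
    rw [← dist_eq_norm]
    exact hcon F hF
  -- constants
  have hε2 : 0 < ε / 2 := by linarith
  set Λ : ℝ := 12 / α + 1 with hΛdef
  have hΛ0 : 0 < Λ := by positivity
  have hΛα : Λ * α = 12 + α := by
    rw [hΛdef]; field_simp
  set τ : ℝ := min (α / 4) (ε / 2 / (2 * Λ)) with hτdef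
  have hτ0 : 0 < τ := lt_min (by linarith) (by positivity)
  have hτ1 : τ ≤ α / 4 := min_le_left _ _
  have hτ2 : Λ * τ ≤ ε / 2 / 2 := by
    have h1 : τ ≤ ε / 2 / (2 * Λ) := min_le_right _ _
    calc Λ * τ ≤ Λ * (ε / 2 / (2 * Λ)) := mul_le_mul_of_nonneg_left h1 hΛ0.le
      _ = ε / 2 / 2 := by field_simp
  obtain ⟨x0, hx0, hx0h⟩ := F5.exists_near h hh τ hτ0
  -- choices
  choose yy hyy1 hyy2 using F5.exists_yy h G (fun w hw => hw.1) ε hε hd0
  have hapex : ∀ (x : X) (n : ℕ), ∃ w : X, ‖w - x‖ < 1 / ((n : ℝ) + 1) ∧ ∃ f : X →L[ℝ] ℝ, Fac f w :=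
    fun x n => dense_facets hX x _ (by positivity)
  choose ap hap1 hap2 using hapex
  obtain ⟨W, hWc, hSW, hW0, hWadd, hWq, hWZ⟩ := closing_off {x0} (Set.countable_singleton x0)
    (fun n l => match n with
      | 0 => yy l
      | n + 1 => ap (l.headD 0) n)
  have hx0W : x0 ∈ W := hSW rfl
  have hyyW : ∀ l : List X, (∀ x ∈ l, x ∈ W) → yy l ∈ W := fun l hl => hWZ 0 l hl
  have hapW : ∀ x ∈ W, ∀ n, ap x n ∈ W := by
    intro x hx n
    have := hWZ (n + 1) [x] (by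
      intro y hy
      rw [List.mem_singleton] at hy
      rw [hy]; exact hx)
    simpa using this
  obtain ⟨Y, hYW⟩ := closure_ratSpan W hW0 hWadd hWq
  have hYc : IsClosed (Y : Set X) := by rw [hYW]; exact isClosed_closure
  have hWY : ∀ x ∈ W, x ∈ Y := by
    intro x hx
    have : x ∈ (Y : Set X) := by rw [hYW]; exact subset_closure hx
    exact this
  have hYd : ∀ y ∈ Y, ∀ δ : ℝ, 0 < δ → ∃ w ∈ W, ‖w - y‖ < δ := by
    intro y hy δ hδ
    have h1 : y ∈ closure W := by rw [← hYW]; exact hy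
    rw [Metric.mem_closure_iff] at h1
    obtain ⟨w, hw, hw2⟩ := h1 δ hδ
    refine ⟨w, hw, ?_⟩
    rw [← dist_eq_norm, dist_comm]
    exact hw2
  have hd : ∀ y ∈ Y, ∀ δ : ℝ, 0 < δ → ∃ w ∈ Y, ‖w - y‖ < δ ∧ ∃ f : X →L[ℝ] ℝ, Fac f w := by
    intro y hy δ hδ
    obtain ⟨w, hw, hw2⟩ := hYd y hy (δ / 2) (by linarith)
    obtain ⟨n, hn⟩ := exists_nat_one_div_lt (show 0 < δ / 2 by linarith)
    refine ⟨ap w n, hWY _ (hapW w hw n), ?_, hap2 w n⟩
    have h1 := hap1 w n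
    calc ‖ap w n - y‖ = ‖(ap w n - w) + (w - y)‖ := by congr 1; abel
      _ ≤ ‖ap w n - w‖ + ‖w - y‖ := norm_add_le _ _
      _ < δ := by linarith
  -- the main step
  have hbd : ∀ s ∈ Y, ‖s‖ ≤ 1 → ∃ w ∈ W, G w ∧ F5.fac w (Λ • x0 + s) = ‖Λ • x0 + s‖ := by
    intro s hs hs1
    have hp : Λ • x0 + s ∈ Y := Y.add_mem (Y.smul_mem _ (hWY x0 hx0W)) hs
    obtain ⟨v, hv, F, hFv, hvp, hFp⟩ := bp hX Y hYc hd (Λ • x0 + s) hp (1 / 2) (by norm_num)
    obtain ⟨r, hr, hr2⟩ := hFv.nhds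
    obtain ⟨w, hw, hwv⟩ := hYd v hv (min r (1 / 2)) (lt_min hr (by norm_num))
    have hFw : Fac F w := hr2 w (lt_of_lt_of_le hwv (min_le_left _ _))
    have hwp : ‖w - (Λ • x0 + s)‖ < 1 := by
      have h1 : ‖w - v‖ < 1 / 2 := lt_of_lt_of_le hwv (min_le_right _ _)
      calc ‖w - (Λ • x0 + s)‖ = ‖(w - v) + (v - (Λ • x0 + s))‖ := by congr 1; abel
        _ ≤ ‖w - v‖ + ‖v - (Λ • x0 + s)‖ := norm_add_le _ _
        _ < 1 := by linarith
    have hgle : ∀ x : X, |g x| ≤ ‖x‖ := by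
      intro x
      have := g.le_opNorm x
      rw [hg, one_mul, Real.norm_eq_abs] at this
      exact this
    have hgx0 : 1 - τ - α / 4 ≤ g x0 := by
      have h1 := (h - g).le_opNorm x0
      rw [Real.norm_eq_abs] at h1
      have h2 : ‖h - g‖ * ‖x0‖ ≤ α / 4 * 1 :=
        mul_le_mul hgh hx0 (norm_nonneg _) (by linarith)
      have h3 : |h x0 - g x0| ≤ α / 4 := by
        have : (h - g) x0 = h x0 - g x0 := rfl
        rw [this] at h1
        linarith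
      have h4 := (abs_le.1 h3).2
      linarith
    have hnx : ‖Λ • x0 + s‖ ≤ Λ + 1 := by
      calc ‖Λ • x0 + s‖ ≤ ‖Λ • x0‖ + ‖s‖ := norm_add_le _ _
        _ ≤ Λ * 1 + 1 := by
          rw [norm_smul, Real.norm_of_nonneg hΛ0.le]
          have := mul_le_mul_of_nonneg_left hx0 hΛ0.le
          linarith
        _ = Λ + 1 := by ring
    have hwn : ‖w‖ ≤ Λ + 2 := by
      calc ‖w‖ = ‖(w - (Λ • x0 + s)) + (Λ • x0 + s)‖ := by congr 1; abel
        _ ≤ ‖w - (Λ • x0 + s)‖ + ‖Λ • x0 + s‖ := norm_add_le _ _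
        _ ≤ Λ + 2 := by linarith
    have hgw : Λ * (1 - τ - α / 4) - 2 ≤ g w := by
      have h1 : g w = g (w - (Λ • x0 + s)) + (Λ * g x0 + g s) := by
        have : w = (w - (Λ • x0 + s)) + (Λ • x0 + s) := by abel
        conv_lhs => rw [this]
        rw [map_add, map_add g (Λ • x0) s, map_smul, smul_eq_mul]
      have h2 := (abs_le.1 (hgle (w - (Λ • x0 + s)))).1
      have h3 := (abs_le.1 (hgle s)).1
      have h4 : Λ * (1 - τ - α / 4) ≤ Λ * g x0 := mul_le_mul_of_nonneg_left hgx0 hΛ0.le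
      linarith
    have hGw : G w := by
      refine ⟨⟨F, hFw⟩, lt_of_lt_of_le ?_ hgw⟩
      have h1 : (1 - α) * ‖w‖ ≤ (1 - α) * (Λ + 2) := mul_le_mul_of_nonneg_left hwn (by linarith)
      have h2 : Λ * τ ≤ Λ * (α / 4) := mul_le_mul_of_nonneg_left hτ1 hΛ0.le
      have h3 : Λ * (α / 4) = (12 + α) / 4 := by rw [← hΛα]; ring
      have h4 : Λ * (1 - τ - α / 4) = Λ - Λ * τ - Λ * (α / 4) := by ring
      have h5 : (1 - α) * (Λ + 2) = Λ - Λ * α + 2 - 2 * α := by ring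
      rw [h5, hΛα] at h1
      rw [h4]
      rw [h3] at h2 ⊢
      linarith
    refine ⟨w, hw, hGw, ?_⟩
    rw [Fac.unique (F5.fac_spec hGw.1) hFw]
    exact hFp
  -- enumeration
  have hcount : ({w | w ∈ W ∧ G w} : Set X).Countable := hWc.mono (fun w hw => hw.1)
  have hne : ({w | w ∈ W ∧ G w} : Set X).Nonempty := by
    obtain ⟨w, hw, hG, _⟩ := hbd 0 Y.zero_mem (by rw [norm_zero]; exact zero_le_one)
    exact ⟨w, hw, hG⟩
  obtain ⟨ws, hws⟩ := hcount.exists_eq_range hne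
  have hws1 : ∀ i, ws i ∈ W ∧ G (ws i) := by
    intro i
    have : ws i ∈ ({w | w ∈ W ∧ G w} : Set X) := by rw [hws]; exact ⟨i, rfl⟩
    exact this
  have hfin := simons_core h hh.le x0 hx0 Λ τ (ε / 2) hΛ0.le hx0h Y hYc
    (fun i => yy ((List.range (i + 1)).map ws)) (fun i => hyy1 _)
    (fun i => hWY _ (hyyW _ (by
      intro x hx
      rw [List.mem_map] at hx
      obtain ⟨j, _, rfl⟩ := hx
      exact (hws1 j).1)))
    (fun k => F5.fac (ws k)) (fun k => (F5.fac_spec (hws1 k).2.1).norm_le)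
    (fun k i hki => hyy2 _ (ws k) (by
      rw [List.mem_map]
      exact ⟨k, List.mem_range.2 (by omega), rfl⟩) (hws1 k).2)
    (by
      intro s hs hs1
      obtain ⟨w, hw, hG, hw2⟩ := hbd s hs hs1
      have hmem : w ∈ Set.range ws := by rw [← hws]; exact ⟨hw, hG⟩
      obtain ⟨k, hk⟩ := hmem
      exact ⟨k, by simp only [hk]; exact hw2⟩)
  linarith

end PolyR126
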