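import Pool.Agent.PolyR126.Defs

set_option autoImplicit false

universe u v

namespace PolyR126

open Set Metric Filter Topology

private theorem exists_step {ι : Type u} {T : Type u} (M : ι → Set T)
    (hcard : ∀ i, Cardinal.mk ι ≤ Cardinal.mk (M i)) (R : T → T → Prop)
    (hR : ∀ (a : T) (i : ι), {b ∈ M i | R a b}.Subsingleton)
    (r : ι → ι → Prop) [IsWellOrder ι r] (hr : (Cardinal.mk ι).ord = Ordinal.type r)
    (i : ι) (f : ∀ j, r j i → T) : ∃ x ∈ M i, ∀ (j : ι) (h : r j i), ¬ R (f j h) x := by
  by_contra hcon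
  push Not at hcon
  have h1 : ∀ x : M i, ∃ j : {j // r j i}, R (f j.1 j.2) x.1 := by
    intro x
    obtain ⟨j, h, h2⟩ := hcon x.1 x.2
    exact ⟨⟨j, h⟩, h2⟩
  choose g hg using h1
  have hinj : Function.Injective g := by
    intro x y hxy
    have hx := hg x
    have hy := hg y
    rw [← hxy] at hy
    exact Subtype.ext (hR _ i ⟨x.2, hx⟩ ⟨y.2, hy⟩)
  have h2 : Cardinal.mk (M i) ≤ Cardinal.mk {j // r j i} := Cardinal.mk_le_of_injective hinj
  have h3 : Cardinal.mk {j // r j i} < Cardinal.mk ι := by
    have := Cardinal.card_typein_lt i hr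
    rwa [Ordinal.card_typein] at this
  exact absurd (h3.trans_le ((hcard i).trans h2)) (lt_irrefl _)

/-- PROOF. `Cardinal.ord_eq ι`: there is a well-order `<` on `ι` of type `(#ι).ord`, so each initial segment `{j | j < i}` has cardinality `< #ι`. If
`#ι` is infinite then `#{j | j < i} < #ι ≤ #(M i)`; if `ι` is finite then `{j | j < i}` is finite and `M i` is infinite; in both cases
`#{j | j < i} < #(M i)`. By well-founded recursion choose `s i ∈ M i` outside `⋃_{j<i} {b ∈ M i | R (s j) b}`, a set of cardinality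
`≤ #{j | j < i}` (each piece has at most one element) so `≠ M i`. Then `¬ R (s j) (s i)` for `j < i`, and by symmetry for all `i ≠ j`. -/
theorem exists_selection {ι : Type u} {T : Type u} (M : ι → Set T) (hM : ∀ i, (M i).Infinite)
    (hcard : ∀ i, Cardinal.mk ι ≤ Cardinal.mk (M i)) (R : T → T → Prop)
    (hsymm : ∀ a b, R a b → R b a)
    (hR : ∀ (a : T) (i : ι), {b ∈ M i | R a b}.Subsingleton) :
    ∃ s : ι → T, (∀ i, s i ∈ M i) ∧ ∀ i j, i ≠ j → ¬ R (s i) (s j) := by
  classical
  obtain ⟨r, wo, hr⟩ := Cardinal.exists_ord_eq ι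
  have step := exists_step M hcard R hR r hr
  let s : ι → T := (IsWellFounded.wf (r := r)).fix (fun i f => (step i f).choose)
  have hs : ∀ i, s i = (step i (fun j _ => s j)).choose :=
    fun i => (IsWellFounded.wf (r := r)).fix_eq _ i
  have hs1 : ∀ i, s i ∈ M i := by
    intro i
    rw [hs i]
    exact (step i (fun j _ => s j)).choose_spec.1
  have hs2 : ∀ i j, r j i → ¬ R (s j) (s i) := by
    intro i j hj
    have := (step i (fun j _ => s j)).choose_spec.2 j hj
    rw [← hs i] at this
    exact this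
  refine ⟨s, hs1, fun i j hij => ?_⟩
  rcases trichotomous_of r i j with h | h | h
  · exact hs2 j i h
  · exact absurd h hij
  · exact fun hc => hs2 i j h (hsymm _ _ hc)

end PolyR126
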