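import Pool.Agent.PolyR126.Defs

set_option autoImplicit false

universe u v

namespace PolyR126

open Set Metric Filter Topology

/-- PROOF. Zorn: a maximal subset `M ⊆ A` whose distinct elements satisfy `η ≤ ‖a - b‖ ∧ η ≤ ‖a + b‖`. For `f ∈ A`: if `f ∈ M` take `f' = f`;
otherwise `M ∪ {f}` is not separated, so some `f' ∈ M` has `‖f - f'‖ < η` or `‖f + f'‖ < η`. -/
theorem exists_maximal_sep {T : Type u} [NormedAddCommGroup T] (A : Set T) (η : ℝ) (hη : 0 < η) :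
    ∃ M : Set T, M ⊆ A ∧ (∀ a ∈ M, ∀ b ∈ M, a ≠ b → η ≤ ‖a - b‖ ∧ η ≤ ‖a + b‖) ∧
      ∀ f ∈ A, ∃ f' ∈ M, ‖f - f'‖ < η ∨ ‖f + f'‖ < η := by
  obtain ⟨M, hM⟩ := zorn_subset
    {M : Set T | M ⊆ A ∧ ∀ a ∈ M, ∀ b ∈ M, a ≠ b → η ≤ ‖a - b‖ ∧ η ≤ ‖a + b‖} (by
      intro c hc hchain
      refine ⟨⋃₀ c, ⟨?_, ?_⟩, fun s hs => Set.subset_sUnion_of_mem hs⟩
      · exact Set.sUnion_subset fun s hs => (hc hs).1
      · rintro a ⟨s, hs, has⟩ b ⟨t, ht, hbt⟩ hab
        rcases hchain.total hs ht with h | h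
        · exact (hc ht).2 a (h has) b hbt hab
        · exact (hc hs).2 a has b (h hbt) hab)
  refine ⟨M, hM.1.1, hM.1.2, ?_⟩
  intro f hf
  by_cases hfM : f ∈ M
  · exact ⟨f, hfM, Or.inl (by simpa using hη)⟩
  · by_contra hcon
    push Not at hcon
    have hins : insert f M ∈
        {M : Set T | M ⊆ A ∧ ∀ a ∈ M, ∀ b ∈ M, a ≠ b → η ≤ ‖a - b‖ ∧ η ≤ ‖a + b‖} := by
      refine ⟨Set.insert_subset hf hM.1.1, ?_⟩
      intro a ha b hb hab
      rcases ha with rfl | ha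
      · rcases hb with rfl | hb
        · exact absurd rfl hab
        · exact hcon b hb
      · rcases hb with rfl | hb
        · have := hcon a ha
          rw [norm_sub_rev, add_comm] at this
          exact this
        · exact hM.1.2 a ha b hb hab
    exact hfM (hM.2 hins (Set.subset_insert f M) (Set.mem_insert f M))

end PolyR126
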