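import Pool.Agent.PolyR126.Defs
import Pool.Agent.PolyR126.F5

set_option autoImplicit false

universe u v

namespace PolyR126

open Set Metric Filter Topology

/-- PROOF. Let `V` be this closed subspace. Suppose `V ≠ ⊤`. Riesz lemma (`riesz_lemma`, with `r = 1/2`, then normalise): there is `v` with `‖v‖ = 1` and
`1/2 ≤ ‖v - y‖` for all `y ∈ V`. Let `β = α/8`, `n = ‖g + β v‖ ∈ [1-β, 1+β]`, `h = n⁻¹ (g + β v)`. Then `‖h‖ = 1` and
`‖h - g‖ ≤ |1 - n| + β ≤ 2β = α/4`, and for `y ∈ V`: `‖h - y‖ = n⁻¹ ‖β v - (n y - g)‖ ≥ n⁻¹ β/2 ≥ (β/2)/(1+β) ≥ β/4` (as `n y - g ∈ V`). By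
`simons_slice`, `h` is in the closure of the convex hull of `A = {f | ∃ w, Fac f w ∧ (1-α)‖w‖ < g w}`. Every `f ∈ A` satisfies
`∃ y ∈ V, ‖f - y‖ < α/64` (`y = ± f'` from `hmax`), and the set `{φ | infDist φ V ≤ α/64}` is closed and convex, so `infDist h V ≤ α/64 = β/8`.
But `infDist h V ≥ β/4`. Contradiction. -/
theorem slice_span {X : Type u} [NormedAddCommGroup X] [NormedSpace ℝ X] [CompleteSpace X]
    (hX : HP X) (g : X →L[ℝ] ℝ) (hg : ‖g‖ = 1) (α : ℝ) (hα : 0 < α) (hα1 : α < 1)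
    (M : Set (X →L[ℝ] ℝ))
    (hmax : ∀ f : X →L[ℝ] ℝ, (∃ w : X, Fac f w ∧ (1 - α) * ‖w‖ < g w) →
      ∃ f' ∈ M, ‖f - f'‖ < α / 64 ∨ ‖f + f'‖ < α / 64) :
    (Submodule.span ℝ (M ∪ {g})).topologicalClosure = ⊤ := by
  classical
  set V := (Submodule.span ℝ (M ∪ {g})).topologicalClosure with hV
  by_contra hne
  have hVc : IsClosed (V : Set (X →L[ℝ] ℝ)) := Submodule.isClosed_topologicalClosure _
  have hMV : ∀ f ∈ M, f ∈ V := fun f hf =>
    (Submodule.le_topologicalClosure _) (Submodule.subset_span (Or.inl hf))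
  have hgV : g ∈ V := (Submodule.le_topologicalClosure _) (Submodule.subset_span (Or.inr rfl))
  have hex : ∃ x, x ∉ V := by
    by_contra hcon
    push Not at hcon
    exact hne (Submodule.eq_top_iff'.2 hcon)
  obtain ⟨v0, hv0, hv0d⟩ := riesz_lemma hVc hex (show (1 / 2 : ℝ) < 1 by norm_num)
  have hv0n : 0 < ‖v0‖ := by
    rw [norm_pos_iff]
    rintro rfl
    exact hv0 V.zero_mem
  set v := ‖v0‖⁻¹ • v0 with hv
  have hv1 : ‖v‖ = 1 := by
    rw [hv, norm_smul, norm_inv, norm_norm, inv_mul_cancel₀ hv0n.ne']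
  have hvd : ∀ y ∈ V, 1 / 2 ≤ ‖v - y‖ := by
    intro y hy
    have h1 := hv0d (‖v0‖ • y) (V.smul_mem _ hy)
    have h2 : v0 - ‖v0‖ • y = ‖v0‖ • (v - y) := by
      rw [hv, smul_sub, smul_smul, mul_inv_cancel₀ hv0n.ne', one_smul]
    rw [h2, norm_smul, norm_norm, mul_comm] at h1
    exact le_of_mul_le_mul_left h1 hv0n
  set β := α / 8 with hβ
  have hβ0 : 0 < β := by positivity
  have hβ1 : β < 1 / 8 := by rw [hβ]; linarith
  set n := ‖g + β • v‖ with hn
  have hβv : ‖β • v‖ = β := by rw [norm_smul, hv1, mul_one, Real.norm_of_nonneg hβ0.le]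
  have hn1 : n ≤ 1 + β := by
    rw [hn]
    calc ‖g + β • v‖ ≤ ‖g‖ + ‖β • v‖ := norm_add_le _ _
      _ = 1 + β := by rw [hg, hβv]
  have hn2 : 1 - β ≤ n := by
    have h1 : ‖g‖ ≤ ‖g + β • v‖ + ‖β • v‖ := by
      calc ‖g‖ = ‖(g + β • v) - β • v‖ := by congr 1; abel
        _ ≤ _ := norm_sub_le _ _
    rw [hg, hβv] at h1
    linarith
  have hn0 : 0 < n := by linarith
  set h := n⁻¹ • (g + β • v) with hh
  have hh1 : ‖h‖ = 1 := by
    rw [hh, norm_smul, norm_inv, Real.norm_of_nonneg hn0.le, ← hn, inv_mul_cancel₀ hn0.ne']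
  have hhg : ‖h - g‖ ≤ α / 4 := by
    have e1 : h - g = (1 - n) • h + β • v := by
      have e2 : n • h = g + β • v := by rw [hh, smul_smul, mul_inv_cancel₀ hn0.ne', one_smul]
      ext x
      have e3 : n * h x = g x + β * v x := congrArg (fun φ : X →L[ℝ] ℝ => φ x) e2
      show h x - g x = (1 - n) * h x + β * v x
      linarith
    rw [e1]
    calc ‖(1 - n) • h + β • v‖ ≤ ‖(1 - n) • h‖ + ‖β • v‖ := norm_add_le _ _
      _ = |1 - n| + β := by rw [norm_smul, hh1, mul_one, hβv, Real.norm_eq_abs]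
      _ ≤ β + β := by
        have : |1 - n| ≤ β := by rw [abs_le]; constructor <;> linarith
        linarith
      _ = α / 4 := by rw [hβ]; ring
  have hhd : ∀ y ∈ V, β / 4 ≤ ‖h - y‖ := by
    intro y hy
    have hy2 : β⁻¹ • (n • y - g) ∈ V := V.smul_mem _ (V.sub_mem (V.smul_mem _ hy) hgV)
    have h1 := hvd _ hy2
    have e1 : v - β⁻¹ • (n • y - g) = (β⁻¹ * n) • (h - y) := by
      have e2 : n • h = g + β • v := by rw [hh, smul_smul, mul_inv_cancel₀ hn0.ne', one_smul]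
      ext x
      have e3 : n * h x = g x + β * v x := congrArg (fun φ : X →L[ℝ] ℝ => φ x) e2
      show v x - β⁻¹ * (n * y x - g x) = (β⁻¹ * n) * (h x - y x)
      have e4 : (β⁻¹ * n) * (h x - y x) = β⁻¹ * (n * h x) - β⁻¹ * (n * y x) := by ring
      rw [e4, e3]
      field_simp
      ring
    rw [e1, norm_smul, Real.norm_of_nonneg (by positivity)] at h1
    have h2 : β⁻¹ * n * ‖h - y‖ * β = n * ‖h - y‖ := by field_simp
    have h3 : 1 / 2 * β ≤ n * ‖h - y‖ := by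
      rw [← h2]
      exact mul_le_mul_of_nonneg_right h1 hβ0.le
    have h4 : n * ‖h - y‖ ≤ 2 * ‖h - y‖ := mul_le_mul_of_nonneg_right (by linarith) (norm_nonneg _)
    linarith
  have hslice := simons_slice hX g h hg hh1 α hα hα1 hhg
  have hsub : closure (convexHull ℝ {f : X →L[ℝ] ℝ | ∃ w : X, Fac f w ∧ (1 - α) * ‖w‖ < g w}) ⊆
      Metric.cthickening (α / 64) (V : Set (X →L[ℝ] ℝ)) := by
    refine closure_minimal (convexHull_min ?_ (V.convex.cthickening _)) Metric.isClosed_cthickening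
    intro f hf
    obtain ⟨f', hf', hor⟩ := hmax f hf
    rcases hor with h1 | h1
    · exact Metric.mem_cthickening_of_dist_le f f' _ _ (hMV f' hf') (by rw [dist_eq_norm]; exact h1.le)
    · refine Metric.mem_cthickening_of_dist_le f (-f') _ _ (V.neg_mem (hMV f' hf')) ?_
      rw [dist_eq_norm, sub_neg_eq_add]
      exact h1.le
  have hmem := Metric.cthickening_subset_thickening' (show 0 < β / 4 by linarith)
    (show α / 64 < β / 4 by rw [hβ]; linarith) (V : Set (X →L[ℝ] ℝ)) (hsub hslice)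
  rw [Metric.mem_thickening_iff] at hmem
  obtain ⟨y, hy, hyd⟩ := hmem
  rw [dist_eq_norm] at hyd
  exact absurd (hhd y hy) (not_le.2 hyd)

end PolyR126
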