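import Pool.Agent.PolyR126.Defs

set_option autoImplicit false

universe u v

namespace PolyR126

open Set Metric Filter Topology

/-- PROOF. The `ℚ`-span `S` of `M ∪ {g}` (all finite rational combinations) is dense: its closure is a real subspace (closed under real scalars by
approximation) containing `M ∪ {g}`, so contains the closure of the real span, `⊤`. Its cardinality is at most `#(finite subsets / finsupps of M ∪ {g} with
rational values) ≤ max ℵ₀ #M = #M`. For `d ∈ D` pick `q d ∈ S` with `‖d - q d‖ < α/2`; `q` is injective on `D`. So `#D ≤ #S ≤ #M`. -/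
theorem card_sep_le {T : Type u} [NormedAddCommGroup T] [NormedSpace ℝ T] (D M : Set T) (g : T)
    (α : ℝ) (hα : 0 < α) (hD : ∀ a ∈ D, ∀ b ∈ D, a ≠ b → α ≤ ‖a - b‖) (hM : M.Infinite)
    (hspan : (Submodule.span ℝ (M ∪ {g})).topologicalClosure = ⊤) :
    Cardinal.mk D ≤ Cardinal.mk M := by
  let : Module ℚ T := Module.compHom T (algebraMap ℚ ℝ)
  have hsm : ∀ (q : ℚ) (x : T), q • x = (q : ℝ) • x := fun q x => rfl
  let S : Submodule ℚ T := Submodule.span ℚ (M ∪ {g})
  let W : Submodule ℝ T :=
    { carrier := closure (S : Set T)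
      add_mem' := fun {a b} ha hb =>
        map_mem_closure₂ continuous_add ha hb fun x hx y hy => S.add_mem hx hy
      zero_mem' := subset_closure S.zero_mem
      smul_mem' := fun c x hx => by
        refine map_mem_closure₂ (f := fun (c : ℝ) (x : T) => c • x) continuous_smul
          (Rat.denseRange_cast c) hx ?_
        rintro _ ⟨q, rfl⟩ y hy
        have := S.smul_mem q hy
        rwa [hsm] at this }
  have hW : W = ⊤ := by
    rw [eq_top_iff, ← hspan]
    apply Submodule.topologicalClosure_minimal
    · rw [Submodule.span_le]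
      intro x hx
      exact subset_closure (Submodule.subset_span hx)
    · exact isClosed_closure
  have hdense : ∀ x : T, ∃ y : S, ‖x - y‖ < α / 2 := by
    intro x
    have hx : x ∈ closure (S : Set T) := by
      have : x ∈ W := by rw [hW]; exact Submodule.mem_top
      exact this
    obtain ⟨y, hy, hxy⟩ := Metric.mem_closure_iff.1 hx (α / 2) (half_pos hα)
    exact ⟨⟨y, hy⟩, by rwa [← dist_eq_norm]⟩
  choose q hq using hdense
  have hinj : Function.Injective (fun d : D => q d) := by
    intro a b hab
    by_contra hne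
    have h1 := hD a a.2 b b.2 (fun h => hne (Subtype.ext h))
    have h2 := hq (a : T)
    have h3 := hq (b : T)
    have h4 : q (a : T) = q (b : T) := hab
    have h5 : ‖(a : T) - b‖ ≤ ‖(a : T) - q a‖ + ‖(b : T) - q b‖ := by
      have : (a : T) - b = ((a : T) - q a) - ((b : T) - q b) := by rw [h4]; abel
      rw [this]
      exact norm_sub_le _ _
    linarith
  have hinf : Infinite ↥(M ∪ {g}) := by
    have := hM.mono (subset_union_left (t := {g}))
    exact this.to_subtype
  have hMinf : Infinite ↥M := hM.to_subtype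
  have h1 : Cardinal.mk D ≤ Cardinal.mk S := Cardinal.mk_le_of_injective hinj
  have h2 : Cardinal.mk S ≤ Cardinal.mk (↥(M ∪ {g}) →₀ ℚ) := by
    refine Cardinal.mk_le_of_surjective (f := fun φ : ↥(M ∪ {g}) →₀ ℚ =>
      (⟨Finsupp.linearCombination ℚ (fun x : ↥(M ∪ {g}) => (x : T)) φ, by
        have : Finsupp.linearCombination ℚ (fun x : ↥(M ∪ {g}) => (x : T)) φ ∈
            LinearMap.range (Finsupp.linearCombination ℚ (fun x : ↥(M ∪ {g}) => (x : T))) :=
          ⟨φ, rfl⟩
        rw [Finsupp.range_linearCombination, Subtype.range_coe] at this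
        exact this⟩ : S)) ?_
    rintro ⟨y, hy⟩
    have hy' : y ∈ Submodule.span ℚ (M ∪ {g}) := hy
    rw [← Subtype.range_coe (s := M ∪ {g}), ← Finsupp.range_linearCombination] at hy'
    obtain ⟨φ, hφ⟩ := hy'
    exact ⟨φ, Subtype.ext hφ⟩
  have h3 : Cardinal.mk (↥(M ∪ {g}) →₀ ℚ) = Cardinal.mk ↥(M ∪ {g}) := by
    rw [Cardinal.mk_finsupp_lift_of_infinite]
    simp only [Cardinal.mk_eq_aleph0, Cardinal.lift_aleph0, Cardinal.lift_uzero]
    exact max_eq_left (Cardinal.aleph0_le_mk _)
  have h4 : Cardinal.mk ↥(M ∪ {g}) ≤ Cardinal.mk M := by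
    refine (Cardinal.mk_union_le _ _).trans ?_
    rw [Cardinal.mk_singleton]
    exact (Cardinal.add_one_eq (Cardinal.aleph0_le_mk _)).le
  exact (h1.trans h2).trans (h3.le.trans h4)

end PolyR126
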