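import Pool.Agent.PolyR126.Defs

set_option autoImplicit false

universe u v

namespace PolyR126

open Set Metric Filter Topology

/-- PROOF. If `M` were finite, the span of `M ∪ {g}` would be finite-dimensional, hence closed, so the dual `X →L[ℝ] ℝ` would be finite-dimensional;
then `X` is finite-dimensional (the functionals separate points: `X` embeds linearly in the dual of the dual), contradiction. -/
theorem infinite_of_span {X : Type u} [NormedAddCommGroup X] [NormedSpace ℝ X]
    (hinf : ¬ FiniteDimensional ℝ X) (M : Set (X →L[ℝ] ℝ)) (g : X →L[ℝ] ℝ)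
    (hspan : (Submodule.span ℝ (M ∪ {g})).topologicalClosure = ⊤) : M.Infinite := by
  intro hfin
  apply hinf
  have hfin2 : (M ∪ {g}).Finite := hfin.union (Set.finite_singleton g)
  have : FiniteDimensional ℝ (Submodule.span ℝ (M ∪ {g})) :=
    FiniteDimensional.span_of_finite ℝ hfin2
  have hcl : IsClosed ((Submodule.span ℝ (M ∪ {g}) : Submodule ℝ (X →L[ℝ] ℝ)) : Set (X →L[ℝ] ℝ)) :=
    Submodule.closed_of_finiteDimensional _
  have htop : Submodule.span ℝ (M ∪ {g}) = ⊤ := by
    rw [← hspan, IsClosed.submodule_topologicalClosure_eq hcl]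
  have hfd : FiniteDimensional ℝ (X →L[ℝ] ℝ) := by
    have h1 : FiniteDimensional ℝ (⊤ : Submodule ℝ (X →L[ℝ] ℝ)) := by
      rw [← htop]; infer_instance
    exact Module.finite_def.mpr (Module.Finite.iff_fg.mp h1)
  let φ : X →ₗ[ℝ] Module.Dual ℝ (X →L[ℝ] ℝ) :=
    { toFun := fun x => 
        { toFun := fun f => f x
          map_add' := fun f h => rfl
          map_smul' := fun c f => rfl }
      map_add' := fun x y => by
        ext f
        simp
      map_smul' := fun c x => by
        ext f
        simp }
  refine FiniteDimensional.of_injective φ ?_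
  rw [injective_iff_map_eq_zero]
  intro x hx
  by_contra hne
  obtain ⟨f, -, hf⟩ := exists_dual_vector ℝ x (norm_ne_zero_iff.mpr hne)
  have h1 : f x = 0 := by
    have := congrArg (fun ψ => ψ f) hx
    simpa [φ] using this
  rw [h1] at hf
  have h2 : (‖x‖ : ℝ) = 0 := by exact_mod_cast hf.symm
  exact hne (norm_eq_zero.mp h2)

end PolyR126
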