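import Pool.Agent.PolyR126.Defs
import Pool.Agent.PolyR126.B
import Pool.Agent.PolyR126.G1
import Pool.Agent.PolyR126.G2
import Pool.Agent.PolyR126.G3
import Pool.Agent.PolyR126.G4
import Pool.Agent.PolyR126.G5

set_option autoImplicit false

universe u v

namespace PolyR126

open Set Metric Filter Topology

private theorem G6_max {T : Type u} [NormedAddCommGroup T] (S : Set T) (α : ℝ) (hα : 0 < α) :
    ∃ D ⊆ S, (∀ a ∈ D, ∀ b ∈ D, a ≠ b → α ≤ ‖a - b‖) ∧ ∀ f ∈ S, ∃ d ∈ D, ‖f - d‖ < α := by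
  obtain ⟨D, hD⟩ := zorn_subset {D : Set T | D ⊆ S ∧ ∀ a ∈ D, ∀ b ∈ D, a ≠ b → α ≤ ‖a - b‖}
    (by
      intro c hc hchain
      refine ⟨⋃₀ c, ⟨sUnion_subset fun t ht => (hc ht).1, ?_⟩, fun s hs => subset_sUnion_of_mem hs⟩
      rintro a ⟨s, hs, has⟩ b ⟨t, ht, hbt⟩ hab
      rcases hchain.total hs ht with h | h
      · exact (hc ht).2 a (h has) b hbt hab
      · exact (hc hs).2 a has b (h hbt) hab)
  refine ⟨D, hD.prop.1, hD.prop.2, fun f hf => ?_⟩
  by_contra hcon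
  push Not at hcon
  have hmem : insert f D ∈ {D : Set T | D ⊆ S ∧ ∀ a ∈ D, ∀ b ∈ D, a ≠ b → α ≤ ‖a - b‖} := by
    refine ⟨insert_subset hf hD.prop.1, ?_⟩
    rintro a (rfl | ha) b (rfl | hb) hab
    · exact absurd rfl hab
    · exact hcon b hb
    · rw [norm_sub_rev]; exact hcon a ha
    · exact hD.prop.2 a ha b hb hab
  have hfD : f ∈ D := hD.le_of_ge hmem (subset_insert f D) (mem_insert f D)
  have := hcon f hfD
  rw [sub_self, norm_zero] at this
  linarith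

/-- PROOF. Let `D` be a maximal subset of the unit sphere `{g : X →L[ℝ] ℝ | ‖g‖ = 1}` with `α ≤ ‖a - b‖` for distinct `a, b ∈ D` (Zorn). For `g ∈ D` let
`A g = {f | ∃ w, Fac f w ∧ (1-α)‖w‖ < g w}`, `M g ⊆ A g` from `exists_maximal_sep (A g) (α/64)`. By `slice_span` the closed span of `M g ∪ {g}` is
everything, so `M g` is infinite (`infinite_of_span`) and `#D ≤ #(M g)` (`card_sep_le`). Let `R a b := ‖a - b‖ < α/128 ∨ ‖a + b‖ < α/128`. If `b, b' ∈ M g`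
both satisfy `R a b`, `R a b'` then `‖b - b'‖ < α/64` or `‖b + b'‖ < α/64`, so `b = b'`. `exists_selection` (with `ι = D`, `T = X →L[ℝ] ℝ`) gives
`f : D → (X →L[ℝ] ℝ)`, `f g ∈ M g`, `α/128 ≤ ‖f g ∓ f g'‖` for `g ≠ g'`. `J = D`, `η = α/128`; `w g` with `Fac (f g) (w g)` and
`(1-α)‖w g‖ < g (w g)`; in particular `w g ≠ 0`; `x g = ‖w g‖⁻¹ w g`, `Fac.smul`. Last property: let `g (x j) ≤ 1` for all `j`; if `g = 0` trivial;
else `g0 = g/‖g‖`; by maximality of `D` there is `d ∈ D` with `‖g0 - d‖ < α` (or `= 0`); `g0 (x d) ≥ d (x d) - α > 1 - 2α`, so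
`1 ≥ g (x d) = ‖g‖ g0 (x d) ≥ ‖g‖ (1 - 2α)`. -/
theorem big_family {X : Type u} [NormedAddCommGroup X] [NormedSpace ℝ X] [CompleteSpace X]
    (hX : HP X) (hinf : ¬ FiniteDimensional ℝ X) (α : ℝ) (hα : 0 < α) (hα1 : α < 1 / 2) :
    ∃ η : ℝ, 0 < η ∧ ∃ (J : Type u) (f : J → X →L[ℝ] ℝ) (x : J → X),
      (∀ j, ‖x j‖ = 1) ∧ (∀ j, Fac (f j) (x j)) ∧
      (∀ i j, i ≠ j → η ≤ ‖f i - f j‖ ∧ η ≤ ‖f i + f j‖) ∧
      ∀ g : X →L[ℝ] ℝ, (∀ j, g (x j) ≤ 1) → ‖g‖ * (1 - 2 * α) ≤ 1 := by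
  obtain ⟨D, hDS, hDsep, hDmax⟩ := G6_max {g : X →L[ℝ] ℝ | ‖g‖ = 1} α hα
  have hM := fun g : X →L[ℝ] ℝ => exists_maximal_sep
    {f : X →L[ℝ] ℝ | ∃ w : X, Fac f w ∧ (1 - α) * ‖w‖ < g w} (α / 64) (by positivity)
  choose M hMA hMsep hMmax using hM
  have hspan : ∀ g : D, (Submodule.span ℝ (M g.1 ∪ {g.1})).topologicalClosure = ⊤ := by
    intro g
    exact slice_span hX g.1 (hDS g.2) α hα (by linarith) (M g.1) (fun f hf => hMmax g.1 f hf)
  have hinfM : ∀ g : D, (M g.1).Infinite := fun g => infinite_of_span hinf _ _ (hspan g)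
  obtain ⟨f, hfM, hfR⟩ := exists_selection (ι := D) (T := X →L[ℝ] ℝ) (fun g => M g.1) hinfM
    (fun g => card_sep_le D (M g.1) g.1 α hα hDsep (hinfM g) (hspan g))
    (fun a b => ‖a - b‖ < α / 128 ∨ ‖a + b‖ < α / 128)
    (by
      rintro a b (h | h)
      · left; rw [norm_sub_rev]; exact h
      · right; rw [add_comm]; exact h)
    (by
      rintro a i b ⟨hb, hab⟩ b' ⟨hb', hab'⟩
      by_contra hne
      obtain ⟨h1, h2⟩ := hMsep i.1 b hb b' hb' hne
      rcases hab with h | h <;> rcases hab' with h' | h'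
      · have := norm_sub_le (a - b') (a - b)
        rw [show a - b' - (a - b) = b - b' by abel] at this
        linarith
      · have := norm_sub_le (a + b') (a - b)
        rw [show a + b' - (a - b) = b + b' by abel] at this
        linarith
      · have := norm_sub_le (a + b) (a - b')
        rw [show a + b - (a - b') = b + b' by abel] at this
        linarith
      · have := norm_sub_le (a + b) (a + b')
        rw [show a + b - (a + b') = b - b' by abel] at this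
        linarith)
  have hw : ∀ g : D, ∃ w : X, Fac (f g) w ∧ (1 - α) * ‖w‖ < g.1 w := fun g => hMA g.1 (hfM g)
  choose w hwF hwg using hw
  have hw0 : ∀ g, w g ≠ 0 := by
    intro g h0
    have := hwg g
    rw [h0, norm_zero, map_zero, mul_zero] at this
    exact lt_irrefl _ this
  have hwn : ∀ g, 0 < ‖w g‖ := fun g => norm_pos_iff.2 (hw0 g)
  refine ⟨α / 128, by positivity, D, f, fun g => ‖w g‖⁻¹ • w g, ?_, ?_, ?_, ?_⟩
  · intro g
    rw [norm_smul, norm_inv, norm_norm, inv_mul_cancel₀ (hwn g).ne']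
  · intro g
    exact (hwF g).smul (inv_pos.2 (hwn g))
  · intro i j hij
    have := hfR i j hij
    push Not at this
    exact this
  · intro g hg
    by_cases h0 : ‖g‖ = 0
    · rw [h0, zero_mul]; norm_num
    have hgpos : 0 < ‖g‖ := lt_of_le_of_ne (norm_nonneg g) (Ne.symm h0)
    have hg0 : ‖(‖g‖⁻¹ • g : X →L[ℝ] ℝ)‖ = 1 := by
      rw [norm_smul, norm_inv, norm_norm, inv_mul_cancel₀ h0]
    obtain ⟨d, hdD, hd⟩ := hDmax (‖g‖⁻¹ • g) hg0
    set x : X := ‖w ⟨d, hdD⟩‖⁻¹ • w ⟨d, hdD⟩ with hx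
    have hxn : ‖x‖ = 1 := by
      rw [hx, norm_smul, norm_inv, norm_norm, inv_mul_cancel₀ (hwn _).ne']
    have h1 : 1 - α < d x := by
      rw [hx, map_smul, smul_eq_mul]
      have h2 := hwg ⟨d, hdD⟩
      have h3 := mul_lt_mul_of_pos_left h2 (inv_pos.2 (hwn ⟨d, hdD⟩))
      calc 1 - α = ‖w ⟨d, hdD⟩‖⁻¹ * ((1 - α) * ‖w ⟨d, hdD⟩‖) := by
            field_simp [(hwn ⟨d, hdD⟩).ne']
        _ < _ := h3
    have h2 : |(‖g‖⁻¹ • g - d) x| ≤ α := by
      have := (‖g‖⁻¹ • g - d).le_opNorm x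
      rw [hxn, mul_one, Real.norm_eq_abs] at this
      exact this.trans hd.le
    have h3 : (‖g‖⁻¹ • g - d) x = ‖g‖⁻¹ * g x - d x := by
      simp
    rw [h3] at h2
    have h4 := (abs_le.1 h2).1
    have h5 : 1 - 2 * α < ‖g‖⁻¹ * g x := by linarith
    have h6 := mul_lt_mul_of_pos_left h5 hgpos
    rw [← mul_assoc, mul_inv_cancel₀ h0, one_mul] at h6
    exact h6.le.trans (hg ⟨d, hdD⟩)

end PolyR126
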