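import Pool.Agent.PolyR126.Defs
import Pool.Agent.PolyR126.B

set_option autoImplicit false

universe u v

namespace PolyR126

open Set Metric Filter Topology

theorem countable_facets {X : Type u} [NormedAddCommGroup X] [NormedSpace ℝ X]
    [TopologicalSpace.SeparableSpace X] :
    {f : X →L[ℝ] ℝ | ∃ w : X, Fac f w}.Countable := by
  classical
  obtain ⟨Q, hQc, hQd⟩ := TopologicalSpace.exists_countable_dense X
  have hsub : {f : X →L[ℝ] ℝ | ∃ w : X, Fac f w} ⊆ ⋃ q ∈ Q, {f : X →L[ℝ] ℝ | Fac f q} := by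
    rintro f ⟨w, hw⟩
    obtain ⟨r, hr, h⟩ := hw.nhds
    obtain ⟨q, hq, hd⟩ := Metric.dense_iff.1 hQd w r hr
    simp only [Set.mem_iUnion]
    refine ⟨q, hd, h q ?_⟩
    rw [← dist_eq_norm]
    exact hq
  refine Set.Countable.mono hsub (hQc.biUnion fun q _ => ?_)
  apply Set.Subsingleton.countable
  intro f hf g hg
  exact Fac.unique hf hg

end PolyR126
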