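import Pool.Agent.PolyR126.Defs
import Pool.Agent.PolyR126.F5
import Pool.Agent.PolyR126.H1

set_option autoImplicit false

universe u v

namespace PolyR126

open Set Metric Filter Topology

theorem separable_dual {X : Type u} [NormedAddCommGroup X] [NormedSpace ℝ X] [CompleteSpace X]
    [TopologicalSpace.SeparableSpace X] (hX : HP X) :
    TopologicalSpace.SeparableSpace (X →L[ℝ] ℝ) := by
  have hc := countable_facets (X := X)
  have hsep : TopologicalSpace.IsSeparable
      (closure (Submodule.span ℝ {f : X →L[ℝ] ℝ | ∃ w : X, Fac f w} : Set (X →L[ℝ] ℝ))) :=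
    (TopologicalSpace.IsSeparable.span (R := ℝ) hc.isSeparable).closure
  rw [← TopologicalSpace.isSeparable_univ_iff]
  refine hsep.mono ?_
  intro g _
  by_cases hg : g = 0
  · rw [hg]
    exact subset_closure (Submodule.zero_mem _)
  · have hn : ‖g‖ ≠ 0 := norm_ne_zero_iff.2 hg
    have h1 : ‖(‖g‖⁻¹ : ℝ) • g‖ = 1 := by
      rw [norm_smul, norm_inv, norm_norm, inv_mul_cancel₀ hn]
    have h2 := simons_slice hX _ _ h1 h1 (1 / 2) (by norm_num) (by norm_num)
      (by rw [sub_self, norm_zero]; norm_num)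
    have h3 : closure (convexHull ℝ {f : X →L[ℝ] ℝ | ∃ w : X, Fac f w ∧
        (1 - 1 / 2) * ‖w‖ < ((‖g‖⁻¹ : ℝ) • g) w}) ⊆
        closure (Submodule.span ℝ {f : X →L[ℝ] ℝ | ∃ w : X, Fac f w} : Set (X →L[ℝ] ℝ)) := by
      apply closure_mono
      refine convexHull_min ?_ (Submodule.convex _)
      rintro f ⟨w, hw, _⟩
      exact Submodule.subset_span ⟨w, hw⟩
    have h4 := h3 h2
    have h5 : g = ‖g‖ • ((‖g‖⁻¹ : ℝ) • g) := by
      rw [smul_smul, mul_inv_cancel₀ hn, one_smul]
    rw [h5]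
    exact (Submodule.topologicalClosure (Submodule.span ℝ {f : X →L[ℝ] ℝ | ∃ w : X, Fac f w})).smul_mem
      ‖g‖ h4

end PolyR126
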