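import Pool.Agent.PolyR126.Defs

set_option autoImplicit false

universe u v

namespace PolyR126

open Set Metric Filter Topology

/-- PROOF. Choose `L 0 ⊇ L 1 ⊇ …` infinite with the property of `H` for `δ = 1/(k+1)` at stage `k`. Choose `φ k ∈ L k` strictly increasing. For `‖x‖ ≤ 1` the
real sequence `g (φ n) x` is bounded by `K`; if it does not converge, `limsup > liminf`, so there are `a` and `k` with `a + 1/(k+1)` between, and
infinitely many `n` have `g (φ n) x ≤ a` and infinitely many have `a + 1/(k+1) ≤ g (φ n) x`; as `φ n ∈ L k` for `n ≥ k` this contradicts the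
property of `L k`. For general `x` scale. -/
theorem subseq_of_small_osc {E : Type u} [NormedAddCommGroup E] [NormedSpace ℝ E]
    (g : ℕ → E →L[ℝ] ℝ) (K : ℝ) (hK : ∀ n, ‖g n‖ ≤ K)
    (H : ∀ δ : ℝ, 0 < δ → ∀ L : Set ℕ, L.Infinite → ∃ L' ⊆ L, L'.Infinite ∧
      ∀ x : E, ‖x‖ ≤ 1 → ∀ a : ℝ, {n ∈ L' | g n x ≤ a}.Finite ∨ {n ∈ L' | a + δ ≤ g n x}.Finite) :
    ∃ φ : ℕ → ℕ, StrictMono φ ∧ ∀ x : E, ∃ l : ℝ, Tendsto (fun n => g (φ n) x) atTop (𝓝 l) := by
  classical
  -- the nested sequence of infinite sets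
  choose! step hsub hinf hprop using
    (fun (k : ℕ) (L : Set ℕ) (hL : L.Infinite) => H (1 / ((k : ℝ) + 1)) (by positivity) L hL)
  let Ls : ℕ → Set ℕ := fun k => Nat.rec (motive := fun _ => Set ℕ) Set.univ (fun k L => step k L) k
  have hLs : ∀ k, Ls (k + 1) = step k (Ls k) := fun k => rfl
  have hLinf : ∀ k, (Ls k).Infinite := by
    intro k
    induction k with
    | zero => exact Set.infinite_univ
    | succ k ih => rw [hLs]; exact hinf k _ ih
  have hanti : Antitone Ls := antitone_nat_of_succ_le fun k => by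
    rw [hLs]; exact hsub k _ (hLinf k)
  obtain ⟨φ, hφ, hmem⟩ := Filter.extraction_forall_of_frequently
    (P := fun k m => m ∈ Ls (k + 1)) (fun k => by
      rw [Nat.frequently_atTop_iff_infinite]
      exact hLinf (k + 1))
  refine ⟨φ, hφ, ?_⟩
  have hball : ∀ x : E, ‖x‖ ≤ 1 → ∃ l : ℝ, Tendsto (fun n => g (φ n) x) atTop (𝓝 l) := by
    intro x hx
    have hbd : ∀ n, |g (φ n) x| ≤ K := by
      intro n
      have h1 := (g (φ n)).le_opNorm x
      have h2 : ‖g (φ n)‖ * ‖x‖ ≤ ‖g (φ n)‖ * 1 := mul_le_mul_of_nonneg_left hx (norm_nonneg _)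
      rw [Real.norm_eq_abs] at h1
      have h3 := hK (φ n)
      linarith
    refine tendsto_of_no_upcrossings dense_univ ?_ ?_ ?_
    · rintro a - b - hab ⟨hfa, hfb⟩
      obtain ⟨k, hk⟩ := exists_nat_one_div_lt (sub_pos.mpr hab)
      have hev : ∀ᶠ n in atTop, φ n ∈ Ls (k + 1) := by
        filter_upwards [eventually_ge_atTop k] with n hn
        exact hanti (Nat.add_le_add_right hn 1) (hmem n)
      have hP : ∀ x : E, ‖x‖ ≤ 1 → ∀ a : ℝ, {n ∈ Ls (k + 1) | g n x ≤ a}.Finite ∨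
          {n ∈ Ls (k + 1) | a + 1 / ((k : ℝ) + 1) ≤ g n x}.Finite := by
        rw [hLs]
        exact hprop k _ (hLinf k)
      rcases hP x hx a with hfin | hfin
      · have h1 := hfin.preimage (hφ.injective.injOn (s := φ ⁻¹' {n ∈ Ls (k + 1) | g n x ≤ a}))
        have h2 : ∀ᶠ n in atTop, ¬ (φ n ∈ Ls (k + 1) ∧ g (φ n) x ≤ a) := by
          rw [← Nat.cofinite_eq_atTop]
          exact h1.eventually_cofinite_notMem
        obtain ⟨n, hn1, hn2, hn3⟩ := (hfa.and_eventually (h2.and hev)).exists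
        exact hn2 ⟨hn3, hn1.le⟩
      · have h1 := hfin.preimage (hφ.injective.injOn
          (s := φ ⁻¹' {n ∈ Ls (k + 1) | a + 1 / ((k : ℝ) + 1) ≤ g n x}))
        have h2 : ∀ᶠ n in atTop, ¬ (φ n ∈ Ls (k + 1) ∧ a + 1 / ((k : ℝ) + 1) ≤ g (φ n) x) := by
          rw [← Nat.cofinite_eq_atTop]
          exact h1.eventually_cofinite_notMem
        obtain ⟨n, hn1, hn2, hn3⟩ := (hfb.and_eventually (h2.and hev)).exists
        exact hn2 ⟨hn3, by linarith⟩
    · exact isBoundedUnder_of ⟨K, fun n => (abs_le.mp (hbd n)).2⟩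
    · exact isBoundedUnder_of ⟨-K, fun n => (abs_le.mp (hbd n)).1⟩
  intro x
  have hc : (0 : ℝ) < ‖x‖ + 1 := by positivity
  obtain ⟨l, hl⟩ := hball ((‖x‖ + 1)⁻¹ • x) (by
    rw [norm_smul, norm_inv, Real.norm_of_nonneg hc.le, inv_mul_le_iff₀ hc]
    linarith)
  refine ⟨(‖x‖ + 1) * l, ?_⟩
  refine (hl.const_mul (‖x‖ + 1)).congr fun n => ?_
  rw [map_smul, smul_eq_mul, mul_inv_cancel_left₀ hc.ne']

end PolyR126
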