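import Pool.Agent.PolyR126.Defs

set_option autoImplicit false

universe u v

namespace PolyR126

open Set Metric Filter Topology

namespace I2

/-- the tree of index sets -/
noncomputable def Lt (L : Set ℕ) (P Q : Set ℕ → Set ℕ) : List Bool → Set ℕ
  | [] => L
  | (b :: s) => if b then Q (Lt L P Q s) else P (Lt L P Q s)

/-- prefixes of a branch -/
def pre (β : ℕ → Bool) : ℕ → List Bool
  | 0 => []
  | (k + 1) => β k :: pre β k

theorem pre_eq {β β' : ℕ → Bool} : ∀ k : ℕ, (∀ j < k, β j = β' j) → pre β k = pre β' k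
  | 0, _ => rfl
  | (k + 1), h => by
    change β k :: pre β k = β' k :: pre β' k
    rw [h k (Nat.lt_succ_self k), pre_eq k (fun j hj => h j (Nat.lt_succ_of_lt hj))]

theorem Lt_props (L : Set ℕ) (hL : L.Infinite) (P Q : Set ℕ → Set ℕ)
    (hP : ∀ M ⊆ L, M.Infinite → P M ⊆ M ∧ (P M).Infinite)
    (hQ : ∀ M ⊆ L, M.Infinite → Q M ⊆ M ∧ (Q M).Infinite) :
    ∀ s : List Bool, Lt L P Q s ⊆ L ∧ (Lt L P Q s).Infinite
  | [] => ⟨fun _ h => h, hL⟩
  | (b :: s) => by
    obtain ⟨h1, h2⟩ := Lt_props L hL P Q hP hQ s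
    change (if b then Q (Lt L P Q s) else P (Lt L P Q s)) ⊆ L ∧
      (if b then Q (Lt L P Q s) else P (Lt L P Q s)).Infinite
    cases b with
    | false =>
      simp only [Bool.false_eq_true, if_false]
      exact ⟨(hP _ h1 h2).1.trans h1, (hP _ h1 h2).2⟩
    | true =>
      simp only [if_true]
      exact ⟨(hQ _ h1 h2).1.trans h1, (hQ _ h1 h2).2⟩

theorem Lt_cons_subset (L : Set ℕ) (hL : L.Infinite) (P Q : Set ℕ → Set ℕ)
    (hP : ∀ M ⊆ L, M.Infinite → P M ⊆ M ∧ (P M).Infinite)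
    (hQ : ∀ M ⊆ L, M.Infinite → Q M ⊆ M ∧ (Q M).Infinite) (b : Bool) (s : List Bool) :
    Lt L P Q (b :: s) ⊆ Lt L P Q s := by
  obtain ⟨h1, h2⟩ := Lt_props L hL P Q hP hQ s
  change (if b then Q (Lt L P Q s) else P (Lt L P Q s)) ⊆ Lt L P Q s
  cases b with
  | false =>
    simp only [Bool.false_eq_true, if_false]
    exact (hP _ h1 h2).1
  | true =>
    simp only [if_true]
    exact (hQ _ h1 h2).1

theorem Lt_pre_anti (L : Set ℕ) (hL : L.Infinite) (P Q : Set ℕ → Set ℕ)
    (hP : ∀ M ⊆ L, M.Infinite → P M ⊆ M ∧ (P M).Infinite)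
    (hQ : ∀ M ⊆ L, M.Infinite → Q M ⊆ M ∧ (Q M).Infinite) (β : ℕ → Bool) :
    Antitone (fun k => Lt L P Q (pre β k)) := by
  apply antitone_nat_of_succ_le
  intro k
  exact Lt_cons_subset L hL P Q hP hQ (β k) (pre β k)

/-- ultrafilter limits of bounded sequences of functionals -/
theorem exists_limit {E : Type u} [NormedAddCommGroup E] [NormedSpace ℝ E]
    (g : ℕ → E →L[ℝ] ℝ) (K : ℝ) (hK : ∀ n, ‖g n‖ ≤ K) (n : ℕ → ℕ) :
    ∃ G : E →L[ℝ] ℝ, ∀ x, Tendsto (fun k => g (n k) x) (hyperfilter ℕ : Filter ℕ) (𝓝 (G x)) := by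
  have hb : ∀ x : E, ∃ y ∈ Set.Icc (-(K * ‖x‖)) (K * ‖x‖),
      Tendsto (fun k => g (n k) x) (hyperfilter ℕ : Filter ℕ) (𝓝 y) := by
    intro x
    have hmem : ∀ k, g (n k) x ∈ Set.Icc (-(K * ‖x‖)) (K * ‖x‖) := by
      intro k
      have h1 : ‖g (n k) x‖ ≤ K * ‖x‖ :=
        ((g (n k)).le_opNorm x).trans (mul_le_mul_of_nonneg_right (hK _) (norm_nonneg _))
      rw [Real.norm_eq_abs, abs_le] at h1
      exact h1
    have hU : ((hyperfilter ℕ).map (fun k => g (n k) x) : Filter ℝ) ≤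
        𝓟 (Set.Icc (-(K * ‖x‖)) (K * ‖x‖)) := by
      rw [le_principal_iff]
      exact Filter.mem_map.mpr (Filter.univ_mem' hmem)
    obtain ⟨y, hy, hle⟩ := isCompact_Icc.ultrafilter_le_nhds _ hU
    exact ⟨y, hy, hle⟩
  choose y hy hlim using hb
  have hadd : ∀ x x', y (x + x') = y x + y x' := by
    intro x x'
    have h1 := (hlim x).add (hlim x')
    have h2 := hlim (x + x')
    refine tendsto_nhds_unique h2 (h1.congr ?_)
    intro k
    exact ((g (n k)).map_add x x').symm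
  have hsmul : ∀ (c : ℝ) (x : E), y (c • x) = c • y x := by
    intro c x
    have h1 := (hlim x).const_smul c
    have h2 := hlim (c • x)
    refine tendsto_nhds_unique h2 (h1.congr ?_)
    intro k
    exact ((g (n k)).map_smul c x).symm
  refine ⟨LinearMap.mkContinuous ⟨⟨y, hadd⟩, hsmul⟩ K ?_, ?_⟩
  · intro x
    change ‖y x‖ ≤ K * ‖x‖
    rw [Real.norm_eq_abs, abs_le]
    exact hy x
  · intro x
    exact hlim x

theorem no_uncountable {X : Type u} [PseudoMetricSpace X] [TopologicalSpace.SeparableSpace X]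
    (δ : ℝ) (hδ : 0 < δ) (Φ : (ℕ → Bool) → X) (h : ∀ β β', β ≠ β' → δ ≤ dist (Φ β) (Φ β')) :
    False := by
  classical
  have : Nonempty X := ⟨Φ (fun _ => true)⟩
  have hd := TopologicalSpace.denseRange_denseSeq X
  have h1 : ∀ β, ∃ m : ℕ, dist (Φ β) (TopologicalSpace.denseSeq X m) < δ / 2 := by
    intro β
    exact hd.exists_dist_lt (Φ β) (half_pos hδ)
  choose m hm using h1
  have hinj : Function.Injective (fun S : Set ℕ => m (fun k => decide (k ∈ S))) := by
    intro S T hST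
    by_contra hne
    have hne' : (fun k => decide (k ∈ S)) ≠ (fun k => decide (k ∈ T)) := by
      intro he
      apply hne
      ext k
      have := congrFun he k
      simpa using this
    have h2 := h _ _ hne'
    have h3 := hm (fun k => decide (k ∈ S))
    have h4 := hm (fun k => decide (k ∈ T))
    have hST' : m (fun k => decide (k ∈ S)) = m (fun k => decide (k ∈ T)) := hST
    rw [← hST'] at h4
    have h5 := dist_triangle_right (Φ (fun k => decide (k ∈ S))) (Φ (fun k => decide (k ∈ T)))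
      (TopologicalSpace.denseSeq X (m (fun k => decide (k ∈ S))))
    linarith
  exact Function.cantor_injective _ hinj

end I2

/-- PROOF. For every infinite `L' ⊆ L` choose `x(L')`, `a(L')` by `H`. Build `L_s` for `s : List Bool`: `L_[] = L`, and `L_{s0} = {n ∈ L_s | g n x_s ≤ a_s}`,
`L_{s1} = {n ∈ L_s | a_s + δ ≤ g n x_s}`, `x_s = x(L_s)`, `a_s = a(L_s)`; all infinite. For a branch `b : ℕ → Bool` the sets `L_{b|k}` are infinite and
decreasing so there is a non-principal ultrafilter `U_b` containing all of them (e.g. an ultrafilter finer than `atTop` restricted: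
`Ultrafilter.of` of `atTop ⊓ ⨅ k, 𝓟 (L_{b|k})`, which is `NeBot`), and `G_b x = lim_{U_b} g n x` is a linear functional with `|G_b x| ≤ K ‖x‖`; so
`G_b : E →L[ℝ] ℝ`. If `b ≠ b'` first differ at `k`, `s = b|k`: one of `G_b x_s`, `G_b' x_s` is `≤ a_s` and the other `≥ a_s + δ`. Let `Y` be the closed span of
the countable set `{x_s}`; it is separable, and the restrictions of the `G_b`, `b : ℕ → Bool`, to `Y` are uncountably many elements of `Y →L[ℝ] ℝ` with
pairwise distance `≥ δ` (`‖x_s‖ ≤ 1`), contradicting `hsep Y`. -/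
theorem tree_contra {E : Type u} [NormedAddCommGroup E] [NormedSpace ℝ E]
    (hsep : ∀ Y : Submodule ℝ E, IsClosed (Y : Set E) → TopologicalSpace.SeparableSpace Y →
      TopologicalSpace.SeparableSpace (Y →L[ℝ] ℝ))
    (g : ℕ → E →L[ℝ] ℝ) (K : ℝ) (hK : ∀ n, ‖g n‖ ≤ K) (δ : ℝ) (hδ : 0 < δ) (L : Set ℕ)
    (hL : L.Infinite)
    (H : ∀ L' ⊆ L, L'.Infinite → ∃ x : E, ‖x‖ ≤ 1 ∧ ∃ a : ℝ,
      {n ∈ L' | g n x ≤ a}.Infinite ∧ {n ∈ L' | a + δ ≤ g n x}.Infinite) : False := by
  classical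
  choose! x hx a h1 h2 using H
  set P : Set ℕ → Set ℕ := fun M => {n ∈ M | g n (x M) ≤ a M} with hPdef
  set Q : Set ℕ → Set ℕ := fun M => {n ∈ M | a M + δ ≤ g n (x M)} with hQdef
  have hP : ∀ M ⊆ L, M.Infinite → P M ⊆ M ∧ (P M).Infinite :=
    fun M hM hMi => ⟨fun _ h => h.1, h1 M hM hMi⟩
  have hQ : ∀ M ⊆ L, M.Infinite → Q M ⊆ M ∧ (Q M).Infinite :=
    fun M hM hMi => ⟨fun _ h => h.1, h2 M hM hMi⟩
  have hprop := I2.Lt_props L hL P Q hP hQ
  have hne : ∀ (β : ℕ → Bool) (k : ℕ), ∃ n, n ∈ I2.Lt L P Q (I2.pre β k) :=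
    fun β k => (hprop (I2.pre β k)).2.nonempty
  choose n hn using hne
  have hG : ∀ β : ℕ → Bool, ∃ G : E →L[ℝ] ℝ,
      ∀ x, Tendsto (fun k => g (n β k) x) (hyperfilter ℕ : Filter ℕ) (𝓝 (G x)) :=
    fun β => I2.exists_limit g K hK (n β)
  choose G hG using hG
  have hev : ∀ (β : ℕ → Bool) (k : ℕ), ∀ᶠ j in (hyperfilter ℕ : Filter ℕ),
      n β j ∈ I2.Lt L P Q (I2.pre β k) := by
    intro β k
    have hge : ∀ᶠ j in (hyperfilter ℕ : Filter ℕ), k ≤ j :=
      Nat.hyperfilter_le_atTop (eventually_ge_atTop k)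
    filter_upwards [hge] with j hj
    exact I2.Lt_pre_anti L hL P Q hP hQ β hj (hn β j)
  have hfalse : ∀ (β : ℕ → Bool) (k : ℕ), β k = false →
      G β (x (I2.Lt L P Q (I2.pre β k))) ≤ a (I2.Lt L P Q (I2.pre β k)) := by
    intro β k hk
    refine le_of_tendsto (hG β _) ?_
    filter_upwards [hev β (k + 1)] with j hj
    have hj' : n β j ∈ (if β k then Q (I2.Lt L P Q (I2.pre β k)) else
      P (I2.Lt L P Q (I2.pre β k))) := hj
    rw [hk] at hj'
    simp only [Bool.false_eq_true, if_false] at hj'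
    exact hj'.2
  have htrue : ∀ (β : ℕ → Bool) (k : ℕ), β k = true →
      a (I2.Lt L P Q (I2.pre β k)) + δ ≤ G β (x (I2.Lt L P Q (I2.pre β k))) := by
    intro β k hk
    refine ge_of_tendsto (hG β _) ?_
    filter_upwards [hev β (k + 1)] with j hj
    have hj' : n β j ∈ (if β k then Q (I2.Lt L P Q (I2.pre β k)) else
      P (I2.Lt L P Q (I2.pre β k))) := hj
    rw [hk] at hj'
    simp only [if_true] at hj'
    exact hj'.2
  set S : Set E := Set.range (fun s : List Bool => x (I2.Lt L P Q s)) with hS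
  set Y : Submodule ℝ E := (Submodule.span ℝ S).topologicalClosure with hY
  have hYcl : IsClosed (Y : Set E) := Submodule.isClosed_topologicalClosure _
  have hSc : S.Countable := Set.countable_range _
  have hsepY : TopologicalSpace.IsSeparable (Y : Set E) := by
    rw [hY, Submodule.topologicalClosure_coe]
    exact (hSc.isSeparable.span (R := ℝ)).closure
  have : TopologicalSpace.SeparableSpace Y := hsepY.separableSpace
  have := hsep Y hYcl inferInstance
  have hxY : ∀ s, x (I2.Lt L P Q s) ∈ Y := by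
    intro s
    exact Submodule.le_topologicalClosure _ (Submodule.subset_span ⟨s, rfl⟩)
  refine I2.no_uncountable δ hδ (fun β => (G β).comp Y.subtypeL) ?_
  have key : ∀ (β β' : ℕ → Bool) (k : ℕ), (∀ j < k, β j = β' j) → β k = false → β' k = true →
      δ ≤ ‖(G β).comp Y.subtypeL - (G β').comp Y.subtypeL‖ := by
    intro β β' k hj hf ht
    have e1 := hfalse β k hf
    have e2 := htrue β' k ht
    rw [← I2.pre_eq k hj] at e2
    set s := I2.pre β k
    have hx1 : ‖x (I2.Lt L P Q s)‖ ≤ 1 := hx _ (hprop s).1 (hprop s).2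
    have h3 := ((G β).comp Y.subtypeL - (G β').comp Y.subtypeL).le_opNorm
      (⟨x (I2.Lt L P Q s), hxY s⟩ : Y)
    have h4 : ((G β).comp Y.subtypeL - (G β').comp Y.subtypeL)
        (⟨x (I2.Lt L P Q s), hxY s⟩ : Y) =
        G β (x (I2.Lt L P Q s)) - G β' (x (I2.Lt L P Q s)) := rfl
    rw [h4, Real.norm_eq_abs] at h3
    have h5 : ‖(⟨x (I2.Lt L P Q s), hxY s⟩ : Y)‖ ≤ 1 := hx1
    have h6 : δ ≤ |G β (x (I2.Lt L P Q s)) - G β' (x (I2.Lt L P Q s))| := by
      rw [abs_sub_comm]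
      refine le_trans ?_ (le_abs_self _)
      linarith
    have h7 : ‖(G β).comp Y.subtypeL - (G β').comp Y.subtypeL‖ *
        ‖(⟨x (I2.Lt L P Q s), hxY s⟩ : Y)‖ ≤
        ‖(G β).comp Y.subtypeL - (G β').comp Y.subtypeL‖ * 1 :=
      mul_le_mul_of_nonneg_left h5 (ContinuousLinearMap.opNorm_nonneg _)
    linarith
  intro β β' hne
  have hex : ∃ k, β k ≠ β' k := by
    by_contra hcon
    push Not at hcon
    exact hne (funext hcon)
  have hk := Nat.find_spec hex
  have hlt : ∀ j < Nat.find hex, β j = β' j := by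
    intro j hj
    by_contra hcon
    exact Nat.find_min hex hj hcon
  have hdist : ∀ F F' : Y →L[ℝ] ℝ, dist F F' = ‖F - F'‖ := fun F F' => dist_eq_norm F F'
  refine le_of_le_of_eq ?_ (hdist _ _).symm
  cases hb : β (Nat.find hex) with
  | false =>
    cases hb' : β' (Nat.find hex) with
    | false => exact absurd (hb.trans hb'.symm) hk
    | true => exact key β β' _ hlt hb hb'
  | true =>
    cases hb' : β' (Nat.find hex) with
    | true => exact absurd (hb.trans hb'.symm) hk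
    | false =>
      have h8 := key β' β _ (fun j hj => (hlt j hj).symm) hb' hb
      have h9 : ‖(G β').comp Y.subtypeL - (G β).comp Y.subtypeL‖ =
          ‖(G β).comp Y.subtypeL - (G β').comp Y.subtypeL‖ :=
        (hdist _ _).symm.trans ((dist_comm _ _).trans (hdist _ _))
      rw [← h9]
      exact h8

end PolyR126
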