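import Pool.Agent.PolyR126.Defs
import Pool.Agent.PolyR126.I1
import Pool.Agent.PolyR126.I2

set_option autoImplicit false

universe u v

namespace PolyR126

open Set Metric Filter Topology

/-- PROOF. If the hypothesis `H` of `subseq_of_small_osc` holds we get `φ`; the limits define `g'`, linear, `|g' x| ≤ K ‖x‖`. Otherwise there are
`δ > 0` and an infinite `L` such that each infinite `L' ⊆ L` has `x`, `‖x‖ ≤ 1` and `a` with both sets infinite; `tree_contra`. -/
theorem weak_star_subseq {E : Type u} [NormedAddCommGroup E] [NormedSpace ℝ E]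
    (hsep : ∀ Y : Submodule ℝ E, IsClosed (Y : Set E) → TopologicalSpace.SeparableSpace Y →
      TopologicalSpace.SeparableSpace (Y →L[ℝ] ℝ))
    (g : ℕ → E →L[ℝ] ℝ) (K : ℝ) (hK : ∀ n, ‖g n‖ ≤ K) :
    ∃ φ : ℕ → ℕ, StrictMono φ ∧ ∃ g' : E →L[ℝ] ℝ, ‖g'‖ ≤ K ∧
      ∀ x : E, Tendsto (fun n => g (φ n) x) atTop (𝓝 (g' x)) := by
  have hK0 : 0 ≤ K := (norm_nonneg _).trans (hK 0)
  by_cases H : ∀ δ : ℝ, 0 < δ → ∀ L : Set ℕ, L.Infinite → ∃ L' ⊆ L, L'.Infinite ∧
      ∀ x : E, ‖x‖ ≤ 1 → ∀ a : ℝ, {n ∈ L' | g n x ≤ a}.Finite ∨ {n ∈ L' | a + δ ≤ g n x}.Finite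
  · obtain ⟨φ, hφ, hl⟩ := subseq_of_small_osc g K hK H
    choose l hl using hl
    refine ⟨φ, hφ, ?_⟩
    have hb : ∀ x, ‖l x‖ ≤ K * ‖x‖ := fun x =>
      le_of_tendsto (hl x).norm (Filter.Eventually.of_forall fun n =>
        ((g (φ n)).le_opNorm x).trans (mul_le_mul_of_nonneg_right (hK _) (norm_nonneg x)))
    let f : E →ₗ[ℝ] ℝ :=
      { toFun := l
        map_add' := fun x y => by
          refine tendsto_nhds_unique (hl (x + y)) ?_
          have h1 := (hl x).add (hl y)
          refine h1.congr fun n => ?_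
          rw [map_add]
        map_smul' := fun c x => by
          refine tendsto_nhds_unique (hl (c • x)) ?_
          have h1 := (hl x).const_smul c
          refine h1.congr fun n => ?_
          rw [map_smul] }
    exact ⟨f.mkContinuous K hb, f.mkContinuous_norm_le hK0 hb, fun x => hl x⟩
  · exfalso
    push Not at H
    obtain ⟨δ, hδ, L, hL, H⟩ := H
    exact tree_contra hsep g K hK δ hδ L hL H

end PolyR126
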