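import Pool.Agent.PolyR126.Defs

set_option autoImplicit false

universe u v

namespace PolyR126

open Set Metric Filter Topology

/-- PROOF. `Y` is infinite-dimensional, so there is `w ≠ 0` with `φ w = 0` for all `φ ∈ G` (a linear map `Y → (G → ℝ)` is not injective). Let
`T = {t ≥ 0 | ∀ a, (∀ i, |a i| ≤ 1) → ‖∑_{i<n} a_i v_i + a_n t w‖ ≤ ρ'}`. `T` is closed, contains `0` (`ρ < ρ'`), and is bounded (`a = (0,…,0,1)` gives
`t ‖w‖ ≤ ρ'`). Let `t` be its maximum and `e = t w`. The first two conclusions are clear. If no `a` gave the value `ρ'`, then by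
compactness of the cube `[-1,1]^{n+1}` the maximum over `a` would be some `ρ'' < ρ'`, and `t + (ρ' - ρ'')/‖w‖` would still be in `T`, a contradiction. -/
theorem step_v {Y : Type u} [NormedAddCommGroup Y] [NormedSpace ℝ Y]
    (hinf : ¬ FiniteDimensional ℝ Y)
    (G : Finset (Y →L[ℝ] ℝ)) (n : ℕ) (v : ℕ → Y) (ρ ρ' : ℝ) (hρ : ρ < ρ')
    (hle : ∀ a : ℕ → ℝ, (∀ i, |a i| ≤ 1) → ‖∑ i ∈ Finset.range n, a i • v i‖ ≤ ρ) :
    ∃ e : Y, (∀ φ ∈ G, φ e = 0) ∧
      (∀ a : ℕ → ℝ, (∀ i, |a i| ≤ 1) →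
        ‖∑ i ∈ Finset.range n, a i • v i + a n • e‖ ≤ ρ') ∧
      ∃ a : ℕ → ℝ, (∀ i, |a i| ≤ 1) ∧ ‖∑ i ∈ Finset.range n, a i • v i + a n • e‖ = ρ' := by
  classical
  -- a vector killed by `G`
  obtain ⟨w, hw0, hwG⟩ : ∃ w : Y, w ≠ 0 ∧ ∀ φ ∈ G, φ w = 0 := by
    by_contra hcon
    push Not at hcon
    apply hinf
    let L : Y →ₗ[ℝ] (G → ℝ) := LinearMap.pi fun φ => (φ.1 : Y →ₗ[ℝ] ℝ)
    have hL : Function.Injective L := by
      rw [← LinearMap.ker_eq_bot, LinearMap.ker_eq_bot']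
      intro y hy
      by_contra hy0
      obtain ⟨φ, hφ, hφy⟩ := hcon y hy0
      exact hφy (congrFun hy ⟨φ, hφ⟩)
    exact FiniteDimensional.of_injective L hL
  set Kc : Set (ℕ → ℝ) := {a | ∀ i, |a i| ≤ 1} with hKc
  have hK : IsCompact Kc := by
    have : Kc = Set.pi Set.univ (fun _ => Set.Icc (-1) 1) := by
      ext a
      simp only [hKc, Set.mem_ofPred_eq, Set.mem_univ_pi, Set.mem_Icc, abs_le]
    rw [this]
    exact isCompact_univ_pi (fun _ => isCompact_Icc)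
  have hKne : Kc.Nonempty := ⟨fun _ => 0, by simp [hKc]⟩
  let f : ℝ → (ℕ → ℝ) → ℝ := fun t a => ‖∑ i ∈ Finset.range n, a i • v i + a n • (t • w)‖
  have hf : Continuous ↿f := by
    show Continuous fun p : ℝ × (ℕ → ℝ) =>
      ‖∑ i ∈ Finset.range n, p.2 i • v i + p.2 n • (p.1 • w)‖
    fun_prop
  have hft : ∀ t, Continuous (f t) := fun t => hf.comp (Continuous.prodMk_right t)
  have hbdd : ∀ t, BddAbove (f t '' Kc) := fun t => (hK.image (hft t)).bddAbove
  have hH : Continuous fun t => sSup (f t '' Kc) := hK.continuous_sSup hf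
  have hρ0 : 0 ≤ ρ := by
    have := hle (fun _ => 0) (by simp)
    simpa using this
  have hw : 0 < ‖w‖ := norm_pos_iff.2 hw0
  have hρ' : 0 ≤ ρ' / ‖w‖ := div_nonneg (by linarith) hw.le
  have h0 : sSup (f 0 '' Kc) ≤ ρ' := by
    apply csSup_le (hKne.image _)
    rintro _ ⟨a, ha, rfl⟩
    have := hle a ha
    simp only [f, zero_smul, smul_zero, add_zero]
    linarith
  have h1 : ρ' ≤ sSup (f (ρ' / ‖w‖) '' Kc) := by
    have : f (ρ' / ‖w‖) (Pi.single n 1) = ρ' := by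
      simp only [f]
      rw [Finset.sum_eq_zero, zero_add, Pi.single_eq_same, one_smul, norm_smul, Real.norm_eq_abs,
        abs_of_nonneg hρ', div_mul_cancel₀ _ hw.ne']
      intro i hi
      rw [Pi.single_eq_of_ne (by have := Finset.mem_range.1 hi; omega), zero_smul]
    conv_lhs => rw [← this]
    apply le_csSup (hbdd _)
    refine ⟨_, ?_, rfl⟩
    intro i
    by_cases hi : i = n
    · subst hi; simp
    · simp [Pi.single_eq_of_ne hi]
  obtain ⟨t, -, ht⟩ := intermediate_value_Icc hρ' hH.continuousOn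
    (⟨h0, h1⟩ : ρ' ∈ Set.Icc _ _)
  simp only at ht
  refine ⟨t • w, ?_, ?_, ?_⟩
  · intro φ hφ
    rw [map_smul, hwG φ hφ, smul_zero]
  · intro a ha
    rw [← ht]
    exact le_csSup (hbdd t) ⟨a, ha, rfl⟩
  · obtain ⟨a, ha, hae⟩ := hK.exists_sSup_image_eq hKne (hft t).continuousOn
    refine ⟨a, ha, ?_⟩
    rw [← ht, hae]

end PolyR126
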