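import Pool.Agent.PolyR126.Defs
import Pool.Agent.PolyR126.A11
import Pool.Agent.PolyR126.J1

set_option autoImplicit false

universe u v

namespace PolyR126

open Set Metric Filter Topology

namespace J2

variable {Y : Type u} [NormedAddCommGroup Y] [NormedSpace ℝ Y]

/-- the bound for the first `n` vectors -/
def Pn (n : ℕ) (v : ℕ → Y) : Prop :=
  ∀ a : ℕ → ℝ, (∀ i, |a i| ≤ 1) → ‖∑ i ∈ Finset.range n, a i • v i‖ ≤ 1 - (1 / 2 : ℝ) ^ n

/-- the properties of the next vector -/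
def Qn (f : ℕ → Y →L[ℝ] ℝ) (n : ℕ) (v : ℕ → Y) (e : Y) : Prop :=
  (∀ j ≤ n, f j e = 0) ∧
  (∀ y ∈ Submodule.span ℝ (v '' {i | i < n}), ∀ a : ℝ, ‖y‖ ≤ ‖y + a • e‖) ∧
  (∀ a : ℕ → ℝ, (∀ i, |a i| ≤ 1) →
    ‖∑ i ∈ Finset.range n, a i • v i + a n • e‖ ≤ 1 - (1 / 2 : ℝ) ^ (n + 1)) ∧
  ∃ a : ℕ → ℝ, (∀ i, |a i| ≤ 1) ∧
    ‖∑ i ∈ Finset.range n, a i • v i + a n • e‖ = 1 - (1 / 2 : ℝ) ^ (n + 1)

theorem step (hY : HP Y) (hinf : ¬ FiniteDimensional ℝ Y) (f : ℕ → Y →L[ℝ] ℝ) (n : ℕ)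
    (v : ℕ → Y) (h : Pn n v) : ∃ e, Qn f n v e := by
  classical
  have hfd : FiniteDimensional ℝ (Submodule.span ℝ (v '' {i | i < n})) :=
    FiniteDimensional.span_of_finite ℝ (Set.Finite.image _ (Set.finite_lt_nat n))
  obtain ⟨G, hG1, hG2⟩ := hY.norming _ hfd
  have hlt : 1 - (1 / 2 : ℝ) ^ n < 1 - (1 / 2 : ℝ) ^ (n + 1) := by
    have : 0 < (1 / 2 : ℝ) ^ n := by positivity
    rw [pow_succ]
    linarith
  obtain ⟨e, he1, he2, he3⟩ := step_v hinf ((Finset.range (n + 1)).image f ∪ G) n v _ _ hlt h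
  refine ⟨e, ?_, ?_, he2, he3⟩
  · intro j hj
    apply he1
    exact Finset.mem_union_left _ (Finset.mem_image_of_mem _ (Finset.mem_range.2 (by omega)))
  · intro y hy a
    obtain ⟨φ, hφ, hφy⟩ := hG2 y hy
    have h1 : φ (y + a • e) = ‖y‖ := by
      rw [map_add, map_smul, he1 φ (Finset.mem_union_right _ hφ), smul_zero, add_zero, hφy]
    rw [← h1]
    calc φ (y + a • e) ≤ ‖φ (y + a • e)‖ := Real.le_norm_self _
      _ ≤ ‖φ‖ * ‖y + a • e‖ := φ.le_opNorm _
      _ ≤ 1 * ‖y + a • e‖ := mul_le_mul_of_nonneg_right (hG1 φ hφ) (norm_nonneg _)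
      _ = ‖y + a • e‖ := one_mul _

open Classical in
/-- the next vector -/
noncomputable def nxt (f : ℕ → Y →L[ℝ] ℝ) (n : ℕ) (v : ℕ → Y) : Y :=
  if h : ∃ e, Qn f n v e then Classical.choose h else 0

/-- the approximations -/
noncomputable def St (f : ℕ → Y →L[ℝ] ℝ) : ℕ → ℕ → Y
  | 0 => fun _ => 0
  | n + 1 => Function.update (St f n) n (nxt f n (St f n))

theorem St_eq (f : ℕ → Y →L[ℝ] ℝ) (n i : ℕ) (h : i < n) :
    St f n i = nxt f i (St f i) := by
  induction n with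
  | zero => omega
  | succ n ih =>
    rw [St]
    by_cases hi : i = n
    · subst hi
      rw [Function.update_self]
    · rw [Function.update_of_ne hi, ih (by omega)]

theorem sum_congr' (n : ℕ) (v v' : ℕ → Y) (h : ∀ i < n, v i = v' i) (a : ℕ → ℝ) :
    ∑ i ∈ Finset.range n, a i • v i = ∑ i ∈ Finset.range n, a i • v' i :=
  Finset.sum_congr rfl fun i hi => by rw [h i (Finset.mem_range.1 hi)]

theorem Pn_congr (n : ℕ) (v v' : ℕ → Y) (h : ∀ i < n, v i = v' i) (hv : Pn n v) : Pn n v' := by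
  intro a ha
  rw [← sum_congr' n v v' h]
  exact hv a ha

theorem image_congr' (n : ℕ) (v v' : ℕ → Y) (h : ∀ i < n, v i = v' i) :
    v '' {i | i < n} = v' '' {i | i < n} :=
  Set.image_congr fun i hi => h i hi

theorem Qn_congr (f : ℕ → Y →L[ℝ] ℝ) (n : ℕ) (v v' : ℕ → Y) (e : Y) (h : ∀ i < n, v i = v' i)
    (hv : Qn f n v e) : Qn f n v' e := by
  obtain ⟨h1, h2, h3, a, ha, h4⟩ := hv
  refine ⟨h1, ?_, ?_, a, ha, ?_⟩
  · rw [← image_congr' n v v' h]
    exact h2
  · intro a ha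
    rw [← sum_congr' n v v' h]
    exact h3 a ha
  · rw [← sum_congr' n v v' h]
    exact h4

theorem exists_seq (hY : HP Y) (hinf : ¬ FiniteDimensional ℝ Y) (f : ℕ → Y →L[ℝ] ℝ) :
    ∃ v : ℕ → Y, ∀ n, Pn n v ∧ Qn f n v (v n) := by
  classical
  refine ⟨fun i => nxt f i (St f i), ?_⟩
  have hag : ∀ n, ∀ i < n, St f n i = (fun i => nxt f i (St f i)) i := fun n i hi => St_eq f n i hi
  have hQ : ∀ n, Pn n (St f n) → Qn f n (St f n) (nxt f n (St f n)) := by
    intro n hn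
    have hex := step hY hinf f n (St f n) hn
    rw [nxt, dif_pos hex]
    exact Classical.choose_spec hex
  have hP : ∀ n, Pn n (St f n) := by
    intro n
    induction n with
    | zero =>
      intro a _
      simp
    | succ n ih =>
      have h1 := (hQ n ih).2.2.1
      intro a ha
      rw [Finset.sum_range_succ]
      have h2 := h1 a ha
      have h3 : St f (n + 1) n = nxt f n (St f n) := St_eq f (n + 1) n (Nat.lt_succ_self n)
      have h4 : ∑ i ∈ Finset.range n, a i • St f (n + 1) i =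
          ∑ i ∈ Finset.range n, a i • St f n i := by
        apply sum_congr'
        intro i hi
        rw [St_eq f (n + 1) i (by omega), St_eq f n i hi]
      rw [h3, h4]
      exact h2
  intro n
  exact ⟨Pn_congr n _ _ (hag n) (hP n), Qn_congr f n _ _ _ (hag n) (hQ n (hP n))⟩

theorem mono_fin (v : ℕ → Y)
    (h : ∀ n, ∀ y ∈ Submodule.span ℝ (v '' {i | i < n}), ∀ a : ℝ, ‖y‖ ≤ ‖y + a • v n‖) (n : ℕ)
    (N : ℕ) : ∀ y ∈ Submodule.span ℝ (v '' {i | i < n}),
      ∀ z ∈ Submodule.span ℝ (v '' {i | n ≤ i ∧ i < N}), ‖y‖ ≤ ‖y + z‖ := by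
  induction N with
  | zero =>
    intro y _ z hz
    have h1 : {i | n ≤ i ∧ i < 0} = (∅ : Set ℕ) := by
      ext i
      simp
    rw [h1, Set.image_empty, Submodule.span_empty, Submodule.mem_bot] at hz
    rw [hz, add_zero]
  | succ N ih =>
    intro y hy z hz
    by_cases hN : n ≤ N
    · have h1 : {i | n ≤ i ∧ i < N + 1} = insert N {i | n ≤ i ∧ i < N} := by
        ext i
        simp only [Set.mem_setOf_eq, Set.mem_insert_iff]
        omega
      rw [h1, Set.image_insert_eq, Submodule.mem_span_insert] at hz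
      obtain ⟨a, z', hz', rfl⟩ := hz
      have h2 := ih y hy z' hz'
      have h3 : y + z' ∈ Submodule.span ℝ (v '' {i | i < N}) := by
        refine Submodule.add_mem _ ?_ ?_
        · refine Submodule.span_mono (Set.image_mono ?_) hy
          intro i hi
          exact lt_of_lt_of_le hi hN
        · refine Submodule.span_mono (Set.image_mono ?_) hz'
          intro i hi
          exact hi.2
      have h4 := h N _ h3 a
      have h5 : y + (a • v N + z') = y + z' + a • v N := by abel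
      rw [h5]
      exact h2.trans h4
    · have h1 : {i | n ≤ i ∧ i < N + 1} = (∅ : Set ℕ) := by
        ext i
        simp only [Set.mem_setOf_eq, Set.mem_empty_iff_false, iff_false]
        omega
      rw [h1, Set.image_empty, Submodule.span_empty, Submodule.mem_bot] at hz
      rw [hz, add_zero]

theorem exists_N (v : ℕ → Y) (n : ℕ) (z : Y) (hz : z ∈ Submodule.span ℝ (v '' {i | n ≤ i})) :
    ∃ N, z ∈ Submodule.span ℝ (v '' {i | n ≤ i ∧ i < N}) := by
  have hmono : ∀ {N M : ℕ}, N ≤ M → Submodule.span ℝ (v '' {i | n ≤ i ∧ i < N}) ≤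
      Submodule.span ℝ (v '' {i | n ≤ i ∧ i < M}) := by
    intro N M hNM
    refine Submodule.span_mono (Set.image_mono ?_)
    intro i hi
    exact ⟨hi.1, lt_of_lt_of_le hi.2 hNM⟩
  induction hz using Submodule.span_induction with
  | mem x hx =>
    obtain ⟨i, hi, rfl⟩ := hx
    exact ⟨i + 1, Submodule.subset_span ⟨i, ⟨hi, Nat.lt_succ_self i⟩, rfl⟩⟩
  | zero => exact ⟨0, Submodule.zero_mem _⟩
  | add x y _ _ hx hy =>
    obtain ⟨N, hN⟩ := hx
    obtain ⟨M, hM⟩ := hy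
    exact ⟨max N M, Submodule.add_mem _ (hmono (le_max_left _ _) hN) (hmono (le_max_right _ _) hM)⟩
  | smul a x _ hx =>
    obtain ⟨N, hN⟩ := hx
    exact ⟨N, Submodule.smul_mem _ _ hN⟩

end J2

/-- PROOF. Recursive construction with `step_v`: at stage `n` (having `v_0, …, v_{n-1}` with the last two properties at `n`) let `G_n` be the union of
`{f j | j ≤ n}` and a finite set norming `span (v_i : i < n)` (`HP.norming`), `ρ = 1 - 2^{-n}`, `ρ' = 1 - 2^{-(n+1)}`; `v_n = e`. (The recursion: e.g. build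
a sequence of functions/lists, or use strong recursion; a convenient way is to construct the finite approximations `Fin n → Y` or functions `ℕ → Y`
which agree on initial segments.) Monotonicity: for `y ∈ span (v_i : i < i0)` and `a : ℝ` some `φ ∈ G_{i0}` has `φ y = ‖y‖`, `‖φ‖ ≤ 1`, `φ v_{i0} = 0`, so
`‖y + a v_{i0}‖ ≥ φ (y + a v_{i0}) = ‖y‖`; iterate for `z = ∑_{n ≤ i < N} a_i v_i`. -/
theorem exists_v {Y : Type u} [NormedAddCommGroup Y] [NormedSpace ℝ Y] (hY : HP Y)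
    (hinf : ¬ FiniteDimensional ℝ Y) (f : ℕ → Y →L[ℝ] ℝ) :
    ∃ v : ℕ → Y, (∀ j i, j ≤ i → f j (v i) = 0) ∧
      (∀ n : ℕ, ∀ y ∈ Submodule.span ℝ (v '' {i | i < n}),
        ∀ z ∈ Submodule.span ℝ (v '' {i | n ≤ i}), ‖y‖ ≤ ‖y + z‖) ∧
      (∀ (n : ℕ) (a : ℕ → ℝ), (∀ i, |a i| ≤ 1) →
        ‖∑ i ∈ Finset.range n, a i • v i‖ ≤ 1 - (1 / 2 : ℝ) ^ n) ∧
      (∀ n : ℕ, ∃ a : ℕ → ℝ, (∀ i, |a i| ≤ 1) ∧
        ‖∑ i ∈ Finset.range n, a i • v i‖ = 1 - (1 / 2 : ℝ) ^ n) := by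
  obtain ⟨v, hv⟩ := J2.exists_seq hY hinf f
  refine ⟨v, ?_, ?_, ?_, ?_⟩
  · intro j i hji
    exact (hv i).2.1 j hji
  · intro n y hy z hz
    obtain ⟨N, hN⟩ := J2.exists_N v n z hz
    exact J2.mono_fin v (fun n => (hv n).2.2.1) n N y hy z hN
  · intro n
    exact (hv n).1
  · intro n
    cases n with
    | zero => exact ⟨fun _ => 0, fun i => by simp, by simp⟩
    | succ n =>
      obtain ⟨a, ha, h⟩ := (hv n).2.2.2.2
      refine ⟨a, ha, ?_⟩
      rw [Finset.sum_range_succ]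
      exact h

end PolyR126
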