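import Pool.Agent.PolyR126.Defs

set_option autoImplicit false

universe u v

namespace PolyR126

open Set Metric Filter Topology

/-- PROOF. Suppose not: for every `c > 0` there is `m` with `‖∑_{i ∈ Ico m n} a_i v_i‖ < c` for all `n ≥ m` and all `a` in the cube
`Q = {a : ℕ → ℝ | ∀ i, |a i| ≤ 1}`. So for `a ∈ Q` the partial sums converge to some `T a`, uniformly on `Q`; each partial sum is continuous in `a` for the
product topology, so `T` is continuous on `Q`, and `Q` is compact (Tychonoff). Let `‖T a‖` be maximal at `a* ∈ Q`. Choose `j` with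
`f j (T a*) = ‖T a*‖`. By `h1`, `f j (T a*) = f j (∑_{i<j} a*_i v_i) ≤ 1 - 2^{-j}`. But by `h4` at `n = j+1` (truncate `a` to `i ≤ j`) there is `a' ∈ Q` with
`‖T a'‖ = 1 - 2^{-(j+1)} > 1 - 2^{-j}`, contradiction. -/
theorem exists_c {Y : Type u} [NormedAddCommGroup Y] [NormedSpace ℝ Y] [CompleteSpace Y]
    (f : ℕ → Y →L[ℝ] ℝ) (hf : ∀ n, ‖f n‖ ≤ 1) (hb : ∀ y, ∃ n, f n y = ‖y‖) (v : ℕ → Y)
    (h1 : ∀ j i, j ≤ i → f j (v i) = 0)
    (h3 : ∀ (n : ℕ) (a : ℕ → ℝ), (∀ i, |a i| ≤ 1) →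
      ‖∑ i ∈ Finset.range n, a i • v i‖ ≤ 1 - (1 / 2 : ℝ) ^ n)
    (h4 : ∀ n : ℕ, ∃ a : ℕ → ℝ, (∀ i, |a i| ≤ 1) ∧
      ‖∑ i ∈ Finset.range n, a i • v i‖ = 1 - (1 / 2 : ℝ) ^ n) :
    ∃ c : ℝ, 0 < c ∧ ∀ m : ℕ, ∃ n, m ≤ n ∧ ∃ a : ℕ → ℝ, (∀ i, |a i| ≤ 1) ∧
      c ≤ ‖∑ i ∈ Finset.Ico m n, a i • v i‖ := by
  classical
  by_contra hcon
  push Not at hcon
  let S : ℕ → (ℕ → ℝ) → Y := fun n a => ∑ i ∈ Finset.range n, a i • v i
  let Q : Set (ℕ → ℝ) := {a | ∀ i, |a i| ≤ 1}
  have hQc : IsCompact Q := by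
    have : Q = Set.pi univ (fun _ : ℕ => Set.Icc (-1 : ℝ) 1) := by
      ext a
      simp only [Q, Set.mem_ofPred_eq, Set.mem_pi, Set.mem_univ, true_implies, Set.mem_Icc, abs_le]
    rw [this]
    exact isCompact_univ_pi (fun _ => isCompact_Icc)
  have hsub : ∀ (a : ℕ → ℝ) (m n : ℕ), m ≤ n → S n a - S m a = ∑ i ∈ Finset.Ico m n, a i • v i := by
    intro a m n hmn
    simp only [S]
    rw [Finset.sum_Ico_eq_sub _ hmn]
  have hUC : UniformCauchySeqOn S atTop Q := by
    rw [Metric.uniformCauchySeqOn_iff]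
    intro ε hε
    obtain ⟨m, hm⟩ := hcon (ε / 2) (by positivity)
    refine ⟨m, ?_⟩
    intro p hp q hq a ha
    have e1 := hm p hp a ha
    have e2 := hm q hq a ha
    rw [← hsub a m p hp] at e1
    rw [← hsub a m q hq] at e2
    rw [dist_eq_norm]
    have : S p a - S q a = (S p a - S m a) - (S q a - S m a) := by abel
    rw [this]
    calc ‖(S p a - S m a) - (S q a - S m a)‖ ≤ ‖S p a - S m a‖ + ‖S q a - S m a‖ := norm_sub_le _ _
      _ < ε := by linarith
  have hlim : ∀ a : ℕ → ℝ, ∃ y : Y, a ∈ Q → Tendsto (fun n => S n a) atTop (𝓝 y) := by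
    intro a
    by_cases ha : a ∈ Q
    · obtain ⟨y, hy⟩ := cauchySeq_tendsto_of_complete (hUC.cauchySeq ha)
      exact ⟨y, fun _ => hy⟩
    · exact ⟨0, fun h => absurd h ha⟩
  choose T hT using hlim
  have hTU : TendstoUniformlyOn S T atTop Q :=
    hUC.tendstoUniformlyOn_of_tendsto (fun a ha => hT a ha)
  have hScont : ∀ n, Continuous (S n) := by
    intro n
    simp only [S]
    exact continuous_finsetSum _ (fun i _ => (continuous_apply i).smul continuous_const)
  have hTc : ContinuousOn T Q :=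
    hTU.continuousOn (Filter.Eventually.frequently (Filter.Eventually.of_forall (fun n => (hScont n).continuousOn)))
  have hQne : Q.Nonempty := ⟨0, by intro i; simp⟩
  obtain ⟨b, hbQ, hbmax⟩ := hQc.exists_isMaxOn hQne hTc.norm
  obtain ⟨j, hj⟩ := hb (T b)
  -- f j (T b) = f j (S j b)
  have hstab : ∀ n, j ≤ n → f j (S n b) = f j (S j b) := by
    intro n hn
    have h := hsub b j n hn
    have : f j (S n b - S j b) = 0 := by
      rw [h, map_sum]
      apply Finset.sum_eq_zero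
      intro i hi
      rw [Finset.mem_Ico] at hi
      rw [map_smul, h1 j i hi.1, smul_zero]
    rw [map_sub, sub_eq_zero] at this
    exact this
  have hfT : f j (T b) = f j (S j b) := by
    have t1 : Tendsto (fun n => f j (S n b)) atTop (𝓝 (f j (T b))) :=
      ((f j).continuous.tendsto _).comp (hT b hbQ)
    have t2 : Tendsto (fun n => f j (S n b)) atTop (𝓝 (f j (S j b))) := by
      apply tendsto_const_nhds.congr'
      filter_upwards [eventually_ge_atTop j] with n hn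
      exact (hstab n hn).symm
    exact tendsto_nhds_unique t1 t2
  have hup : ‖T b‖ ≤ 1 - (1 / 2 : ℝ) ^ j := by
    rw [← hj, hfT]
    calc f j (S j b) ≤ ‖f j (S j b)‖ := Real.le_norm_self _
      _ ≤ ‖f j‖ * ‖S j b‖ := (f j).le_opNorm _
      _ ≤ 1 * ‖S j b‖ := mul_le_mul_of_nonneg_right (hf j) (norm_nonneg _)
      _ = ‖S j b‖ := one_mul _
      _ ≤ _ := h3 j b hbQ
  obtain ⟨a, ha, haeq⟩ := h4 (j + 1)
  let a' : ℕ → ℝ := fun i => if i < j + 1 then a i else 0
  have ha'Q : a' ∈ Q := by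
    intro i
    simp only [a']
    split_ifs
    · exact ha i
    · simp
  have hSa' : ∀ n, j + 1 ≤ n → S n a' = ∑ i ∈ Finset.range (j + 1), a i • v i := by
    intro n hn
    have hd : S (j + 1) a' = ∑ i ∈ Finset.range (j + 1), a i • v i := by
      simp only [S]
      apply Finset.sum_congr rfl
      intro i hi
      rw [Finset.mem_range] at hi
      simp only [a', if_pos hi]
    have h := hsub a' (j + 1) n hn
    have h0 : ∑ i ∈ Finset.Ico (j + 1) n, a' i • v i = 0 := by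
      apply Finset.sum_eq_zero
      intro i hi
      rw [Finset.mem_Ico] at hi
      have : ¬ i < j + 1 := by omega
      simp only [a', if_neg this, zero_smul]
    rw [h0, sub_eq_zero] at h
    rw [h, hd]
  have hTa' : T a' = ∑ i ∈ Finset.range (j + 1), a i • v i := by
    have t2 : Tendsto (fun n => S n a') atTop (𝓝 (∑ i ∈ Finset.range (j + 1), a i • v i)) := by
      apply tendsto_const_nhds.congr'
      filter_upwards [eventually_ge_atTop (j + 1)] with n hn
      exact (hSa' n hn).symm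
    exact tendsto_nhds_unique (hT a' ha'Q) t2
  have hlow : ‖T a'‖ = 1 - (1 / 2 : ℝ) ^ (j + 1) := by rw [hTa', haeq]
  have hle : ‖T a'‖ ≤ ‖T b‖ := hbmax ha'Q
  have hpow : (0 : ℝ) < (1 / 2 : ℝ) ^ j := by positivity
  rw [hlow, pow_succ] at hle
  linarith

end PolyR126
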