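import Pool.Agent.PolyR126.Defs

set_option autoImplicit false

universe u v

namespace PolyR126

open Set Metric Filter Topology

namespace J4

/-- a norm bound against a subspace gives a functional -/
theorem exists_fun {E : Type u} [NormedAddCommGroup E] [NormedSpace ℝ E] (V : Submodule ℝ E)
    (x : E) (c : ℝ) (hc : 0 < c) (h : ∀ w ∈ V, c / 2 ≤ ‖x + w‖) :
    ∃ g : E →L[ℝ] ℝ, ‖g‖ ≤ 2 / c ∧ g x = 1 ∧ ∀ w ∈ V, g w = 0 := by
  have hr : c / 2 ≤ ‖(Submodule.Quotient.mk x : E ⧸ V)‖ := by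
    refine (QuotientAddGroup.le_norm_iff (S := V.toAddSubgroup)).mpr ?_
    intro m hm
    have h1 : (Submodule.Quotient.mk m : E ⧸ V) = Submodule.Quotient.mk x := hm
    rw [Submodule.Quotient.eq] at h1
    have h2 := h (m - x) h1
    rwa [add_sub_cancel] at h2
  set r : ℝ := ‖(Submodule.Quotient.mk x : E ⧸ V)‖ with hrdef
  have hr0 : 0 < r := lt_of_lt_of_le (by positivity) hr
  obtain ⟨φ, hφ1, hφ2⟩ := exists_dual_vector ℝ (Submodule.Quotient.mk x : E ⧸ V) hr0.ne'
  let f : E →ₗ[ℝ] ℝ := r⁻¹ • (φ.toLinearMap ∘ₗ V.mkQ)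
  have hf : ∀ y, f y = r⁻¹ * φ (Submodule.Quotient.mk y) := fun y => rfl
  have hb : ∀ y, ‖f y‖ ≤ 2 / c * ‖y‖ := by
    intro y
    rw [hf, norm_mul, norm_inv, Real.norm_of_nonneg hr0.le]
    have h1 : ‖φ (Submodule.Quotient.mk y : E ⧸ V)‖ ≤ ‖y‖ := by
      calc ‖φ (Submodule.Quotient.mk y : E ⧸ V)‖
          ≤ ‖φ‖ * ‖(Submodule.Quotient.mk y : E ⧸ V)‖ := φ.le_opNorm _
        _ = ‖(Submodule.Quotient.mk y : E ⧸ V)‖ := by rw [hφ1, one_mul]
        _ ≤ ‖y‖ := Submodule.Quotient.norm_mk_le _ _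
    have h2 : r⁻¹ ≤ 2 / c := by
      rw [inv_le_comm₀ hr0 (by positivity), inv_div]
      exact hr
    exact mul_le_mul h2 h1 (norm_nonneg _) (by positivity)
  refine ⟨f.mkContinuous (2 / c) hb, LinearMap.mkContinuous_norm_le f (by positivity) hb, ?_, ?_⟩
  · change f x = 1
    rw [hf, hφ2]
    exact inv_mul_cancel₀ hr0.ne'
  · intro w hw
    change f w = 0
    rw [hf, (Submodule.Quotient.mk_eq_zero V).mpr hw, map_zero, mul_zero]

theorem sum_blocks {F : Type u} [AddCommMonoid F] (M : ℕ → ℕ) (hM : StrictMono M) (h0 : M 0 = 0)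
    (f : ℕ → F) (K : ℕ) :
    ∑ i ∈ Finset.range (M K), f i = ∑ k ∈ Finset.range K, ∑ i ∈ Finset.Ico (M k) (M (k + 1)), f i := by
  induction K with
  | zero => simp [h0]
  | succ K ih =>
    rw [Finset.sum_range_succ, ← ih, Finset.range_eq_Ico, Finset.range_eq_Ico,
      Finset.sum_Ico_consecutive f (Nat.zero_le _) (hM.monotone (Nat.le_succ K))]

/-- the block of an index -/
def blk (M : ℕ → ℕ) (i : ℕ) : ℕ := Nat.findGreatest (fun k => M k ≤ i) i

theorem blk_eq (M : ℕ → ℕ) (hM : StrictMono M) (k i : ℕ) (hi : i ∈ Finset.Ico (M k) (M (k + 1))) :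
    blk M i = k := by
  rw [Finset.mem_Ico] at hi
  have hk : k ≤ i := le_trans (hM.le_apply) hi.1
  apply le_antisymm
  · by_contra hcon
    push Not at hcon
    have h1 : M (blk M i) ≤ i := Nat.findGreatest_spec (P := fun k => M k ≤ i) hk hi.1
    have h2 : M (k + 1) ≤ M (blk M i) := hM.monotone hcon
    omega
  · exact Nat.le_findGreatest hk hi.1

end J4

/-- PROOF. By `h5` choose `0 = m_0 < m_1 < …` (`n > m` is automatic because `c > 0`) and `a` with `u_k = ∑_{i ∈ Ico m_k m_{k+1}} a_i v_i`, `‖u_k‖ ≥ c` (one sequence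
`a` for all blocks, since the blocks are disjoint). If `|b_k| ≤ C` for `k ∈ A` then `∑_{k∈A} b_k u_k = C ∑_{i<M} a'_i v_i` with `|a'_i| ≤ 1`, so the norm is `≤ C`
(`C = 0` is trivial). For `w ∈ span {u_m | m ≠ k}`: `w = w₁ + w₂`, `w₁ ∈ span {u_m | m < k}`, `w₂ ∈ span {u_m | m > k}`. By `h2` (at `n = m_{k+1}`)
`‖u_k + w‖ ≥ ‖u_k + w₁‖` and (at `n = m_k`) `‖u_k + w₁‖ ≥ ‖w₁‖ ≥ ‖u_k‖ - ‖u_k + w₁‖`. So `‖u_k + w‖ ≥ c/2`, i.e. the distance of `u_k` to
the closed span `V_k` of `{u_m | m ≠ k}` is `≥ c/2`. Hahn-Banach (in the quotient `E ⧸ V_k`, or with `exists_dual_vector`) gives `g_k` with `g_k = 0` on `V_k`,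
`g_k u_k = 1`, `‖g_k‖ ≤ 2/c`. -/
theorem blocks_biorth {E : Type u} [NormedAddCommGroup E] [NormedSpace ℝ E] (v : ℕ → E)
    (h2 : ∀ n : ℕ, ∀ y ∈ Submodule.span ℝ (v '' {i | i < n}),
      ∀ z ∈ Submodule.span ℝ (v '' {i | n ≤ i}), ‖y‖ ≤ ‖y + z‖)
    (h3 : ∀ (n : ℕ) (a : ℕ → ℝ), (∀ i, |a i| ≤ 1) → ‖∑ i ∈ Finset.range n, a i • v i‖ ≤ 1)
    (c : ℝ) (hc : 0 < c)
    (h5 : ∀ m : ℕ, ∃ n, m ≤ n ∧ ∃ a : ℕ → ℝ, (∀ i, |a i| ≤ 1) ∧
      c ≤ ‖∑ i ∈ Finset.Ico m n, a i • v i‖) :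
    ∃ (u : ℕ → E) (g : ℕ → E →L[ℝ] ℝ) (K : ℝ), (∀ n, ‖g n‖ ≤ K) ∧
      (∀ n m, g n (u m) = if n = m then 1 else 0) ∧
      ∀ (A : Finset ℕ) (a : ℕ → ℝ) (C : ℝ), (∀ n ∈ A, |a n| ≤ C) → 0 ≤ C →
        ‖∑ n ∈ A, a n • u n‖ ≤ C := by
  classical
  choose nx hnx al hal1 hal2 using h5
  set M : ℕ → ℕ := fun k => Nat.rec 0 (fun _ m => nx m) k with hMdef
  have hM0 : M 0 = 0 := rfl
  have hMs : ∀ k, M (k + 1) = nx (M k) := fun k => rfl
  have hlt : ∀ m, m < nx m := by
    intro m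
    rcases (hnx m).lt_or_eq with h | h
    · exact h
    · exfalso
      have := hal2 m
      rw [← h] at this
      simp at this
      linarith
  have hM : StrictMono M := strictMono_nat_of_lt_succ fun k => by rw [hMs]; exact hlt _
  set u : ℕ → E := fun k => ∑ i ∈ Finset.Ico (M k) (M (k + 1)), al (M k) i • v i with hu
  have huc : ∀ k, c ≤ ‖u k‖ := by
    intro k
    rw [hu]
    simp only
    rw [hMs]
    exact hal2 (M k)
  have hulow : ∀ k N, M (k + 1) ≤ N → u k ∈ Submodule.span ℝ (v '' {i | i < N}) := by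
    intro k N hN
    rw [hu]
    refine Submodule.sum_mem _ fun i hi => Submodule.smul_mem _ _ (Submodule.subset_span ?_)
    rw [Finset.mem_Ico] at hi
    exact ⟨i, by simp only [Set.mem_ofPred_eq]; omega, rfl⟩
  have huhigh : ∀ k N, N ≤ M k → u k ∈ Submodule.span ℝ (v '' {i | N ≤ i}) := by
    intro k N hN
    rw [hu]
    refine Submodule.sum_mem _ fun i hi => Submodule.smul_mem _ _ (Submodule.subset_span ?_)
    rw [Finset.mem_Ico] at hi
    exact ⟨i, by simp only [Set.mem_ofPred_eq]; omega, rfl⟩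
  have hdist : ∀ k, ∀ w ∈ Submodule.span ℝ (u '' {m | m ≠ k}), c / 2 ≤ ‖u k + w‖ := by
    intro k w hw
    have hsplit : Submodule.span ℝ (u '' {m | m ≠ k}) ≤
        Submodule.span ℝ (v '' {i | i < M k}) ⊔ Submodule.span ℝ (v '' {i | M (k + 1) ≤ i}) := by
      rw [Submodule.span_le]
      rintro _ ⟨m, hm, rfl⟩
      rcases lt_or_gt_of_ne hm with h | h
      · exact Submodule.mem_sup_left (hulow m (M k) (hM.monotone h))
      · exact Submodule.mem_sup_right (huhigh m (M (k + 1)) (hM.monotone h))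
    obtain ⟨w₁, hw₁, w₂, hw₂, rfl⟩ := Submodule.mem_sup.mp (hsplit hw)
    have hmono : Submodule.span ℝ (v '' {i | i < M k}) ≤
        Submodule.span ℝ (v '' {i | i < M (k + 1)}) := by
      apply Submodule.span_mono
      apply Set.image_mono
      intro i hi
      simp only [Set.mem_ofPred_eq] at hi ⊢
      exact lt_of_lt_of_le hi (hM.monotone (Nat.le_succ k))
    have e1 := h2 (M (k + 1)) (u k + w₁)
      (Submodule.add_mem _ (hulow k (M (k + 1)) le_rfl) (hmono hw₁)) w₂ hw₂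
    have e2 := h2 (M k) w₁ hw₁ (u k) (huhigh k (M k) le_rfl)
    have e3 : ‖u k‖ ≤ ‖u k + w₁‖ + ‖w₁‖ := by
      calc ‖u k‖ = ‖(u k + w₁) - w₁‖ := by rw [add_sub_cancel_right]
        _ ≤ _ := norm_sub_le _ _
    have e4 := huc k
    rw [add_comm w₁ (u k)] at e2
    rw [add_assoc] at e1
    linarith
  have hg : ∀ k, ∃ g : E →L[ℝ] ℝ, ‖g‖ ≤ 2 / c ∧ g (u k) = 1 ∧
      ∀ w ∈ Submodule.span ℝ (u '' {m | m ≠ k}), g w = 0 := fun k =>
    J4.exists_fun _ (u k) c hc (hdist k)
  choose g hg1 hg2 hg3 using hg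
  refine ⟨u, g, 2 / c, hg1, ?_, ?_⟩
  · intro n m
    split_ifs with h
    · subst h; exact hg2 n
    · exact hg3 n (u m) (Submodule.subset_span ⟨m, Ne.symm h, rfl⟩)
  · intro A a C hA hC
    rcases hC.eq_or_lt with h0 | hCpos
    · subst h0
      have : ∑ n ∈ A, a n • u n = 0 := by
        refine Finset.sum_eq_zero fun n hn => ?_
        have h1 := hA n hn
        have h2 : a n = 0 := abs_eq_zero.mp (le_antisymm h1 (abs_nonneg _))
        rw [h2, zero_smul]
      rw [this, norm_zero]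
    · set K : ℕ := A.sup id + 1 with hK
      have hAK : A ⊆ Finset.range K := by
        intro n hn
        rw [Finset.mem_range, hK]
        exact Nat.lt_succ_of_le (Finset.le_sup (f := id) hn)
      set b : ℕ → ℝ := fun i => (if J4.blk M i ∈ A then a (J4.blk M i) / C else 0) *
        al (M (J4.blk M i)) i with hb
      have hb1 : ∀ i, |b i| ≤ 1 := by
        intro i
        rw [hb]
        simp only
        rw [abs_mul]
        have h1 := hal1 (M (J4.blk M i)) i
        have h2 : |if J4.blk M i ∈ A then a (J4.blk M i) / C else 0| ≤ 1 := by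
          split_ifs with h
          · rw [abs_div, abs_of_pos hCpos, div_le_one hCpos]
            exact hA _ h
          · simp
        calc _ ≤ (1 : ℝ) * 1 := mul_le_mul h2 h1 (abs_nonneg _) zero_le_one
          _ = 1 := one_mul 1
      have h4 := h3 (M K) b hb1
      have h5 : ∑ i ∈ Finset.range (M K), b i • v i = C⁻¹ • ∑ n ∈ A, a n • u n := by
        rw [J4.sum_blocks M hM hM0 (fun i => b i • v i) K, Finset.smul_sum,
          ← Finset.sum_subset hAK
          (f := fun k => ∑ i ∈ Finset.Ico (M k) (M (k + 1)), b i • v i)]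
        · refine Finset.sum_congr rfl fun n hn => ?_
          rw [hu]
          simp only
          rw [Finset.smul_sum, Finset.smul_sum]
          refine Finset.sum_congr rfl fun i hi => ?_
          rw [hb]
          simp only
          rw [J4.blk_eq M hM n i hi, if_pos hn, smul_smul, smul_smul]
          congr 1
          rw [div_eq_mul_inv]
          ring
        · intro k _ hk
          refine Finset.sum_eq_zero fun i hi => ?_
          rw [hb]
          simp only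
          rw [J4.blk_eq M hM k i hi, if_neg hk, zero_mul, zero_smul]
      rw [h5, norm_smul, norm_inv, Real.norm_of_nonneg hCpos.le, inv_mul_le_iff₀ hCpos,
        mul_one] at h4
      exact h4

end PolyR126
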