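import Pool.Agent.PolyR126.Defs
import Pool.Agent.PolyR126.B
import Pool.Agent.PolyR126.C4
import Pool.Agent.PolyR126.D1
import Pool.Agent.PolyR126.H1

set_option autoImplicit false

universe u v

namespace PolyR126

open Set Metric Filter Topology

/-- PROOF. By `countable_facets` the set `{f | ∃ w, Fac f w}` is countable; add `0` and enumerate it as `f 0, f 1, …`; `‖f n‖ ≤ 1` by `Fac.norm_le`. For
`y : Y` use `bp` with the subspace `⊤` (its density hypothesis is `dense_facets`). -/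
theorem exists_boundary {Y : Type u} [NormedAddCommGroup Y] [NormedSpace ℝ Y] [CompleteSpace Y]
    [TopologicalSpace.SeparableSpace Y] (hY : HP Y) :
    ∃ f : ℕ → Y →L[ℝ] ℝ, (∀ n, ‖f n‖ ≤ 1) ∧ ∀ y, ∃ n, f n y = ‖y‖ := by
  have hc : ({f : Y →L[ℝ] ℝ | ∃ w : Y, Fac f w} ∪ {0}).Countable :=
    countable_facets.union (Set.countable_singleton 0)
  obtain ⟨f, hf⟩ := hc.exists_eq_range ⟨0, Or.inr rfl⟩
  refine ⟨f, fun n => ?_, fun y => ?_⟩
  · have : f n ∈ ({f : Y →L[ℝ] ℝ | ∃ w : Y, Fac f w} ∪ {0}) := by rw [hf]; exact ⟨n, rfl⟩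
    rcases this with ⟨w, hw⟩ | h0
    · exact hw.norm_le
    · rw [mem_singleton_iff.1 h0, norm_zero]; exact zero_le_one
  · obtain ⟨w, -, g, hg, -, hgy⟩ := bp hY ⊤ isClosed_univ (fun y _ ε hε => by
      obtain ⟨w, hw, g, hg⟩ := dense_facets hY y ε hε
      exact ⟨w, Submodule.mem_top, hw, g, hg⟩) y Submodule.mem_top 1 one_pos
    have : g ∈ Set.range f := by rw [← hf]; exact Or.inl ⟨w, hg⟩
    obtain ⟨n, rfl⟩ := this
    exact ⟨n, hgy⟩

end PolyR126
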