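import Pool.Agent.PolyR126.Defs

set_option autoImplicit false

universe u v

namespace PolyR126

open Set Metric Filter Topology

/-- PROOF. There is a linearly independent sequence in `E`; take the closure of its span. -/
theorem exists_separable_sub {E : Type u} [NormedAddCommGroup E] [NormedSpace ℝ E]
    (hinf : ¬ FiniteDimensional ℝ E) :
    ∃ Y : Submodule ℝ E, IsClosed (Y : Set E) ∧ TopologicalSpace.SeparableSpace Y ∧
      ¬ FiniteDimensional ℝ Y := by
  classical
  let b := Module.Basis.ofVectorSpace ℝ E
  have hInf : Infinite (Module.Basis.ofVectorSpaceIndex ℝ E) := by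
    by_contra h
    rw [not_infinite_iff_finite] at h
    exact hinf (Module.Finite.of_basis b)
  let e := Infinite.natEmbedding (Module.Basis.ofVectorSpaceIndex ℝ E)
  have hv : LinearIndependent ℝ (fun n : ℕ => b (e n)) := b.linearIndependent.comp e e.injective
  refine ⟨(Submodule.span ℝ (Set.range fun n : ℕ => b (e n))).topologicalClosure,
    Submodule.isClosed_topologicalClosure _, ?_, ?_⟩
  · have h1 : TopologicalSpace.IsSeparable (Set.range fun n : ℕ => b (e n)) :=
      (Set.countable_range _).isSeparable
    have h2 : TopologicalSpace.IsSeparable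
        ((Submodule.span ℝ (Set.range fun n : ℕ => b (e n)) : Submodule ℝ E) : Set E) := h1.span
    have h3 := h2.closure
    exact h3.separableSpace
  · intro hfin
    have hmem : ∀ n : ℕ, b (e n) ∈ (Submodule.span ℝ (Set.range fun n : ℕ => b (e n))).topologicalClosure :=
      fun n => Submodule.le_topologicalClosure _ (Submodule.subset_span ⟨n, rfl⟩)
    have hv' : LinearIndependent ℝ (fun n : ℕ =>
        (⟨b (e n), hmem n⟩ : (Submodule.span ℝ (Set.range fun n : ℕ => b (e n))).topologicalClosure)) := by
      refine LinearIndependent.of_comp (Submodule.subtype _) ?_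
      exact hv
    have := hv'.finite_of_isNoetherian
    exact not_finite ℕ

end PolyR126
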