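import Pool.Agent.PolyR126.Defs
import Pool.Agent.PolyR126.A5
import Pool.Agent.PolyR126.J2
import Pool.Agent.PolyR126.J3
import Pool.Agent.PolyR126.J4
import Pool.Agent.PolyR126.J5
import Pool.Agent.PolyR126.J6

set_option autoImplicit false

universe u v

namespace PolyR126

open Set Metric Filter Topology

/-- PROOF. Take `Y` from `exists_separable_sub` (complete, `HP Y` by `HP.submodule`), `f` from `exists_boundary`, `v` from `exists_v` in `Y`, `c` from
`exists_c`; then view `v` in `E` (norms and spans are the same) and apply `blocks_biorth` in `E`. -/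
theorem exists_c0_blocks {E : Type u} [NormedAddCommGroup E] [NormedSpace ℝ E] [CompleteSpace E]
    (hE : HP E) (hinf : ¬ FiniteDimensional ℝ E) :
    ∃ (u : ℕ → E) (g : ℕ → E →L[ℝ] ℝ) (K : ℝ), (∀ n, ‖g n‖ ≤ K) ∧
      (∀ n m, g n (u m) = if n = m then 1 else 0) ∧
      ∀ (A : Finset ℕ) (a : ℕ → ℝ) (C : ℝ), (∀ n ∈ A, |a n| ≤ C) → 0 ≤ C →
        ‖∑ n ∈ A, a n • u n‖ ≤ C := by
  obtain ⟨Y, hYc, hsep, hYinf⟩ := exists_separable_sub (E := E) hinf
  have : CompleteSpace Y := hYc.completeSpace_coe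
  have := hsep
  have hHY : HP Y := HP.submodule hE Y
  obtain ⟨f, hf, hb⟩ := exists_boundary hHY
  obtain ⟨v, h1, h2, h3, h4⟩ := exists_v hHY hYinf f
  obtain ⟨c, hc, h5⟩ := exists_c f hf hb v h1 h3 h4
  have hsp : ∀ (S : Set ℕ) (y : E), y ∈ Submodule.span ℝ ((fun i => (v i : E)) '' S) →
      ∃ y' : Y, (y' : E) = y ∧ y' ∈ Submodule.span ℝ (v '' S) := by
    intro S y hy
    have himg : (fun i => (v i : E)) '' S = Y.subtype '' (v '' S) := by
      rw [Set.image_image]; rfl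
    rw [himg, ← Submodule.map_span] at hy
    obtain ⟨y', hy', he⟩ := hy
    exact ⟨y', he, hy'⟩
  have hsum : ∀ (A : Finset ℕ) (a : ℕ → ℝ), ‖∑ i ∈ A, a i • (v i : E)‖ = ‖∑ i ∈ A, a i • v i‖ := by
    intro A a
    rw [show ∑ i ∈ A, a i • (v i : E) = ((∑ i ∈ A, a i • v i : Y) : E) by simp]
    rfl
  refine blocks_biorth (fun i => (v i : E)) ?_ ?_ c hc ?_
  · intro n y hy z hz
    obtain ⟨y', rfl, hy'⟩ := hsp _ y hy
    obtain ⟨z', rfl, hz'⟩ := hsp _ z hz
    have := h2 n y' hy' z' hz'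
    simpa using this
  · intro n a ha
    rw [hsum]
    refine le_trans (h3 n a ha) ?_
    have : (0 : ℝ) ≤ (1 / 2 : ℝ) ^ n := by positivity
    linarith
  · intro m
    obtain ⟨n, hmn, a, ha, hca⟩ := h5 m
    refine ⟨n, hmn, a, ha, ?_⟩
    rw [hsum]
    exact hca

end PolyR126
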