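import Pool.Agent.PolyR126.Defs
import Pool.Agent.PolyR126.A5
import Pool.Agent.PolyR126.H2
import Pool.Agent.PolyR126.I3
import Pool.Agent.PolyR126.J7

set_option autoImplicit false

universe u v

namespace PolyR126

open Set Metric Filter Topology

/-- PROOF. Take `u, g, K` from `exists_c0_blocks`. Every closed separable subspace `Y` of `E` is complete and `HP`, so its dual is separable
(`separable_dual`). `weak_star_subseq` gives `φ` and `g'` with `g (φ n) x → g' x`. For each `m`, `g (φ n) (u m) = 0` for large `n`, so `g' (u m) = 0`. Take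
`e n = u (φ (2n))`, `k n = g (φ (2n)) - g'` (norm `≤ 2K`), `y m = u (φ (2m+1))`; `y` is linearly independent because of the functionals `g (φ (2m+1))`. -/
theorem exists_sequences {E : Type u} [NormedAddCommGroup E] [NormedSpace ℝ E] [CompleteSpace E]
    (hE : HP E) (hinf : ¬ FiniteDimensional ℝ E) :
    ∃ (e : ℕ → E) (k : ℕ → E →L[ℝ] ℝ) (K : ℝ), (∀ n, ‖k n‖ ≤ K) ∧
      (∀ n m, k n (e m) = if n = m then 1 else 0) ∧
      (∀ (A : Finset ℕ) (a : ℕ → ℝ) (C : ℝ), (∀ n ∈ A, |a n| ≤ C) → 0 ≤ C →
        ‖∑ n ∈ A, a n • e n‖ ≤ C) ∧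
      (∀ x : E, Tendsto (fun n => k n x) atTop (𝓝 0)) ∧
      ∃ y : ℕ → E, LinearIndependent ℝ y ∧ ∀ n m, k n (y m) = 0 := by
  classical
  obtain ⟨u, g, K, hK, hgu, hsum⟩ := exists_c0_blocks hE hinf
  have hsep : ∀ Y : Submodule ℝ E, IsClosed (Y : Set E) → TopologicalSpace.SeparableSpace Y →
      TopologicalSpace.SeparableSpace (Y →L[ℝ] ℝ) := by
    intro Y hY hYs
    have hc : CompleteSpace Y := hY.completeSpace_coe
    exact separable_dual (hE.submodule Y)
  obtain ⟨φ, hφ, g', hg'K, hlim⟩ := weak_star_subseq hsep g K hK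
  have hg'u : ∀ m, g' (u m) = 0 := by
    intro m
    refine tendsto_nhds_unique (hlim (u m)) (tendsto_const_nhds.congr' ?_)
    filter_upwards [eventually_gt_atTop m] with n hn
    have h1 : φ n ≠ m := by
      have := hφ.le_apply (x := n)
      omega
    rw [hgu, if_neg h1]
  have hinj := hφ.injective
  have hψ : Function.Injective (fun n : ℕ => φ (2 * n)) := fun a b hab => by
    have := hinj hab
    omega
  refine ⟨fun n => u (φ (2 * n)), fun n => g (φ (2 * n)) - g', K + K, ?_, ?_, ?_, ?_, ?_⟩
  · intro n
    exact (norm_sub_le _ _).trans (add_le_add (hK _) hg'K)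
  · intro n m
    rw [sub_apply, hg'u, sub_zero, hgu]
    by_cases h : n = m
    · subst h
      simp
    · rw [if_neg h, if_neg]
      exact fun h' => h (hψ h')
  · intro A a C hA hC
    have h1 := hsum (A.image (fun n : ℕ => φ (2 * n)))
      (Function.extend (fun n : ℕ => φ (2 * n)) a 0) C (by
        intro j hj
        obtain ⟨n, hn, rfl⟩ := Finset.mem_image.mp hj
        rw [hψ.extend_apply]
        exact hA n hn) hC
    rw [Finset.sum_image (fun x _ y _ hxy => hψ hxy)] at h1
    simp only [hψ.extend_apply] at h1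
    exact h1
  · intro x
    have h1 : Tendsto (fun n : ℕ => 2 * n) atTop atTop :=
      tendsto_id.const_mul_atTop' (by norm_num)
    have h2 := ((hlim x).comp h1).sub_const (g' x)
    rw [sub_self] at h2
    exact h2
  · refine ⟨fun m => u (φ (2 * m + 1)), ?_, ?_⟩
    · rw [linearIndependent_iff']
      intro s c hs i hi
      have h1 := congrArg (g (φ (2 * i + 1))) hs
      rw [map_sum, map_zero] at h1
      rw [Finset.sum_eq_single i] at h1
      · rw [map_smul, hgu, if_pos rfl, smul_eq_mul, mul_one] at h1
        exact h1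
      · intro j _ hji
        rw [map_smul, hgu, if_neg, smul_zero]
        intro h'
        have := hinj h'
        omega
      · intro h'
        exact absurd hi h'
    · intro n m
      rw [sub_apply, hg'u, sub_zero, hgu, if_neg]
      intro h'
      have := hinj h'
      omega

end PolyR126
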