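import Pool.Agent.PolyR126.Defs

set_option autoImplicit false

universe u v

namespace PolyR126

open Set Metric Filter Topology

/-- PROOF. For each `x` and `m` the series `∑_{n ≥ m} k_n(x) e_n` converges: by `hc0` its partial sums are Cauchy because `k_n(x) → 0`. Put
`R m x = x - ∑_{n ≥ m} k_n(x) e_n`; it is linear, and `‖x - R m x‖ ≤ sup_{n≥m} |k_n x| ≤ K ‖x‖`, so bounded. All properties are immediate
(`k_n` is continuous, so `k_j(∑_{n ≥ m} k_n(x) e_n) = k_j(x)` if `j ≥ m` and `0` otherwise). -/
theorem exists_R {E : Type u} [NormedAddCommGroup E] [NormedSpace ℝ E] [CompleteSpace E]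
    (e : ℕ → E) (k : ℕ → E →L[ℝ] ℝ) (K : ℝ) (hK : ∀ n, ‖k n‖ ≤ K)
    (bi : ∀ n m, k n (e m) = if n = m then 1 else 0)
    (hc0 : ∀ (A : Finset ℕ) (a : ℕ → ℝ) (C : ℝ), (∀ n ∈ A, |a n| ≤ C) → 0 ≤ C →
      ‖∑ n ∈ A, a n • e n‖ ≤ C)
    (hlim : ∀ x : E, Tendsto (fun n => k n x) atTop (𝓝 0)) :
    ∃ R : ℕ → E →L[ℝ] E,
      (∀ m n, m ≤ n → R m (e n) = 0) ∧ (∀ m n, m ≤ n → ∀ x, k n (R m x) = 0) ∧
      (∀ m x, (∀ n, m ≤ n → k n x = 0) → R m x = x) ∧
      (∀ x, Tendsto (fun m => R m x) atTop (𝓝 x)) ∧
      (∀ m x, R (m + 1) x = R m x + k m x • e m) ∧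
      (∀ m x, R m (R (m + 1) x) = R m x) ∧
      (∀ x C, (∀ n, |k n x| ≤ C) → ‖x - R 0 x‖ ≤ C) := by
  have hK0 : 0 ≤ K := (norm_nonneg _).trans (hK 0)
  let f : ℕ → E → ℕ → E := fun m x n => if m ≤ n then k n x • e n else 0
  have hf : ∀ m x n, f m x n = if m ≤ n then k n x • e n else 0 := fun _ _ _ => rfl
  have hfin : ∀ m x C (A : Finset ℕ), 0 ≤ C → (∀ n ∈ A, m ≤ n → |k n x| ≤ C) →
      ‖∑ n ∈ A, f m x n‖ ≤ C := by
    intro m x C A hC h
    have h1 := hc0 A (fun n => if m ≤ n then k n x else 0) C (by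
      intro n hn
      split_ifs with h2
      · exact h n hn h2
      · simpa using hC) hC
    have h2 : ∑ n ∈ A, f m x n = ∑ n ∈ A, (if m ≤ n then k n x else 0) • e n := by
      apply Finset.sum_congr rfl
      intro n hn
      rw [hf]
      split_ifs <;> simp
    rw [h2]
    exact h1
  have hsum : ∀ m x, Summable (f m x) := by
    intro m x
    rw [summable_iff_vanishing_norm]
    intro ε hε
    obtain ⟨N, hN⟩ := (Metric.tendsto_atTop.1 (hlim x)) (ε / 2) (by positivity)
    refine ⟨Finset.range N, fun t ht => ?_⟩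
    refine lt_of_le_of_lt (hfin m x (ε / 2) t (by positivity) ?_) (by linarith)
    intro n hn hmn
    have h3 : N ≤ n := by
      by_contra h
      exact Finset.disjoint_left.1 ht hn (Finset.mem_range.2 (by omega))
    have h2 := hN n h3
    rw [Real.dist_eq, sub_zero] at h2
    exact h2.le
  have hbound : ∀ m x C, 0 ≤ C → (∀ n, m ≤ n → |k n x| ≤ C) → ‖∑' n, f m x n‖ ≤ C := by
    intro m x C hC h
    exact le_of_tendsto (hsum m x).hasSum.norm
      (Filter.Eventually.of_forall fun A => hfin m x C A hC fun n _ => h n)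
  have hkx : ∀ n x, |k n x| ≤ K * ‖x‖ := fun n x =>
    ((k n).le_opNorm x).trans (mul_le_mul_of_nonneg_right (hK n) (norm_nonneg _))
  let L : ℕ → E →ₗ[ℝ] E := fun m =>
    { toFun := fun x => x - ∑' n, f m x n
      map_add' := by
        intro x y
        have h1 : ∑' n, f m (x + y) n = ∑' n, f m x n + ∑' n, f m y n := by
          rw [← (hsum m x).tsum_add (hsum m y)]
          congr 1
          funext n
          rw [hf, hf, hf]
          split_ifs
          · rw [map_add, add_smul]
          · simp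
        rw [h1]
        abel
      map_smul' := by
        intro c x
        have h1 : ∑' n, f m (c • x) n = c • ∑' n, f m x n := by
          rw [← (hsum m x).tsum_const_smul c]
          congr 1
          funext n
          rw [hf, hf]
          split_ifs
          · rw [map_smul, smul_eq_mul, mul_smul]
          · simp
        rw [h1, RingHom.id_apply, smul_sub] }
  have hL : ∀ m x, L m x = x - ∑' n, f m x n := fun _ _ => rfl
  let R : ℕ → E →L[ℝ] E := fun m => (L m).mkContinuous (1 + K) (by
    intro x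
    rw [hL]
    have h1 := hbound m x (K * ‖x‖) (by positivity) (fun n _ => hkx n x)
    calc ‖x - ∑' n, f m x n‖ ≤ ‖x‖ + ‖∑' n, f m x n‖ := norm_sub_le _ _
      _ ≤ ‖x‖ + K * ‖x‖ := by linarith
      _ = (1 + K) * ‖x‖ := by ring)
  have hR : ∀ m x, R m x = x - ∑' n, f m x n := fun _ _ => rfl
  have p1 : ∀ m n, m ≤ n → R m (e n) = 0 := by
    intro m n hmn
    rw [hR, tsum_eq_single n, hf, if_pos hmn, bi, if_pos rfl, one_smul, sub_self]
    intro j hj
    rw [hf, bi, if_neg hj]
    simp
  have p2 : ∀ m n, m ≤ n → ∀ x, k n (R m x) = 0 := by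
    intro m n hmn x
    rw [hR, map_sub, (k n).map_tsum (hsum m x), tsum_eq_single n, hf, if_pos hmn, map_smul, bi,
      if_pos rfl]
    · simp
    · intro j hj
      rw [hf]
      split_ifs
      · rw [map_smul, bi, if_neg (Ne.symm hj)]
        simp
      · simp
  have p3 : ∀ m x, (∀ n, m ≤ n → k n x = 0) → R m x = x := by
    intro m x h
    rw [hR]
    have h1 : ∀ n, f m x n = 0 := by
      intro n
      rw [hf]
      split_ifs with h2
      · rw [h n h2, zero_smul]
      · rfl
    simp [h1]
  have p5 : ∀ m x, R (m + 1) x = R m x + k m x • e m := by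
    intro m x
    have h1 : ∑' n, f m x n = ∑' n, f (m + 1) x n + k m x • e m := by
      have h2 : HasSum (fun n => if n = m then k m x • e m else 0) (k m x • e m) :=
        hasSum_ite_eq m _
      have h3 := ((hsum (m + 1) x).hasSum.add h2).tsum_eq
      rw [← h3]
      congr 1
      funext n
      rw [hf, hf]
      rcases lt_trichotomy n m with h | h | h
      · rw [if_neg (by omega), if_neg (by omega), if_neg (by omega), add_zero]
      · subst h
        rw [if_pos le_rfl, if_neg (by omega), if_pos rfl, zero_add]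
      · rw [if_pos (by omega), if_pos (by omega), if_neg (by omega), add_zero]
    rw [hR, hR, h1]
    abel
  refine ⟨R, p1, p2, p3, ?_, p5, ?_, ?_⟩
  · intro x
    have h1 : Tendsto (fun m => ∑' n, f m x n) atTop (𝓝 0) := by
      rw [Metric.tendsto_atTop]
      intro ε hε
      obtain ⟨N, hN⟩ := (Metric.tendsto_atTop.1 (hlim x)) (ε / 2) (by positivity)
      refine ⟨N, fun m hm => ?_⟩
      rw [dist_zero_right]
      refine lt_of_le_of_lt (hbound m x (ε / 2) (by positivity) ?_) (by linarith)
      intro n hn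
      have h2 := hN n (by omega)
      rw [Real.dist_eq, sub_zero] at h2
      exact h2.le
    have h2 := (tendsto_const_nhds (x := x)).sub h1
    rw [sub_zero] at h2
    exact h2
  · intro m x
    rw [p5, map_add, map_smul, p1 m m le_rfl, smul_zero, add_zero]
    exact p3 m _ (fun n hn => p2 m n hn x)
  · intro x C h
    rw [hR, sub_sub_cancel]
    exact hbound 0 x C ((abs_nonneg _).trans (h 0)) (fun n _ => h n)

end PolyR126
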