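import Pool.Agent.PolyR126.Defs

set_option autoImplicit false

universe u v

namespace PolyR126

open Set Metric Filter Topology

namespace K2

private noncomputable def F (δ A b : ℝ) : ℝ := max (max A b) ((A + b) / (2 - δ))

private lemma F_le_left (δ A b : ℝ) : A ≤ F δ A b := le_max_of_le_left (le_max_left _ _)

private lemma F_bound {δ A b : ℝ} (hδ : 0 < δ) (hδ' : δ ≤ 1 / 2) (hA : 0 ≤ A) (hb : 0 ≤ b) :
    F δ A b ≤ max A (2 * b) := by
  have h2 : 0 < 2 - δ := by linarith
  unfold F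
  refine max_le (max_le (le_max_left _ _) ?_) ?_
  · exact le_max_of_le_right (by linarith)
  · rcases le_or_gt b ((1 - δ) * A) with h | h
    · refine le_max_of_le_left ?_
      rw [div_le_iff₀ h2]
      nlinarith
    · refine le_max_of_le_right ?_
      rw [div_le_iff₀ h2]
      have h3 : A ≤ 2 * b := by nlinarith
      nlinarith

private lemma F_zero {δ A : ℝ} (hδ' : δ ≤ 1 / 2) (hA : 0 ≤ A) : F δ A 0 = A := by
  have h2 : 0 < 2 - δ := by linarith
  unfold F
  rw [max_eq_left hA, max_eq_left]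
  rw [div_le_iff₀ h2]
  nlinarith

private lemma F_mono {δ A b A' b' : ℝ} (hδ' : δ ≤ 1 / 2) (hA : A ≤ A') (hb : b ≤ b') :
    F δ A b ≤ F δ A' b' := by
  have h2 : 0 < 2 - δ := by linarith
  unfold F
  refine max_le_max (max_le_max hA hb) ?_
  exact div_le_div_of_nonneg_right (add_le_add hA hb) h2.le

private lemma F_add {δ A b A' b' : ℝ} :
    F δ (A + A') (b + b') ≤ F δ A b + F δ A' b' := by
  have h1 : A ≤ F δ A b := le_max_of_le_left (le_max_left _ _)
  have h2 : b ≤ F δ A b := le_max_of_le_left (le_max_right _ _)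
  have h3 : (A + b) / (2 - δ) ≤ F δ A b := le_max_right _ _
  have h1' : A' ≤ F δ A' b' := le_max_of_le_left (le_max_left _ _)
  have h2' : b' ≤ F δ A' b' := le_max_of_le_left (le_max_right _ _)
  have h3' : (A' + b') / (2 - δ) ≤ F δ A' b' := le_max_right _ _
  have e : (A + A' + (b + b')) / (2 - δ) = (A + b) / (2 - δ) + (A' + b') / (2 - δ) := by
    rw [← add_div]; congr 1; ring
  have : F δ (A + A') (b + b') = max (max (A + A') (b + b')) ((A + A' + (b + b')) / (2 - δ)) := rfl
  rw [this, e]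
  exact max_le (max_le (add_le_add h1 h1') (add_le_add h2 h2')) (add_le_add h3 h3')

private lemma F_smul {δ A b c : ℝ} (hc : 0 ≤ c) : F δ (c * A) (c * b) = c * F δ A b := by
  unfold F
  rw [mul_max_of_nonneg _ _ hc, mul_max_of_nonneg _ _ hc, ← mul_add, mul_div_assoc]

end K2

/-- PROOF. (1) `q m x ≤ q (m+1) x` clear. (2) If `A = q m x`, `b = |k m x|`, `δ = δ m`: if `b ≤ (1-δ) A` then `max (max A b) ((A+b)/(2-δ)) = A`; otherwise
`A < b/(1-δ) ≤ 2b` and `(A+b)/(2-δ) ≤ b/(1-δ) ≤ 2b`; so always `q (m+1) x ≤ max (q m x) (2b)`. (3) by induction on `n` from (2). (4) if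
`k n x = 0` for `n ≥ m` then by (2) `q (n+1) x ≤ max (q n x) 0 = q n x`. (5) by induction: `q m (R m x) = q m x`. For `m = 0`:
`R 0 (R 0 x) = R 0 x` by `R_id`, `k_R`. Step: `q m (R (m+1) x) = q m (R m (R (m+1) x)) = q m (R m x) = q m x` and
`k m (R (m+1) x) = k m x` since `R (m+1) x = R m x + k m x • e m`. -/
theorem qs_facts {E : Type u} [NormedAddCommGroup E] [NormedSpace ℝ E]
    (e : ℕ → E) (k : ℕ → E →L[ℝ] ℝ) (R : ℕ → E →L[ℝ] E) (δ : ℕ → ℝ)
    (hδ : ∀ m, 0 < δ m) (hδ' : ∀ m, δ m ≤ 1 / 2)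
    (bi : ∀ n m, k n (e m) = if n = m then 1 else 0)
    (k_R : ∀ m n, m ≤ n → ∀ x, k n (R m x) = 0)
    (R_id : ∀ m x, (∀ n, m ≤ n → k n x = 0) → R m x = x)
    (R_succ : ∀ m x, R (m + 1) x = R m x + k m x • e m)
    (R_R : ∀ m x, R m (R (m + 1) x) = R m x) (q : ℕ → E → ℝ) (hq0 : ∀ x, q 0 x = ‖R 0 x‖)
    (hq : ∀ m x, q (m + 1) x = max (max (q m x) |k m x|) ((q m x + |k m x|) / (2 - δ m))) :
    (∀ m n x, m ≤ n → q m x ≤ q n x) ∧ (∀ m x, 0 ≤ q m x) ∧
    (∀ m n x C, m ≤ n → (∀ j, m ≤ j → 2 * |k j x| ≤ C) → q n x ≤ max (q m x) C) ∧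
    (∀ m n x, m ≤ n → (∀ j, m ≤ j → k j x = 0) → q n x = q m x) ∧
    (∀ m x, q m (R m x) = q m x) ∧
    (∀ m x y, q m (x + y) ≤ q m x + q m y) ∧ (∀ m (c : ℝ) x, q m (c • x) = |c| * q m x) := by
  have hq' : ∀ m x, q (m + 1) x = K2.F (δ m) (q m x) |k m x| := fun m x => hq m x
  have hnn : ∀ m x, 0 ≤ q m x := by
    intro m
    induction m with
    | zero => intro x; rw [hq0]; exact norm_nonneg _
    | succ m ih => intro x; rw [hq']; exact (ih x).trans (K2.F_le_left _ _ _)
  have hstep : ∀ m x, q m x ≤ q (m + 1) x := by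
    intro m x; rw [hq']; exact K2.F_le_left _ _ _
  have hmono : ∀ m n x, m ≤ n → q m x ≤ q n x := by
    intro m n x hmn
    induction n, hmn using Nat.le_induction with
    | base => exact le_rfl
    | succ n _ ih => exact ih.trans (hstep n x)
  have hbd : ∀ m n x C, m ≤ n → (∀ j, m ≤ j → 2 * |k j x| ≤ C) → q n x ≤ max (q m x) C := by
    intro m n x C hmn hC
    induction n, hmn using Nat.le_induction with
    | base => exact le_max_left _ _
    | succ n hn ih =>
      rw [hq']
      refine (K2.F_bound (hδ n) (hδ' n) (hnn n x) (abs_nonneg _)).trans ?_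
      exact max_le ih ((hC n hn).trans (le_max_right _ _))
  refine ⟨hmono, hnn, hbd, ?_, ?_, ?_, ?_⟩
  · intro m n x hmn h0
    refine le_antisymm ?_ (hmono m n x hmn)
    have := hbd m n x 0 hmn (fun j hj => by rw [h0 j hj]; simp)
    rwa [max_eq_left (hnn m x)] at this
  · intro m
    induction m with
    | zero =>
      intro x
      rw [hq0, hq0, R_id 0 (R 0 x) (fun n hn => k_R 0 n hn x)]
    | succ m ih =>
      intro x
      rw [hq', hq']
      have h1 : q m (R (m + 1) x) = q m x := by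
        rw [← ih (R (m + 1) x), R_R, ih x]
      have h2 : k m (R (m + 1) x) = k m x := by
        rw [R_succ, map_add, map_smul, k_R m m le_rfl, bi m m, if_pos rfl]
        simp
      rw [h1, h2]
  · intro m
    induction m with
    | zero =>
      intro x y
      rw [hq0, hq0, hq0, map_add]
      exact norm_add_le _ _
    | succ m ih =>
      intro x y
      rw [hq', hq', hq']
      refine le_trans (K2.F_mono (hδ' m) (ih x y) ?_) K2.F_add
      rw [map_add]
      exact abs_add_le _ _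
  · intro m
    induction m with
    | zero =>
      intro c x
      rw [hq0, hq0, map_smul, norm_smul, Real.norm_eq_abs]
    | succ m ih =>
      intro c x
      rw [hq', hq', ih c x, map_smul, smul_eq_mul, abs_mul, K2.F_smul (abs_nonneg c)]

end PolyR126
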