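import Pool.Agent.PolyR126.Defs
import Pool.Agent.PolyR126.A5
import Pool.Agent.PolyR126.K2

set_option autoImplicit false

universe u v

namespace PolyR126

open Set Metric Filter Topology

/-- the functionals `k n` are small on finite-dimensional subspaces, for large `n` -/
theorem K3.small {E : Type u} [NormedAddCommGroup E] [NormedSpace ℝ E]
    {k : ℕ → E →L[ℝ] ℝ} (hlim : ∀ x : E, Tendsto (fun n => k n x) atTop (𝓝 0)) (F : Submodule ℝ E)
    [FiniteDimensional ℝ F] : ∃ m, ∀ n, m ≤ n → ∀ x : F, |k n x| ≤ ‖x‖ / 8 := by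
  let b := Module.finBasis ℝ F
  let c : Fin (Module.finrank ℝ F) → F →L[ℝ] ℝ := fun i => LinearMap.toContinuousLinearMap (b.coord i)
  have h1 : Tendsto (fun n => ∑ i, ‖c i‖ * |k n (b i : E)|) atTop (𝓝 0) := by
    have h2 : Tendsto (fun n => ∑ i, ‖c i‖ * |k n (b i : E)|) atTop (𝓝 (∑ i : Fin (Module.finrank ℝ F), ‖c i‖ * |0|)) := by
      apply tendsto_finsetSum
      intro i _
      exact ((hlim (b i : E)).abs).const_mul _
    simpa using h2
  have h3 : ∀ᶠ n in atTop, ∑ i, ‖c i‖ * |k n (b i : E)| < 1 / 8 := h1.eventually (gt_mem_nhds (by norm_num))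
  obtain ⟨m, hm⟩ := eventually_atTop.1 h3
  refine ⟨m, ?_⟩
  intro n hn x
  have h4 : (x : E) = ∑ i, c i x • (b i : E) := by
    have h5 := b.sum_repr x
    calc (x : E) = ((∑ i, b.repr x i • b i : F) : E) := by rw [h5]
      _ = ∑ i, c i x • (b i : E) := by
        push_cast
        rfl
  have h6 : k n (x : E) = ∑ i, c i x * k n (b i : E) := by
    conv_lhs => rw [h4]
    rw [map_sum]
    simp only [map_smul, smul_eq_mul]
  rw [h6]
  calc |∑ i, c i x * k n (b i : E)| ≤ ∑ i, |c i x * k n (b i : E)| := Finset.abs_sum_le_sum_abs _ _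
    _ ≤ ∑ i, (‖c i‖ * |k n (b i : E)|) * ‖x‖ := by
      apply Finset.sum_le_sum
      intro i _
      rw [abs_mul]
      have h7 : |c i x| ≤ ‖c i‖ * ‖x‖ := by
        rw [← Real.norm_eq_abs]
        exact (c i).le_opNorm x
      calc |c i x| * |k n (b i : E)| ≤ (‖c i‖ * ‖x‖) * |k n (b i : E)| :=
            mul_le_mul_of_nonneg_right h7 (abs_nonneg _)
        _ = _ := by ring
    _ = (∑ i, ‖c i‖ * |k n (b i : E)|) * ‖x‖ := by rw [Finset.sum_mul]
    _ ≤ 1 / 8 * ‖x‖ := mul_le_mul_of_nonneg_right (hm n hn).le (norm_nonneg x)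
    _ = ‖x‖ / 8 := by ring

/-- PROOF. Define `q 0 x = ‖R 0 x‖`, `q (m+1) x = max (max (q m x) |k m x|) ((q m x + |k m x|) / (2 - δ m))`, and `N x = ⨆ m, q m x`. By `qs_facts`: `q` is
nondecreasing in `m`, `q n x ≤ max (q m x) C` whenever `2|k_j x| ≤ C` for `j ≥ m`; with `m = 0`, `C = 2K‖x‖`, the supremum is finite and
`N x ≤ max (‖R 0‖ ‖x‖) (2K‖x‖)`. `N` is a seminorm. `|k m x| ≤ q (m+1) x ≤ N x`, and `‖x‖ ≤ ‖R 0 x‖ + ‖x - R 0 x‖ ≤ 2 N x`. If `k n x = 0` for all
`n ≥ m` then `N x = q m x`; in particular `N (R m x) = q m (R m x) = q m x`. So `max(…) = q (m+1) x ≤ N x` and `N x ≤ max (q (m+1) x) C`. `N (e n) = 1`: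
`R m (e n) = 0` for `m ≤ n` so `q n (e n) = q n (R n (e n)) = 0`, `q (n+1) (e n) = max (max 0 1) (1/(2-δ)) = 1`, and `k j (e n) = 0` for `j > n`.
HPoly: every `q m` is `HPoly` (`HPoly.comp`, `HPoly.max`, `HPoly.add`, `HPoly.mul`, `HPoly.abs`). For `F` finite-dimensional there is `m` with
`|k n x| ≤ N x / 4` for all `x ∈ F`, `n ≥ m` (the `k n` restricted to `F` converge to `0` pointwise, so in norm, `F` being finite-dimensional; and `N`
is equivalent to the norm). Then `N x ≤ max (q m x) (N x / 2)` so `N x = q m x` on `F`. -/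
theorem base_norm {E : Type u} [NormedAddCommGroup E] [NormedSpace ℝ E]
    (hE : HP E) (e : ℕ → E) (k : ℕ → E →L[ℝ] ℝ) (K : ℝ) (hK : ∀ n, ‖k n‖ ≤ K)
    (R : ℕ → E →L[ℝ] E) (δ : ℕ → ℝ)
    (hδ : ∀ m, 0 < δ m) (hδ' : ∀ m, δ m ≤ 1 / 2)
    (bi : ∀ n m, k n (e m) = if n = m then 1 else 0)
    (hlim : ∀ x : E, Tendsto (fun n => k n x) atTop (𝓝 0))
    (R_e : ∀ m n, m ≤ n → R m (e n) = 0)
    (k_R : ∀ m n, m ≤ n → ∀ x, k n (R m x) = 0)
    (R_id : ∀ m x, (∀ n, m ≤ n → k n x = 0) → R m x = x)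
    (R_succ : ∀ m x, R (m + 1) x = R m x + k m x • e m)
    (R_R : ∀ m x, R m (R (m + 1) x) = R m x)
    (R_0 : ∀ x C, (∀ n, |k n x| ≤ C) → ‖x - R 0 x‖ ≤ C) :
    ∃ N : E → ℝ, (∀ x y, N (x + y) ≤ N x + N y) ∧ (∀ (c : ℝ) x, N (c • x) = |c| * N x) ∧
      (∃ a b : ℝ, 0 < a ∧ (∀ x, a * ‖x‖ ≤ N x) ∧ ∀ x, N x ≤ b * ‖x‖) ∧ HPoly N ∧
      (∀ m x, max (max (N (R m x)) |k m x|) ((N (R m x) + |k m x|) / (2 - δ m)) ≤ N x) ∧
      (∀ m x C, (∀ n, m < n → 2 * |k n x| ≤ C) →
        N x ≤ max (max (max (N (R m x)) |k m x|) ((N (R m x) + |k m x|) / (2 - δ m))) C) ∧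
      (∀ n, N (e n) = 1) := by
  let q : ℕ → E → ℝ := fun m => Nat.rec (fun x => ‖R 0 x‖)
    (fun m qm x => Max.max (Max.max (qm x) |k m x|) ((qm x + |k m x|) / (2 - δ m))) m
  have hq0 : ∀ x, q 0 x = ‖R 0 x‖ := fun x => rfl
  have hq : ∀ m x, q (m + 1) x = Max.max (Max.max (q m x) |k m x|) ((q m x + |k m x|) / (2 - δ m)) := fun m x => rfl
  obtain ⟨f1, f2, f3, f4, f5, f6, f7⟩ := qs_facts e k R δ hδ hδ' bi k_R R_id R_succ R_R q hq0 hq
  clear_value q
  have hK0 : 0 ≤ K := (norm_nonneg _).trans (hK 0)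
  have hkK : ∀ n x, |k n x| ≤ K * ‖x‖ := by
    intro n x
    calc |k n x| = ‖k n x‖ := (Real.norm_eq_abs _).symm
      _ ≤ ‖k n‖ * ‖x‖ := (k n).le_opNorm x
      _ ≤ K * ‖x‖ := mul_le_mul_of_nonneg_right (hK n) (norm_nonneg x)
  have hbound : ∀ m x, q m x ≤ Max.max ‖R 0 x‖ (2 * K * ‖x‖) := by
    intro m x
    rw [← hq0]
    apply f3 0 m x _ (Nat.zero_le m)
    intro j _
    have := hkK j x
    linarith
  have hbdd : ∀ x, BddAbove (Set.range fun m => q m x) := by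
    intro x
    refine ⟨Max.max ‖R 0 x‖ (2 * K * ‖x‖), ?_⟩
    rintro _ ⟨m, rfl⟩
    exact hbound m x
  have hle : ∀ m x, q m x ≤ ⨆ m, q m x := fun m x => le_ciSup (hbdd x) m
  have hN0 : ∀ x, 0 ≤ ⨆ m, q m x := fun x => (f2 0 x).trans (hle 0 x)
  have hkN : ∀ n x, |k n x| ≤ ⨆ m, q m x := by
    intro n x
    refine le_trans ?_ (hle (n + 1) x)
    rw [hq]
    exact (le_max_right _ _).trans (le_max_left _ _)
  have hhalf : ∀ x, 1 / 2 * ‖x‖ ≤ ⨆ m, q m x := by
    intro x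
    have h1 := R_0 x (⨆ m, q m x) (fun n => hkN n x)
    have h2 : ‖R 0 x‖ ≤ ⨆ m, q m x := by
      rw [← hq0]
      exact hle 0 x
    have h3 : ‖x‖ ≤ ‖x - R 0 x‖ + ‖R 0 x‖ := by
      simpa using norm_add_le (x - R 0 x) (R 0 x)
    linarith
  have hNeq : ∀ m x, (∀ n, m ≤ n → q n x ≤ q m x) → (⨆ m, q m x) = q m x := by
    intro m x h
    apply le_antisymm
    · apply ciSup_le
      intro n
      rcases le_total m n with hmn | hmn
      · exact h n hmn
      · exact f1 n m x hmn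
    · exact hle m x
  have hNR : ∀ m x, (⨆ j, q j (R m x)) = q m x := by
    intro m x
    rw [hNeq m (R m x), f5]
    intro n hmn
    exact (f4 m n (R m x) hmn (fun j hj => k_R m j hj x)).le
  have hNle : ∀ m x C, (∀ n, m < n → 2 * |k n x| ≤ C) → (⨆ j, q j x) ≤ Max.max (q (m + 1) x) C := by
    intro m x C h
    apply ciSup_le
    intro n
    rcases le_total (m + 1) n with hmn | hmn
    · exact f3 (m + 1) n x C hmn (fun j hj => h j (by omega))
    · exact (f1 n (m + 1) x hmn).trans (le_max_left _ _)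
  have hqp : ∀ m, HPoly (q m) := by
    intro m
    induction m with
    | zero =>
      have h1 : q 0 = fun x => ‖(R 0 : E →ₗ[ℝ] E) x‖ := by
        ext x
        exact hq0 x
      rw [h1]
      exact HPoly.comp (q := fun x : E => ‖x‖) hE (R 0 : E →ₗ[ℝ] E)
    | succ m ih =>
      have h1 : q (m + 1) = fun x => Max.max (Max.max (q m x) |(k m : E →ₗ[ℝ] ℝ) x|)
          ((1 / (2 - δ m)) * (q m x + |(k m : E →ₗ[ℝ] ℝ) x|)) := by
        ext x
        rw [hq, one_div_mul_eq_div]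
        rfl
      rw [h1]
      have h2 : 0 ≤ 1 / (2 - δ m) := by
        apply div_nonneg zero_le_one
        linarith [hδ' m]
      exact (ih.max (HPoly.abs _)).max ((ih.add (HPoly.abs _)).mul h2)
  refine ⟨fun x => ⨆ m, q m x, ?_, ?_, ⟨1 / 2, ‖R 0‖ + 2 * K, by norm_num, hhalf, ?_⟩, ?_, ?_, ?_, ?_⟩
  · intro x y
    apply ciSup_le
    intro m
    exact (f6 m x y).trans (add_le_add (hle m x) (hle m y))
  · intro c x
    show (⨆ m, q m (c • x)) = |c| * ⨆ m, q m x
    rw [Real.mul_iSup_of_nonneg (abs_nonneg c)]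
    exact iSup_congr fun m => f7 m c x
  · intro x
    apply ciSup_le
    intro m
    refine (hbound m x).trans ?_
    have h1 := (R 0).le_opNorm x
    have h2 : 0 ≤ ‖R 0‖ * ‖x‖ := by positivity
    have h3 : 0 ≤ 2 * K * ‖x‖ := by positivity
    apply max_le <;> linarith
  · intro F hF
    obtain ⟨m, hm⟩ := PolyR126.K3.small hlim F
    have hFeq : ∀ x : F, (⨆ j, q j (x : E)) = q m x := by
      intro x
      have h1 : (⨆ j, q j (x : E)) ≤ Max.max (q m x) ((⨆ j, q j (x : E)) / 2) := by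
        apply ciSup_le
        intro n
        rcases le_total m n with hmn | hmn
        · apply f3 m n x _ hmn
          intro j hj
          have h2 := hm j hj x
          have h3 := hhalf (x : E)
          have h4 : ‖x‖ = ‖(x : E)‖ := rfl
          rw [h4] at h2
          linarith
        · exact (f1 n m x hmn).trans (le_max_left _ _)
      apply le_antisymm _ (hle m x)
      rcases le_max_iff.1 h1 with h2 | h2
      · exact h2
      · have h3 := f2 m (x : E)
        linarith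
    obtain ⟨Φ, h1, h2⟩ := hqp m F hF
    refine ⟨Φ, ?_, ?_⟩
    · intro φ hφ x
      show φ x ≤ ⨆ j, q j (x : E)
      rw [hFeq]
      exact h1 φ hφ x
    · intro x
      obtain ⟨φ, hφ, h3⟩ := h2 x
      refine ⟨φ, hφ, ?_⟩
      show φ x = ⨆ j, q j (x : E)
      rw [hFeq]
      exact h3
  · intro m x
    show Max.max (Max.max (⨆ j, q j (R m x)) |k m x|) (((⨆ j, q j (R m x)) + |k m x|) / (2 - δ m)) ≤ ⨆ j, q j x
    rw [hNR, ← hq]
    exact hle _ _
  · intro m x C h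
    show (⨆ j, q j x) ≤ Max.max (Max.max (Max.max (⨆ j, q j (R m x)) |k m x|)
      (((⨆ j, q j (R m x)) + |k m x|) / (2 - δ m))) C
    rw [hNR, ← hq]
    exact hNle m x C h
  · intro n
    show (⨆ j, q j (e n)) = 1
    have h1 : q n (e n) = 0 := by
      rw [← f5, R_e n n le_rfl]
      have := f7 n 0 (0 : E)
      rwa [smul_zero, abs_zero, zero_mul] at this
    have h2 : q (n + 1) (e n) = 1 := by
      rw [hq, h1, bi, if_pos rfl, abs_one, zero_add, max_eq_right zero_le_one]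
      apply max_eq_left
      rw [div_le_one (by linarith [hδ' n])]
      linarith [hδ' n]
    rw [hNeq (n + 1) (e n), h2]
    intro m hm
    apply le_of_eq
    apply f4 (n + 1) m (e n) hm
    intro j hj
    rw [bi, if_neg (by omega)]

end PolyR126
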