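import Pool.Agent.PolyR126.Defs

set_option autoImplicit false

universe u v

namespace PolyR126

open Set Metric Filter Topology

/-- The space with the new norm. -/
def N1.Rn {E : Type u} (_p : E → ℝ) : Type u := E

/-- PROOF. Type synonym with the norm `p`; see Pool/Agent/Helper871/Renorm.lean for the same construction (`NormedSpace.Core`). -/
theorem renorm {E : Type u} [NormedAddCommGroup E] [NormedSpace ℝ E] [CompleteSpace E]
    (p : E → ℝ) (hadd : ∀ x y, p (x + y) ≤ p x + p y) (hsmul : ∀ (c : ℝ) x, p (c • x) = |c| * p x)
    (a b : ℝ) (ha : 0 < a) (hlo : ∀ x, a * ‖x‖ ≤ p x) (hhi : ∀ x, p x ≤ b * ‖x‖) :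
    ∃ (X : Type u) (_ : NormedAddCommGroup X) (_ : NormedSpace ℝ X) (_ : CompleteSpace X),
      ∃ T : E ≃L[ℝ] X, ∀ x, ‖T x‖ = p x := by
  letI iA : AddCommGroup (N1.Rn p) := inferInstanceAs (AddCommGroup E)
  letI iM : Module ℝ (N1.Rn p) := inferInstanceAs (Module ℝ E)
  letI iN : Norm (N1.Rn p) := ⟨p⟩
  have core : NormedSpace.Core ℝ (N1.Rn p) :=
    { norm_nonneg := fun x => le_trans (mul_nonneg ha.le (norm_nonneg (E := E) x)) (hlo x)
      norm_smul := fun c x => hsmul c x
      norm_triangle := fun x y => hadd x y
      norm_eq_zero_iff := fun x => by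
        constructor
        · intro h
          have h1 := hlo x
          have h2 : p x = 0 := h
          rw [h2] at h1
          have h3 : norm (E := E) x ≤ 0 := by
            by_contra hcon
            push Not at hcon
            have := mul_pos ha hcon
            linarith
          exact (norm_le_zero_iff (E := E)).mp h3
        · rintro rfl
          have h1 := hsmul 0 0
          have h2 : p 0 = 0 := by simpa using h1
          exact h2 }
  letI iG : NormedAddCommGroup (N1.Rn p) := NormedAddCommGroup.ofCore core
  letI iS : NormedSpace ℝ (N1.Rn p) := NormedSpace.ofCore core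
  let T0 : E ≃ₗ[ℝ] N1.Rn p := LinearEquiv.refl ℝ E
  let T : E ≃L[ℝ] N1.Rn p :=
    { T0 with
      continuous_toFun := by
        have : Continuous T0.toLinearMap := by
          apply AddMonoidHomClass.continuous_of_bound T0.toLinearMap b
          intro x
          exact hhi x
        exact this
      continuous_invFun := by
        have : Continuous T0.symm.toLinearMap := by
          apply AddMonoidHomClass.continuous_of_bound T0.symm.toLinearMap (a⁻¹)
          intro x
          rw [inv_mul_eq_div, le_div_iff₀ ha, mul_comm]
          exact hlo x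
        exact this }
  have hcomp : CompleteSpace (N1.Rn p) :=
    (completeSpace_congr (e := T.toLinearEquiv.toEquiv) T.isUniformEmbedding).mp inferInstance
  exact ⟨N1.Rn p, iG, iS, hcomp, T, fun x => rfl⟩

end PolyR126
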