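import Pool.Agent.PolyR126.Defs
import Pool.Agent.PolyR126.A5
import Pool.Agent.PolyR126.J8
import Pool.Agent.PolyR126.K1
import Pool.Agent.PolyR126.K3
import Pool.Agent.PolyR126.N1

set_option autoImplicit false

universe u v

namespace PolyR126

open Set Metric Filter Topology

/-- PROOF. `exists_sequences`, `exists_R`, `base_norm` with `δ m = 1/(m+2)`, then `renorm` with `p = N`: the space `X`, `T : E ≃L[ℝ] X`, `‖T x‖ = N x`. `HP X`:
`‖x‖_X = N (T⁻¹ x)`, `HPoly.comp`. `Base X`: `e' n = T (e n)`, `k' n = k n ∘ T⁻¹`, `R' m = T ∘ R m ∘ T⁻¹`, `K = 1` (`|k n x| ≤ N x`). -/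
theorem exists_base {E : Type u} [NormedAddCommGroup E] [NormedSpace ℝ E] [CompleteSpace E]
    (hE : HP E) (hinf : ¬ FiniteDimensional ℝ E) :
    ∃ (X : Type u) (_ : NormedAddCommGroup X) (_ : NormedSpace ℝ X) (_ : CompleteSpace X)
      (_ : E ≃L[ℝ] X), HP X ∧ Nonempty (Base X) := by
  obtain ⟨e, k, K, hK, bi, hc0, hlim, y, hy, hky⟩ := exists_sequences hE hinf
  obtain ⟨R, R_e, k_R, R_id, R_lim, R_succ, R_R, R_0⟩ := exists_R e k K hK bi hc0 hlim
  have hδ : ∀ m : ℕ, (0 : ℝ) < 1 / ((m : ℝ) + 2) := fun m => by positivity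
  have hδ' : ∀ m : ℕ, (1 : ℝ) / ((m : ℝ) + 2) ≤ 1 / 2 := fun m => by
    apply one_div_le_one_div_of_le (by norm_num)
    have : (0 : ℝ) ≤ m := Nat.cast_nonneg m
    linarith
  obtain ⟨N, hadd, hsmul, ⟨a, b, ha, hlo, hhi⟩, hNP, hlower, hupper, hNe⟩ :=
    base_norm hE e k K hK R (fun m => 1 / ((m : ℝ) + 2)) hδ hδ' bi hlim R_e k_R R_id R_succ R_R R_0
  obtain ⟨X, i1, i2, i3, T, hT⟩ := renorm N hadd hsmul a b ha hlo hhi
  have hTs : ∀ x : X, N (T.symm x) = ‖x‖ := fun x => by rw [← hT, T.apply_symm_apply]
  refine ⟨X, i1, i2, i3, T, ?_, ⟨?_⟩⟩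
  · have h1 := HPoly.comp hNP (T.symm : X →ₗ[ℝ] E)
    have h2 : (fun x : X => N ((T.symm : X →ₗ[ℝ] E) x)) = fun x : X => ‖x‖ := funext hTs
    rw [h2] at h1
    exact h1
  · exact
      { e := fun n => T (e n)
        k := fun n => (k n).comp (T.symm : X →L[ℝ] E)
        R := fun m => (T : E →L[ℝ] X).comp ((R m).comp (T.symm : X →L[ℝ] E))
        δ := fun m => 1 / ((m : ℝ) + 2)
        K := 1
        δ_pos := hδ
        δ_le := hδ'
        δ_lim := by
          have h1 : Tendsto (fun n : ℕ => (1 : ℝ) / ((n : ℝ) + 1)) atTop (𝓝 0) :=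
            tendsto_one_div_add_atTop_nhds_zero_nat
          have h2 := h1.comp (tendsto_add_atTop_nat 1)
          refine h2.congr fun n => ?_
          simp only [Function.comp_apply]
          push_cast
          ring
        hk := fun n => by
          refine ContinuousLinearMap.opNorm_le_bound _ zero_le_one fun x => ?_
          rw [one_mul]
          have h1 := hlower n (T.symm x)
          have h2 : |k n (T.symm x)| ≤ N (T.symm x) :=
            (le_max_right _ _).trans ((le_max_left _ _).trans h1)
          rw [hTs] at h2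
          exact h2
        bi := fun n m => by
          change k n (T.symm (T (e m))) = _
          rw [T.symm_apply_apply]
          exact bi n m
        e_norm := fun n => by rw [hT]; exact hNe n
        R_e := fun m n hmn => by
          change T (R m (T.symm (T (e n)))) = 0
          rw [T.symm_apply_apply, R_e m n hmn, map_zero]
        k_R := fun m n hmn x => by
          change k n (T.symm (T (R m (T.symm x)))) = 0
          rw [T.symm_apply_apply]
          exact k_R m n hmn _
        R_id := fun m x hx => by
          change T (R m (T.symm x)) = x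
          rw [R_id m (T.symm x) hx, T.apply_symm_apply]
        R_lim := fun x => by
          have h1 := (T.continuous.tendsto (T.symm x)).comp (R_lim (T.symm x))
          rw [T.apply_symm_apply] at h1
          exact h1
        lower := fun m x => by
          have h1 := hlower m (T.symm x)
          rw [hTs, ← hT (R m (T.symm x))] at h1
          exact h1
        upper := fun m x C hC => by
          have h1 := hupper m (T.symm x) C hC
          rw [hTs, ← hT (R m (T.symm x))] at h1
          exact h1
        indep := by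
          refine ⟨fun n => T (y n), ?_, fun n m => ?_⟩
          · exact hy.map' (T : E →ₗ[ℝ] X) (LinearMap.ker_eq_bot.2 T.injective)
          · change k n (T.symm (T (y m))) = 0
            rw [T.symm_apply_apply]
            exact hky n m }

end PolyR126
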