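import Pool.Agent.PolyR126.Defs
import Pool.Agent.PolyR126.A5
import Pool.Agent.PolyR126.B
import Pool.Agent.PolyR126.G6

set_option autoImplicit false

universe u v

namespace PolyR126

open Set Metric Filter Topology

private def Em {X : Type u} [NormedAddCommGroup X] [NormedSpace ℝ X] (b : Base X) (m : ℕ) :
    Submodule ℝ X where
  carrier := {v | ∀ n, m ≤ n → b.k n v = 0}
  add_mem' := by
    intro u v hu hv n hn
    rw [map_add, hu n hn, hv n hn, add_zero]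
  zero_mem' := by
    intro n _
    exact map_zero _
  smul_mem' := by
    intro c v hv n hn
    rw [map_smul, hv n hn, smul_zero]

private theorem mem_Em {X : Type u} [NormedAddCommGroup X] [NormedSpace ℝ X] (b : Base X) (m : ℕ)
    (v : X) : v ∈ Em b m ↔ ∀ n, m ≤ n → b.k n v = 0 := Iff.rfl

private theorem Em_closed {X : Type u} [NormedAddCommGroup X] [NormedSpace ℝ X] (b : Base X)
    (m : ℕ) : IsClosed (Em b m : Set X) := by
  have : (Em b m : Set X) = ⋂ n, ⋂ (_ : m ≤ n), {v | b.k n v = 0} := by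
    ext v
    simp only [Set.mem_iInter]
    exact Iff.rfl
  rw [this]
  exact isClosed_iInter fun n => isClosed_iInter fun _ =>
    isClosed_eq (b.k n).continuous continuous_const


/-- PROOF. Let `Em : Submodule ℝ X` be `⨅ n ≥ m, ker (k n)`: closed, so complete; `HP Em` (`HP.submodule`); infinite-dimensional because it contains
the linearly independent sequence of `b.indep`. Apply `big_family` to `Em`: `η, J, f₀ : J → (Em →L[ℝ] ℝ), x₀ : J → Em`. `R m` maps `X` into `Em` (`k_R`); let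
`r : X →L[ℝ] Em` be `R m` with codomain restricted, `‖r u‖ ≤ ‖u‖` (by `b.lower`), `r v = v` on `Em` (`R_id`). Put `f j = f₀ j ∘ r`, `x j = x₀ j`. `J` is nonempty: otherwise
the last property of `big_family` gives `‖g‖ (1-2α) ≤ 1` for all `g` in the dual of `Em ≠ 0`, absurd. For the norms: `‖f₀ i ∓ f₀ j‖ ≤ ‖f i ∓ f j‖` because
`f₀ i ∓ f₀ j` is the restriction of `f i ∓ f j` to `Em`. `Fac (f₀ j) (x₀ j)`: `‖x₀ j + v‖ = f₀ j (x₀ j) + f₀ j v = 1 + f₀ j v`. Generation: apply the last property of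
`big_family` to the restriction `g₀` of `g` to `Em`; `g v ≤ ‖g₀‖ ‖v‖`. -/
theorem family_in_layer {X : Type u} [NormedAddCommGroup X] [NormedSpace ℝ X] [CompleteSpace X]
    (hX : HP X) (b : Base X) (m : ℕ) (α : ℝ) (hα : 0 < α) (hα1 : α < 1 / 2) :
    ∃ η : ℝ, 0 < η ∧ ∃ (J : Type u) (f : J → X →L[ℝ] ℝ) (x : J → X), Nonempty J ∧
      (∀ j, ‖x j‖ = 1) ∧ (∀ j n, m ≤ n → b.k n (x j) = 0) ∧
      (∀ j, ∃ r : ℝ, 0 < r ∧ ∀ v : X, (∀ n, m ≤ n → b.k n v = 0) → ‖v‖ < r →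
        ‖x j + v‖ = 1 + f j v) ∧
      (∀ j u, f j (b.R m u) = f j u) ∧
      (∀ i j, i ≠ j → η ≤ ‖f i - f j‖ ∧ η ≤ ‖f i + f j‖) ∧
      (∀ g : X →L[ℝ] ℝ, (∀ j, g (x j) ≤ 1) → ∀ v : X, (∀ n, m ≤ n → b.k n v = 0) →
        g v * (1 - 2 * α) ≤ ‖v‖) := by
  have hcl := Em_closed b m
  have : CompleteSpace (Em b m) := hcl.completeSpace_coe
  obtain ⟨y, hy, hky⟩ := b.indep
  let y' : ℕ → Em b m := fun n => ⟨y n, fun i _ => hky i n⟩
  have hy' : LinearIndependent ℝ y' := by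
    apply LinearIndependent.of_comp (Em b m).subtype
    exact hy
  have hinf : ¬ FiniteDimensional ℝ (Em b m) := by
    intro hfd
    have : Finite ℕ := hy'.finite
    exact (inferInstance : Infinite ℕ).not_finite this
  obtain ⟨η, hη, J, f₀, x₀, hx₀, hF₀, hsep, hgen⟩ := big_family (hX.submodule (Em b m)) hinf α hα hα1
  have hRmem : ∀ u, b.R m u ∈ Em b m := fun u n hn => b.k_R m n hn u
  let r : X →L[ℝ] Em b m := (b.R m).codRestrict (Em b m) hRmem
  have hr_id : ∀ v : Em b m, r v = v := by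
    intro v
    apply Subtype.ext
    exact b.R_id m v v.2
  have hrr : ∀ u, r (b.R m u) = r u := by
    intro u
    apply Subtype.ext
    exact b.R_id m _ (hRmem u)
  have hα2 : 0 < 1 - 2 * α := by linarith
  have hsub : ‖(Em b m).subtypeL‖ ≤ 1 := Submodule.norm_subtypeL_le _
  have hcomp : ∀ h : X →L[ℝ] ℝ, ‖h.comp (Em b m).subtypeL‖ ≤ ‖h‖ := by
    intro h
    calc ‖h.comp (Em b m).subtypeL‖ ≤ ‖h‖ * ‖(Em b m).subtypeL‖ := ContinuousLinearMap.opNorm_comp_le _ _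
      _ ≤ ‖h‖ * 1 := by gcongr
      _ = ‖h‖ := mul_one _
  refine ⟨η, hη, J, fun j => (f₀ j).comp r, fun j => (x₀ j : X), ?_, ?_, ?_, ?_, ?_, ?_, ?_⟩
  · by_contra hJ
    rw [not_nonempty_iff] at hJ
    have hv : y' 0 ≠ 0 := hy'.ne_zero 0
    obtain ⟨g, hg1, hg2⟩ := exists_dual_vector ℝ (y' 0) (norm_ne_zero_iff.mpr hv)
    have := hgen ((2 / (1 - 2 * α)) • g) (fun j => (hJ.false j).elim)
    rw [norm_smul, hg1, mul_one, Real.norm_of_nonneg (by positivity), div_mul_cancel₀ _ hα2.ne'] at this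
    linarith
  · intro j
    exact hx₀ j
  · intro j n hn
    exact (x₀ j).2 n hn
  · intro j
    obtain ⟨ρ, hρ, h⟩ := hF₀ j
    refine ⟨ρ, hρ, fun v hv hvn => ?_⟩
    have h1 := h ⟨v, hv⟩ hvn
    rw [map_add, (hF₀ j).apply, hx₀ j] at h1
    have h2 : r v = ⟨v, hv⟩ := hr_id ⟨v, hv⟩
    change ‖(x₀ j : X) + v‖ = 1 + f₀ j (r v)
    rw [h2]
    exact h1
  · intro j u
    change f₀ j (r (b.R m u)) = f₀ j (r u)
    rw [hrr]
  · intro i j hij
    obtain ⟨h1, h2⟩ := hsep i j hij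
    constructor
    · refine h1.trans (le_trans (le_of_eq ?_) (hcomp _))
      congr 1
      ext v
      change f₀ i v - f₀ j v = f₀ i (r v) - f₀ j (r v)
      rw [hr_id]
    · refine h2.trans (le_trans (le_of_eq ?_) (hcomp _))
      congr 1
      ext v
      change f₀ i v + f₀ j v = f₀ i (r v) + f₀ j (r v)
      rw [hr_id]
  · intro g hg v hv
    have h1 := hgen (g.comp (Em b m).subtypeL) hg
    have h2 : g v ≤ ‖g.comp (Em b m).subtypeL‖ * ‖v‖ :=
      (le_abs_self _).trans ((g.comp (Em b m).subtypeL).le_opNorm ⟨v, hv⟩)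
    calc g v * (1 - 2 * α) ≤ ‖g.comp (Em b m).subtypeL‖ * ‖v‖ * (1 - 2 * α) :=
          mul_le_mul_of_nonneg_right h2 hα2.le
      _ = (‖g.comp (Em b m).subtypeL‖ * (1 - 2 * α)) * ‖v‖ := by ring
      _ ≤ 1 * ‖v‖ := mul_le_mul_of_nonneg_right h1 (norm_nonneg _)
      _ = ‖v‖ := one_mul _

end PolyR126
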