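import Pool.Agent.PolyR126.Defs

set_option autoImplicit false

universe u v

namespace PolyR126

open Set Metric Filter Topology

/-- PROOF. `c = 1 - δ m / 2 ∈ [3/4, 1)`, `P = τ c (x + σ e_m)`. `R m (P + u) = τ c x + R m u` (`R_id`, `R_e`). As `R m u` is killed by all `k n`, `n ≥ m`, and
`‖R m u‖ ≤ ‖u‖` (`b.lower`), for small `u`: `‖R m (P + u)‖ = c ‖x + (τ/c) R m u‖ = c (1 + (τ/c) f (R m u)) = c + τ f u`. `k m (P + u) = τ c σ + k m u` so for small
`u` `|k m (P + u)| = c + τ σ k m u`. Hence `(‖R m (P+u)‖ + |k m (P+u)|) / (2 - δ m) = 1 + (τ/(2 - δ m)) (f u + σ k m u) =: 1 + L u`. As `c < 1`, for small `u`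
the numbers `c + τ f u`, `c + τ σ k m u` and `1/2` are `≤ 1 + L u`, and for `n > m`: `k n (P + u) = k n u`, `2|k n u| ≤ 2K‖u‖ ≤ 1/2`. So by `b.lower` and
`b.upper` (with `C = 1/2`) `‖P + u‖ = 1 + L u`. -/
theorem fac_point {X : Type u} [NormedAddCommGroup X] [NormedSpace ℝ X] (b : Base X) (m : ℕ)
    (x : X) (hx1 : ‖x‖ = 1) (hx : ∀ n, m ≤ n → b.k n x = 0) (f : X →L[ℝ] ℝ)
    (hfR : ∀ u, f (b.R m u) = f u)
    (hf : ∃ r : ℝ, 0 < r ∧ ∀ v : X, (∀ n, m ≤ n → b.k n v = 0) → ‖v‖ < r → ‖x + v‖ = 1 + f v)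
    (σ τ : ℝ) (hσ : σ = 1 ∨ σ = -1) (hτ : τ = 1 ∨ τ = -1) :
    ∃ r : ℝ, 0 < r ∧ ∀ u : X, ‖u‖ < r →
      ‖(τ * (1 - b.δ m / 2)) • (x + σ • b.e m) + u‖ =
        1 + (τ / (2 - b.δ m)) * (f u + σ * b.k m u) := by
  set d := b.δ m with hd
  have hd0 : 0 < d := b.δ_pos m
  have hd1 : d ≤ 1 / 2 := b.δ_le m
  set c := 1 - d / 2 with hc
  have hc0 : 3 / 4 ≤ c := by rw [hc]; linarith
  have hc1 : c < 1 := by rw [hc]; linarith
  have h2c : 2 - d = 2 * c := by rw [hc]; ring
  have hττ : τ * τ = 1 := by rcases hτ with h | h <;> rw [h] <;> norm_num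
  have hσσ : σ * σ = 1 := by rcases hσ with h | h <;> rw [h] <;> norm_num
  have hτa : |τ| = 1 := by rcases hτ with h | h <;> rw [h] <;> norm_num
  have hσa : |σ| = 1 := by rcases hσ with h | h <;> rw [h] <;> norm_num
  have hK : 0 ≤ b.K := (norm_nonneg _).trans (b.hk 0)
  obtain ⟨r, hr, hf⟩ := hf
  set M := ‖f‖ + b.K + 1 with hM
  have hM0 : 0 < M := by have := norm_nonneg f; rw [hM]; linarith
  refine ⟨min (r / 2) (min ((1 - c) / (2 * M)) (1 / (8 * M))), ?_, ?_⟩
  · refine lt_min (by linarith) (lt_min ?_ ?_)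
    · exact div_pos (by linarith) (by linarith)
    · exact div_pos one_pos (by linarith)
  intro u hu
  have hu1 : ‖u‖ < r / 2 := lt_of_lt_of_le hu (min_le_left _ _)
  have hu2 : ‖u‖ < (1 - c) / (2 * M) :=
    lt_of_lt_of_le hu ((min_le_right _ _).trans (min_le_left _ _))
  have hu3 : ‖u‖ < 1 / (8 * M) :=
    lt_of_lt_of_le hu ((min_le_right _ _).trans (min_le_right _ _))
  rw [lt_div_iff₀ (by linarith)] at hu2 hu3
  have hun := norm_nonneg u
  have hfu : |f u| ≤ ‖f‖ * ‖u‖ := by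
    have := f.le_opNorm u
    rwa [Real.norm_eq_abs] at this
  have hku : ∀ n, |b.k n u| ≤ b.K * ‖u‖ := by
    intro n
    have := (b.k n).le_opNorm u
    rw [Real.norm_eq_abs] at this
    exact this.trans (mul_le_mul_of_nonneg_right (b.hk n) hun)
  have hsum : |f u| + |b.k m u| ≤ M * ‖u‖ := by
    have h1 := hku m
    have : M * ‖u‖ = ‖f‖ * ‖u‖ + b.K * ‖u‖ + ‖u‖ := by rw [hM]; ring
    linarith
  set P := (τ * c) • (x + σ • b.e m) with hP
  have hRx : b.R m x = x := b.R_id m x hx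
  have hRe : b.R m (b.e m) = 0 := b.R_e m m le_rfl
  have hRP : b.R m (P + u) = (τ * c) • x + b.R m u := by
    rw [hP, map_add, map_smul, map_add, map_smul, hRx, hRe, smul_zero, add_zero]
  have hkP : ∀ n, b.k n P = (τ * c) * (b.k n x + σ * b.k n (b.e m)) := by
    intro n
    rw [hP, map_smul, map_add, map_smul, smul_eq_mul, smul_eq_mul]
  have hkm : b.k m (P + u) = τ * c * σ + b.k m u := by
    rw [map_add, hkP, hx m le_rfl, b.bi m m, if_pos rfl]
    ring
  have hkn : ∀ n, m < n → b.k n (P + u) = b.k n u := by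
    intro n hn
    rw [map_add, hkP, hx n hn.le, b.bi n m, if_neg (by omega)]
    ring
  have hlow := b.lower m
  have hRu : ‖b.R m u‖ ≤ ‖u‖ :=
    ((le_max_left _ _).trans (le_max_left _ _)).trans (hlow u)
  -- the norm of R m (P + u)
  have hRn : ‖b.R m (P + u)‖ = c + τ * f u := by
    have hv := hf ((τ / c) • b.R m u) (by
      intro n hn
      rw [map_smul, b.k_R m n hn, smul_zero]) (by
      rw [norm_smul, Real.norm_eq_abs, abs_div, hτa, abs_of_pos (by linarith : 0 < c)]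
      have h1 : 1 / c * ‖b.R m u‖ ≤ (4 / 3) * ‖u‖ := by
        have h2 : 1 / c ≤ 4 / 3 := by
          rw [div_le_iff₀ (by linarith)]
          linarith
        exact mul_le_mul h2 hRu (norm_nonneg _) (by norm_num)
      linarith)
    have h1 : (τ * c) • x + b.R m u = (τ * c) • (x + (τ / c) • b.R m u) := by
      rw [smul_add, smul_smul]
      congr 1
      have : τ * c * (τ / c) = 1 := by
        field_simp
        linarith
      rw [this, one_smul]
    rw [hRP, h1, norm_smul, hv, Real.norm_eq_abs, abs_mul, hτa, abs_of_pos (by linarith : 0 < c),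
      map_smul, hfR, smul_eq_mul]
    field_simp
  have hkabs : |b.k m (P + u)| = c + τ * σ * b.k m u := by
    have h0 : |b.k m u| ≤ 1 / 8 := by
      have := abs_nonneg (f u)
      nlinarith
    have h1 : τ * c * σ + b.k m u = (τ * σ) * (c + τ * σ * b.k m u) := by
      have : (τ * σ) * (c + τ * σ * b.k m u) = τ * σ * c + (τ * τ) * (σ * σ) * b.k m u := by ring
      rw [this, hττ, hσσ]
      ring
    have h2 : |τ * σ| = 1 := by rw [abs_mul, hτa, hσa, one_mul]
    have h3 : |τ * σ * b.k m u| ≤ 1 / 8 := by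
      rw [abs_mul, h2, one_mul]
      exact h0
    have h4 := abs_le.1 h3
    rw [hkm, h1, abs_mul, h2, one_mul, abs_of_nonneg (by linarith [h4.1])]
  set L := (τ / (2 - d)) * (f u + σ * b.k m u) with hL
  have hq : (‖b.R m (P + u)‖ + |b.k m (P + u)|) / (2 - d) = 1 + L := by
    rw [hRn, hkabs, hL, h2c]
    field_simp
    ring
  have hLabs : |L| ≤ M * ‖u‖ := by
    have h1 : |f u + σ * b.k m u| ≤ M * ‖u‖ := by
      refine (abs_add_le _ _).trans ?_
      rw [abs_mul, hσa, one_mul]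
      exact hsum
    rw [hL, abs_mul, abs_div, hτa, abs_of_pos (by linarith : 0 < 2 - d)]
    have h2 : 1 / (2 - d) ≤ 1 := by
      rw [div_le_one (by linarith)]
      linarith
    calc 1 / (2 - d) * |f u + σ * b.k m u| ≤ 1 * (M * ‖u‖) :=
          mul_le_mul h2 h1 (abs_nonneg _) zero_le_one
      _ = M * ‖u‖ := one_mul _
  have hL1 := abs_le.1 hLabs
  have hMu : 2 * (M * ‖u‖) ≤ 1 - c := by nlinarith
  have hMu2 : M * ‖u‖ ≤ 1 / 8 := by nlinarith
  have b1 : ‖b.R m (P + u)‖ ≤ 1 + L := by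
    rw [hRn]
    have h1 : τ * f u ≤ M * ‖u‖ := by
      have h2 : |τ * f u| ≤ M * ‖u‖ := by
        rw [abs_mul, hτa, one_mul]
        have := abs_nonneg (b.k m u)
        linarith
      exact (le_abs_self _).trans h2
    linarith [hL1.1]
  have b2 : |b.k m (P + u)| ≤ 1 + L := by
    rw [hkabs]
    have h1 : τ * σ * b.k m u ≤ M * ‖u‖ := by
      have h2 : |τ * σ * b.k m u| ≤ M * ‖u‖ := by
        rw [abs_mul, abs_mul, hτa, hσa, one_mul, one_mul]
        have := abs_nonneg (f u)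
        linarith
      exact (le_abs_self _).trans h2
    linarith [hL1.1]
  have b3 : (1 / 2 : ℝ) ≤ 1 + L := by linarith [hL1.1]
  apply le_antisymm
  · have hup := b.upper m (P + u) (1 / 2) (by
      intro n hn
      rw [hkn n hn]
      have h1 := hku n
      have h2 : b.K * ‖u‖ ≤ M * ‖u‖ := by
        refine mul_le_mul_of_nonneg_right ?_ hun
        have := norm_nonneg f
        rw [hM]; linarith
      linarith)
    refine hup.trans ?_
    refine max_le (max_le (max_le b1 b2) ?_) b3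
    exact hq.le
  · have := hlow (P + u)
    rw [← hq]
    exact (le_max_right _ _).trans this


end PolyR126
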