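import Pool.Agent.PolyR126.Defs

set_option autoImplicit false

universe u v

namespace PolyR126

open Set Metric Filter Topology

private theorem low3 {X : Type u} [NormedAddCommGroup X] [NormedSpace ℝ X] (g : X →L[ℝ] ℝ) (x : X)
    (hx : ‖x‖ = 1) (c : ℝ) (h : c ≤ |g x|) : c ≤ ‖g‖ := by
  have := g.le_opNorm x
  rw [hx, mul_one, Real.norm_eq_abs] at this
  exact h.trans this

private theorem sgn3 {τ : ℝ} (hτ : τ = 1 ∨ τ = -1) : |τ| = 1 := by
  rcases hτ with rfl | rfl <;> simp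

/-- PROOF. (i) say `m < m'` (the other case is symmetric): evaluate at `e m'`, of norm one: `f (e m') = f (R m (e m')) = 0`, `k m (e m') = 0`, `f' (e m') = 0`,
`k m' (e m') = 1`; the value of the second functional is `± 1/(2 - δ)`, of modulus `≥ 1/2`. (ii) evaluate at `e m`: difference
`(τσ - τ'σ')/(2 - δ)` of modulus `2/(2-δ) ≥ 1`. (iii) `τσ = τ'σ'`, `τ ≠ τ'`, so `τ' = -τ`, `σ' = -σ`: evaluate at `x`: `2τ/(2-δ)`. (iv) the `k m` parts cancel:
the difference is `(2-δ)⁻¹ (τ f - τ' f') = (2-δ)⁻¹ τ (f - ττ' f')`. -/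
theorem sep_points {X : Type u} [NormedAddCommGroup X] [NormedSpace ℝ X] (b : Base X)
    (σ τ σ' τ' : ℝ) (hσ : σ = 1 ∨ σ = -1) (hτ : τ = 1 ∨ τ = -1) (hσ' : σ' = 1 ∨ σ' = -1)
    (hτ' : τ' = 1 ∨ τ' = -1) :
    (∀ (m m' : ℕ) (f f' : X →L[ℝ] ℝ), m ≠ m' → (∀ u, f (b.R m u) = f u) →
      (∀ u, f' (b.R m' u) = f' u) →
      1 / 2 ≤ ‖(τ / (2 - b.δ m)) • (f + σ • b.k m) - (τ' / (2 - b.δ m')) • (f' + σ' • b.k m')‖) ∧
    (∀ (m : ℕ) (f f' : X →L[ℝ] ℝ), τ * σ ≠ τ' * σ' → (∀ u, f (b.R m u) = f u) →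
      (∀ u, f' (b.R m u) = f' u) →
      1 / 2 ≤ ‖(τ / (2 - b.δ m)) • (f + σ • b.k m) - (τ' / (2 - b.δ m)) • (f' + σ' • b.k m)‖) ∧
    (∀ (m : ℕ) (f : X →L[ℝ] ℝ) (x : X), τ * σ = τ' * σ' → τ ≠ τ' → ‖x‖ = 1 → f x = 1 →
      b.k m x = 0 →
      1 / 2 ≤ ‖(τ / (2 - b.δ m)) • (f + σ • b.k m) - (τ' / (2 - b.δ m)) • (f + σ' • b.k m)‖) ∧
    (∀ (m : ℕ) (f f' : X →L[ℝ] ℝ) (η : ℝ), τ * σ = τ' * σ' → 0 ≤ η → η ≤ ‖f - f'‖ →
      η ≤ ‖f + f'‖ →
      η / 2 ≤ ‖(τ / (2 - b.δ m)) • (f + σ • b.k m) - (τ' / (2 - b.δ m)) • (f' + σ' • b.k m)‖) := by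
  have hd : ∀ m, 0 < 2 - b.δ m ∧ 2 - b.δ m ≤ 2 := by
    intro m
    have h1 := b.δ_le m
    have h2 := b.δ_pos m
    constructor <;> linarith
  have hinv : ∀ m, (1 : ℝ) / 2 ≤ 1 / (2 - b.δ m) := by
    intro m
    exact one_div_le_one_div_of_le (hd m).1 (hd m).2
  have hf0 : ∀ (m n : ℕ) (f : X →L[ℝ] ℝ), m ≤ n → (∀ u, f (b.R m u) = f u) → f (b.e n) = 0 := by
    intro m n f hmn hf
    rw [← hf, b.R_e m n hmn, map_zero]
  refine ⟨?_, ?_, ?_, ?_⟩
  · intro m m' f f' hne hf hf'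
    rcases lt_or_gt_of_ne hne with hlt | hlt
    · refine low3 _ (b.e m') (b.e_norm m') _ ?_
      have e1 := hf0 m m' f hlt.le hf
      have e2 := hf0 m' m' f' le_rfl hf'
      have e3 : b.k m (b.e m') = 0 := by rw [b.bi, if_neg hne]
      have e4 : b.k m' (b.e m') = 1 := by rw [b.bi, if_pos rfl]
      have e5 : ((τ / (2 - b.δ m)) • (f + σ • b.k m) - (τ' / (2 - b.δ m')) • (f' + σ' • b.k m'))
          (b.e m') = -(τ' * σ' / (2 - b.δ m')) := by
        show (τ / (2 - b.δ m)) * (f (b.e m') + σ * b.k m (b.e m')) -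
          (τ' / (2 - b.δ m')) * (f' (b.e m') + σ' * b.k m' (b.e m')) = _
        rw [e1, e2, e3, e4]
        ring
      rw [e5, abs_neg, abs_div, abs_mul, sgn3 hτ', sgn3 hσ', abs_of_pos (hd m').1, mul_one]
      exact hinv m'
    · refine low3 _ (b.e m) (b.e_norm m) _ ?_
      have e1 := hf0 m m f le_rfl hf
      have e2 := hf0 m' m f' hlt.le hf'
      have e3 : b.k m (b.e m) = 1 := by rw [b.bi, if_pos rfl]
      have e4 : b.k m' (b.e m) = 0 := by rw [b.bi, if_neg hne.symm]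
      have e5 : ((τ / (2 - b.δ m)) • (f + σ • b.k m) - (τ' / (2 - b.δ m')) • (f' + σ' • b.k m'))
          (b.e m) = τ * σ / (2 - b.δ m) := by
        show (τ / (2 - b.δ m)) * (f (b.e m) + σ * b.k m (b.e m)) -
          (τ' / (2 - b.δ m')) * (f' (b.e m) + σ' * b.k m' (b.e m)) = _
        rw [e1, e2, e3, e4]
        ring
      rw [e5, abs_div, abs_mul, sgn3 hτ, sgn3 hσ, abs_of_pos (hd m).1, mul_one]
      exact hinv m
  · intro m f f' hne hf hf'
    refine low3 _ (b.e m) (b.e_norm m) _ ?_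
    have e1 := hf0 m m f le_rfl hf
    have e2 := hf0 m m f' le_rfl hf'
    have e3 : b.k m (b.e m) = 1 := by rw [b.bi, if_pos rfl]
    have e5 : ((τ / (2 - b.δ m)) • (f + σ • b.k m) - (τ' / (2 - b.δ m)) • (f' + σ' • b.k m))
        (b.e m) = (τ * σ - τ' * σ') / (2 - b.δ m) := by
      show (τ / (2 - b.δ m)) * (f (b.e m) + σ * b.k m (b.e m)) -
        (τ' / (2 - b.δ m)) * (f' (b.e m) + σ' * b.k m (b.e m)) = _
      rw [e1, e2, e3]
      ring
    rw [e5, abs_div, abs_of_pos (hd m).1]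
    have h2 : |τ * σ - τ' * σ'| = 2 := by
      rcases hτ with rfl | rfl <;> rcases hσ with rfl | rfl <;> rcases hτ' with rfl | rfl <;>
        rcases hσ' with rfl | rfl <;>
        first | exact absurd rfl hne | (norm_num; done) | exact absurd (by norm_num) hne
    rw [h2]
    calc (1 : ℝ) / 2 ≤ 1 / (2 - b.δ m) := hinv m
      _ ≤ 2 / (2 - b.δ m) := div_le_div_of_nonneg_right (by norm_num) (hd m).1.le
  · intro m f x hprod hne hx hfx hkx
    refine low3 _ x hx _ ?_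
    have e5 : ((τ / (2 - b.δ m)) • (f + σ • b.k m) - (τ' / (2 - b.δ m)) • (f + σ' • b.k m))
        x = (τ - τ') / (2 - b.δ m) := by
      show (τ / (2 - b.δ m)) * (f x + σ * b.k m x) -
        (τ' / (2 - b.δ m)) * (f x + σ' * b.k m x) = _
      rw [hfx, hkx]
      ring
    rw [e5, abs_div, abs_of_pos (hd m).1]
    have h2 : |τ - τ'| = 2 := by
      rcases hτ with rfl | rfl <;> rcases hτ' with rfl | rfl <;>
        first | exact absurd rfl hne | norm_num
    rw [h2]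
    calc (1 : ℝ) / 2 ≤ 1 / (2 - b.δ m) := hinv m
      _ ≤ 2 / (2 - b.δ m) := div_le_div_of_nonneg_right (by norm_num) (hd m).1.le
  · intro m f f' η hprod hη h1 h2
    have e : (τ / (2 - b.δ m)) • (f + σ • b.k m) - (τ' / (2 - b.δ m)) • (f' + σ' • b.k m) =
        (1 / (2 - b.δ m)) • (τ • f - τ' • f') := by
      ext x
      show (τ / (2 - b.δ m)) * (f x + σ * b.k m x) - (τ' / (2 - b.δ m)) * (f' x + σ' * b.k m x) =
        (1 / (2 - b.δ m)) * (τ * f x - τ' * f' x)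
      have h3 : (τ * σ - τ' * σ') * b.k m x = 0 := by rw [hprod, sub_self, zero_mul]
      calc _ = (1 / (2 - b.δ m)) * (τ * f x - τ' * f' x + (τ * σ - τ' * σ') * b.k m x) := by ring
        _ = _ := by rw [h3, add_zero]
    have h3 : η ≤ ‖τ • f - τ' • f'‖ := by
      rcases hτ with rfl | rfl <;> rcases hτ' with rfl | rfl
      · rwa [one_smul, one_smul]
      · have e6 : (1 : ℝ) • f - (-1 : ℝ) • f' = f + f' := by
          ext x
          show 1 * f x - (-1) * f' x = f x + f' x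
          ring
        rw [e6]
        exact h2
      · have e6 : (-1 : ℝ) • f - (1 : ℝ) • f' = -(f + f') := by
          ext x
          show (-1) * f x - 1 * f' x = -(f x + f' x)
          ring
        rw [e6, norm_neg]
        exact h2
      · have e6 : (-1 : ℝ) • f - (-1 : ℝ) • f' = -(f - f') := by
          ext x
          show (-1) * f x - (-1) * f' x = -(f x - f' x)
          ring
        rw [e6, norm_neg]
        exact h1
    rw [e, norm_smul, Real.norm_of_nonneg (by have := (hd m).1; positivity)]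
    calc η / 2 = 1 / 2 * η := by ring
      _ ≤ 1 / (2 - b.δ m) * ‖τ • f - τ' • f'‖ := mul_le_mul (hinv m) h3 hη (by
          have := (hd m).1; positivity)

end PolyR126
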