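import Pool.Agent.PolyR126.Defs
import Pool.Agent.PolyR126.L1
import Pool.Agent.PolyR126.L2
import Pool.Agent.PolyR126.L3

set_option autoImplicit false

universe u v

namespace PolyR126

open Set Metric Filter Topology

private def sgL4 (t : Bool) : ℝ := if t then 1 else -1

private theorem sgL4_or (t : Bool) : sgL4 t = 1 ∨ sgL4 t = -1 := by
  cases t <;> simp [sgL4]

private theorem sgL4_not (t : Bool) : sgL4 (!t) = - sgL4 t := by
  cases t <;> simp [sgL4]

private theorem sgL4_inj {s t : Bool} (h : sgL4 s = sgL4 t) : s = t := by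
  cases s <;> cases t <;> simp [sgL4] at h ⊢ <;> norm_num at h

/-- PROOF. For every `m` take `η m, J m, f m, x m` from `family_in_layer` with `α m = 1/(m+3)`. `I = Σ m, J m × Bool × Bool` (the two Booleans give
`σ, τ ∈ {1,-1}`), `P (m,j,σ,τ) = (τ (1 - δ m/2)) • (x j + σ e_m)`, `F (m,j,σ,τ) = (τ/(2 - δ m)) • (f j + σ • k m)`, `neg` flips `τ`, `r` from `fac_point` (choice),
`c = min (1/2) (η m / 2)`. `norm_P`: `fac_point` with `u = 0`. `sep`: `sep_points`; for `(iii)` note that `f j (x j) = 1`: `‖x j + v‖ = 1 + f j v` with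
`v = t x j`, small `t > 0`. `gen`: let `g (P i) ≤ 1` for all `i`. Adding the inequalities for `σ = ±1` with `τ = 1`: `c_m g (x j) ≤ 1` for all `j : J m`, where
`c_m = 1 - δ m/2`. So by the last property in `family_in_layer` for the functional `c_m • g`: `c_m (g v) (1 - 2 α m) ≤ ‖v‖` for `v` killed by all `k n`, `n ≥ m`. Take
`v = R m x` (`b.k_R`), `‖R m x‖ ≤ ‖x‖`; let `m → ∞`: `R m x → x`, `c_m → 1`, `α m → 0`; so `g x ≤ ‖x‖`. -/
theorem exists_goodFamily {X : Type u} [NormedAddCommGroup X] [NormedSpace ℝ X] [CompleteSpace X]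
    (hX : HP X) (b : Base X) : Nonempty (GoodFamily X) := by
  have hα0 : ∀ m : ℕ, (0 : ℝ) < 1 / ((m : ℝ) + 3) := fun m => by positivity
  have hα1 : ∀ m : ℕ, 1 / ((m : ℝ) + 3) < (1 : ℝ) / 2 := fun m => by
    have : (0 : ℝ) ≤ m := Nat.cast_nonneg m
    rw [div_lt_div_iff₀ (by positivity) (by norm_num)]
    linarith
  choose η hη J f x hJ hxn hxk hf hR hsep hgen using
    fun m : ℕ => family_in_layer hX b m (1 / ((m : ℝ) + 3)) (hα0 m) (hα1 m)
  choose r hr hrfac using
    fun (m : ℕ) (j : J m) (σ τ : Bool) =>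
      fac_point b m (x m j) (hxn m j) (hxk m j) (f m j) (hR m j) (hf m j) (sgL4 σ) (sgL4 τ)
        (sgL4_or σ) (sgL4_or τ)
  have hδ2 : ∀ m, 0 < 2 - b.δ m := fun m => by have := b.δ_le m; linarith
  have hfx : ∀ m j, f m j (x m j) = 1 := by
    intro m j
    obtain ⟨ρ, hρ, hv⟩ := hf m j
    have h1 := hv ((ρ / 2) • x m j) (fun n hn => by rw [map_smul, hxk m j n hn, smul_zero]) (by
      rw [norm_smul, hxn, mul_one, Real.norm_of_nonneg (by positivity)]; linarith)
    have e : x m j + (ρ / 2) • x m j = (1 + ρ / 2) • x m j := by rw [add_smul, one_smul]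
    rw [e, norm_smul, hxn, Real.norm_of_nonneg (by positivity), map_smul, smul_eq_mul,
      mul_one] at h1
    have h2 : ρ / 2 * (f m j (x m j) - 1) = 0 := by linarith
    rcases mul_eq_zero.1 h2 with h3 | h3
    · linarith
    · linarith
  refine ⟨{
    I := Σ m : ℕ, J m × Bool × Bool
    P := fun i => (sgL4 i.2.2.2 * (1 - b.δ i.1 / 2)) • (x i.1 i.2.1 + sgL4 i.2.2.1 • b.e i.1)
    F := fun i => (sgL4 i.2.2.2 / (2 - b.δ i.1)) • (f i.1 i.2.1 + sgL4 i.2.2.1 • b.k i.1)
    r := fun i => r i.1 i.2.1 i.2.2.1 i.2.2.2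
    c := fun i => min (1 / 2) (η i.1 / 2)
    neg := fun i => ⟨i.1, i.2.1, i.2.2.1, !i.2.2.2⟩
    ne := ⟨⟨0, (hJ 0).some, true, true⟩⟩
    r_pos := fun i => hr _ _ _ _
    c_pos := fun i => lt_min (by norm_num) (half_pos (hη _))
    norm_P := fun i => ?_
    fac := fun i u hu => ?_
    sep := fun i j hij => ?_
    neg_neg := fun i => ?_
    P_neg := fun i => ?_
    gen := fun g hg v => ?_ }⟩
  · have h := hrfac i.1 i.2.1 i.2.2.1 i.2.2.2 0 (by rw [norm_zero]; exact hr _ _ _ _)
    rw [add_zero, map_zero, map_zero, mul_zero, add_zero, mul_zero, add_zero] at h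
    exact h
  · have h := hrfac i.1 i.2.1 i.2.2.1 i.2.2.2 u hu
    rw [h]
    rfl
  · obtain ⟨m, j1, σ, τ⟩ := i
    obtain ⟨m', j2, σ', τ'⟩ := j
    obtain ⟨s1, s2, s3, s4⟩ := sep_points b (sgL4 σ) (sgL4 τ) (sgL4 σ') (sgL4 τ')
      (sgL4_or σ) (sgL4_or τ) (sgL4_or σ') (sgL4_or τ')
    by_cases hm : m = m'
    · subst hm
      by_cases hst : sgL4 τ * sgL4 σ = sgL4 τ' * sgL4 σ'
      · by_cases hj : j1 = j2
        · subst hj
          have hτ : sgL4 τ ≠ sgL4 τ' := by
            intro hτ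
            have hτ2 := sgL4_inj hτ
            subst hτ2
            have h0 : sgL4 τ ≠ 0 := by rcases sgL4_or τ with h | h <;> rw [h] <;> norm_num
            have hσ2 := sgL4_inj (mul_left_cancel₀ h0 hst)
            subst hσ2
            exact hij rfl
          exact (min_le_left _ _).trans
            (s3 m (f m j1) (x m j1) hst hτ (hxn m j1) (hfx m j1) (hxk m j1 m le_rfl))
        · obtain ⟨h1, h2⟩ := hsep m j1 j2 hj
          exact (min_le_right _ _).trans
            (s4 m (f m j1) (f m j2) (η m) hst (hη m).le h1 h2)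
      · exact (min_le_left _ _).trans (s2 m (f m j1) (f m j2) hst (hR m j1) (hR m j2))
    · exact (min_le_left _ _).trans
        (s1 m m' (f m j1) (f m' j2) hm (hR m j1) (hR m' j2))
  · obtain ⟨m, j1, σ, τ⟩ := i
    simp
  · obtain ⟨m, j1, σ, τ⟩ := i
    simp only [sgL4_not]
    rw [neg_mul, neg_smul]
  · have hcx : ∀ m j, (1 - b.δ m / 2) * g (x m j) ≤ 1 := by
      intro m j
      have h1 := hg ⟨m, j, true, true⟩
      have h2 := hg ⟨m, j, false, true⟩
      simp only [sgL4, if_true, one_mul, one_smul, map_smul, map_add, smul_eq_mul,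
        Bool.false_eq_true, if_false, neg_smul, map_neg] at h1 h2
      linarith
    have hm : ∀ m : ℕ, ((1 - b.δ m / 2) * g (b.R m v)) * (1 - 2 * (1 / ((m : ℝ) + 3)))
        ≤ ‖b.R m v‖ := by
      intro m
      have := hgen m ((1 - b.δ m / 2) • g) (fun j => by
        simpa using hcx m j) (b.R m v) (fun n hn => b.k_R m n hn v)
      simpa using this
    have l1 : Tendsto (fun m => b.R m v) atTop (𝓝 v) := b.R_lim v
    have l2 : Tendsto (fun m => g (b.R m v)) atTop (𝓝 (g v)) :=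
      (g.continuous.tendsto v).comp l1
    have l3 : Tendsto (fun m => 1 - b.δ m / 2) atTop (𝓝 (1 - 0 / 2)) :=
      tendsto_const_nhds.sub (b.δ_lim.div_const 2)
    have l4 : Tendsto (fun m : ℕ => (1 : ℝ) / ((m : ℝ) + 3)) atTop (𝓝 0) := by
      have := tendsto_const_div_atTop_nhds_zero_nat (1 : ℝ)
      have := (tendsto_add_atTop_iff_nat 3).2 this
      refine this.congr fun m => ?_
      push_cast
      rfl
    have l5 : Tendsto (fun m : ℕ => 1 - 2 * ((1 : ℝ) / ((m : ℝ) + 3))) atTop (𝓝 (1 - 2 * 0)) :=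
      tendsto_const_nhds.sub (l4.const_mul 2)
    have l6 := (l3.mul l2).mul l5
    have l7 : Tendsto (fun m => ‖b.R m v‖) atTop (𝓝 ‖v‖) := l1.norm
    have := le_of_tendsto_of_tendsto' l6 l7 hm
    simpa using this

end PolyR126
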