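import Pool.Agent.PolyR126.Defs

set_option autoImplicit false

universe u v

namespace PolyR126

open Set Metric Filter Topology

/-- PROOF. `ε i = min (1/4) (min (r i * c i / 8) (r (neg i) * c (neg i) / 8))` (so `ε (neg i) = ε i`), `Y i = (1 + ε i) • P i`. `‖F i‖ ≤ 1`: `F i` is a facet functional at
`P i`: `1 + t F i v = ‖P i + t v‖ ≤ 1 + t ‖v‖`. `F i (P i) = 1`: take `u = t P i`. `excl`: for `‖g‖ ≤ 1` and `‖u‖ < r i`:
`g (P i) + g u ≤ ‖P i + u‖ = 1 + F i u`, so `(g - F i) u ≤ 1 - g (P i)`, hence `r i ‖g - F i‖ ≤ 1 - g (P i)`. If `1 < g (Y j)` then `1 - g (P j) < ε j`, so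
`‖g - F j‖ < ε j / r j ≤ c j / 8`. If also `g (Y i) > 1 - ε i` then `1 - g (P i) < 2 ε i`, so `‖g - F i‖ < 2 ε i / r i ≤ c i / 4`. Then
`‖F i - F j‖ < c j/8 + c i/4 < max (c i) (c j) ≤ ‖F i - F j‖`, contradiction (`sep` both ways). `gen`: `g (Y i) ≤ 1` gives
`g (P i) = g (Y i)/(1+ε i) ≤ 1`; then `G.gen`, applied at `x` and `-x`. -/
theorem spikes_of_goodFamily {X : Type u} [NormedAddCommGroup X] [NormedSpace ℝ X]
    (G : GoodFamily X) : Nonempty (Spikes X) := by
  have hF : ∀ i v, G.F i v ≤ ‖v‖ := by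
    intro i v
    have hr := G.r_pos i
    obtain ⟨t, ht⟩ : ∃ t : ℝ, t = G.r i / (2 * (‖v‖ + 1)) := ⟨_, rfl⟩
    have hv : 0 ≤ ‖v‖ := norm_nonneg v
    have ht0 : 0 < t := by rw [ht]; positivity
    have htv : ‖t • v‖ < G.r i := by
      rw [norm_smul, Real.norm_eq_abs, abs_of_pos ht0, ht, div_mul_eq_mul_div, div_lt_iff₀ (by positivity)]
      nlinarith
    have h1 := G.fac i (t • v) htv
    have h2 : ‖G.P i + t • v‖ ≤ 1 + t * ‖v‖ := by
      refine (norm_add_le _ _).trans ?_
      rw [G.norm_P, norm_smul, Real.norm_eq_abs, abs_of_pos ht0]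
    rw [h1, map_smul, smul_eq_mul] at h2
    have h3 : t * G.F i v ≤ t * ‖v‖ := by linarith
    exact le_of_mul_le_mul_left h3 ht0
  have hFn : ∀ i, ‖G.F i‖ ≤ 1 := by
    intro i
    refine ContinuousLinearMap.opNorm_le_bound _ zero_le_one fun v => ?_
    rw [one_mul, Real.norm_eq_abs, abs_le]
    refine ⟨?_, hF i v⟩
    have h1 := hF i (-v)
    rw [map_neg, norm_neg] at h1
    linarith
  have hFP : ∀ i, G.F i (G.P i) = 1 := by
    intro i
    have hr := G.r_pos i
    obtain ⟨t, ht⟩ : ∃ t : ℝ, t = G.r i / 2 := ⟨_, rfl⟩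
    have ht0 : 0 < t := by rw [ht]; positivity
    have htv : ‖t • G.P i‖ < G.r i := by
      rw [norm_smul, Real.norm_eq_abs, abs_of_pos ht0, G.norm_P, ht]
      linarith
    have h1 := G.fac i _ htv
    have h2 : G.P i + t • G.P i = (1 + t) • G.P i := by rw [add_smul, one_smul]
    rw [h2, norm_smul, G.norm_P, Real.norm_eq_abs, abs_of_pos (by linarith), map_smul,
      smul_eq_mul, mul_one] at h1
    have h3 : t * G.F i (G.P i) = t * 1 := by linarith
    exact mul_left_cancel₀ ht0.ne' h3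
  have key : ∀ (g : X →L[ℝ] ℝ), ‖g‖ ≤ 1 → ∀ i, ‖g - G.F i‖ * G.r i ≤ 2 * (1 - g (G.P i)) := by
    intro g hg i
    have hr := G.r_pos i
    have hgv : ∀ v, g v ≤ ‖v‖ := by
      intro v
      calc g v ≤ ‖g v‖ := Real.le_norm_self _
        _ ≤ ‖g‖ * ‖v‖ := g.le_opNorm v
        _ ≤ 1 * ‖v‖ := mul_le_mul_of_nonneg_right hg (norm_nonneg v)
        _ = ‖v‖ := one_mul _
    have hδ : 0 ≤ 1 - g (G.P i) := by
      have := hgv (G.P i)
      rw [G.norm_P] at this
      linarith
    have hu : ∀ u, ‖u‖ < G.r i → (g - G.F i) u ≤ 1 - g (G.P i) := by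
      intro u hu
      have h1 := G.fac i u hu
      have h2 := hgv (G.P i + u)
      rw [h1, map_add] at h2
      rw [_root_.sub_apply]
      linarith
    have hv : ∀ v, (g - G.F i) v ≤ 2 * (1 - g (G.P i)) / G.r i * ‖v‖ := by
      intro v
      by_cases h0 : v = 0
      · rw [h0]; simp
      · have hn : 0 < ‖v‖ := norm_pos_iff.2 h0
        obtain ⟨t, ht⟩ : ∃ t : ℝ, t = G.r i / 2 / ‖v‖ := ⟨_, rfl⟩
        have ht0 : 0 < t := by rw [ht]; positivity
        have htn : t * ‖v‖ = G.r i / 2 := by rw [ht]; field_simp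
        have h1 := hu (t • v) (by
          rw [norm_smul, Real.norm_eq_abs, abs_of_pos ht0, htn]
          linarith)
        rw [map_smul, smul_eq_mul] at h1
        have h2 : t * (2 * (1 - g (G.P i)) / G.r i * ‖v‖) = 1 - g (G.P i) := by
          calc t * (2 * (1 - g (G.P i)) / G.r i * ‖v‖) = (t * ‖v‖) * (2 * (1 - g (G.P i)) / G.r i) := by ring
            _ = 1 - g (G.P i) := by rw [htn]; field_simp
        rw [← h2] at h1
        exact le_of_mul_le_mul_left h1 ht0
    have hN : ‖g - G.F i‖ ≤ 2 * (1 - g (G.P i)) / G.r i := by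
      refine ContinuousLinearMap.opNorm_le_bound _ (by positivity) fun v => ?_
      rw [Real.norm_eq_abs, abs_le]
      refine ⟨?_, hv v⟩
      have h1 := hv (-v)
      rw [map_neg, norm_neg] at h1
      linarith
    calc ‖g - G.F i‖ * G.r i ≤ 2 * (1 - g (G.P i)) / G.r i * G.r i :=
          mul_le_mul_of_nonneg_right hN hr.le
      _ = 2 * (1 - g (G.P i)) := by field_simp
  obtain ⟨ε, hε⟩ : ∃ ε : G.I → ℝ, ∀ i, ε i = min (1 / 4)
    (min (G.r i * G.c i / 8) (G.r (G.neg i) * G.c (G.neg i) / 8)) := ⟨_, fun i => rfl⟩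
  have hε0 : ∀ i, 0 < ε i := by
    intro i
    have h1 := G.r_pos i
    have h2 := G.c_pos i
    have h3 := G.r_pos (G.neg i)
    have h4 := G.c_pos (G.neg i)
    rw [hε]
    refine lt_min (by norm_num) (lt_min (by positivity) (by positivity))
  have hε4 : ∀ i, ε i ≤ 1 / 4 := fun i => by rw [hε]; exact min_le_left _ _
  have hεr : ∀ i, ε i ≤ G.r i * G.c i / 8 := fun i => by
    rw [hε]; exact (min_le_right _ _).trans (min_le_left _ _)
  have hεn : ∀ i, ε (G.neg i) = ε i := by
    intro i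
    rw [hε, hε, G.neg_neg]
    congr 1
    exact min_comm _ _
  refine ⟨⟨G.I, G.ne, fun i => (1 + ε i) • G.P i, G.F, ε, G.neg, hε0, hε4, ?_, hFn, ?_, ?_, ?_, ?_⟩⟩
  · intro i
    have := hε0 i
    rw [norm_smul, G.norm_P, mul_one, Real.norm_eq_abs, abs_of_pos (by linarith)]
  · intro i
    rw [map_smul, hFP, smul_eq_mul, mul_one]
  · intro i
    rw [hεn, G.P_neg, smul_neg]
  · intro g hg i j hij hj
    by_contra hcon
    rw [not_le] at hcon
    rw [map_smul, smul_eq_mul] at hj hcon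
    have e1 := hε0 i
    have e2 := hε0 j
    have e3 := hε4 i
    have e4 := hε4 j
    have hgj : 1 - g (G.P j) < ε j := by nlinarith
    have hgi : 1 - g (G.P i) < 2 * ε i := by nlinarith
    have k1 := key g hg j
    have k2 := key g hg i
    have r1 := G.r_pos j
    have r2 := G.r_pos i
    have c1 := G.c_pos j
    have c2 := G.c_pos i
    have m1 : ‖g - G.F j‖ < G.c j / 4 := by
      have h1 : ‖g - G.F j‖ * G.r j < (G.c j / 4) * G.r j := by
        have := hεr j
        nlinarith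
      exact lt_of_mul_lt_mul_right h1 r1.le
    have m2 : ‖g - G.F i‖ < G.c i / 2 := by
      have h1 : ‖g - G.F i‖ * G.r i < (G.c i / 2) * G.r i := by
        have := hεr i
        nlinarith
      exact lt_of_mul_lt_mul_right h1 r2.le
    have m3 : ‖G.F i - G.F j‖ ≤ ‖g - G.F i‖ + ‖g - G.F j‖ := by
      have h1 : G.F i - G.F j = (g - G.F j) - (g - G.F i) := by abel
      rw [h1]
      refine (norm_sub_le _ _).trans ?_
      rw [add_comm]
    have m4 := G.sep i j hij
    have m5 := G.sep j i hij.symm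
    rw [norm_sub_rev] at m5
    linarith
  · intro g hg
    have h1 : ∀ i, g (G.P i) ≤ 1 := by
      intro i
      have h2 := hg i
      rw [map_smul, smul_eq_mul] at h2
      have e1 := hε0 i
      by_contra hcon
      rw [not_le] at hcon
      nlinarith
    have h2 := G.gen g h1
    refine ContinuousLinearMap.opNorm_le_bound _ zero_le_one fun v => ?_
    rw [one_mul, Real.norm_eq_abs, abs_le]
    refine ⟨?_, h2 v⟩
    have h3 := h2 (-v)
    rw [map_neg, norm_neg] at h3
    linarith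

end PolyR126
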