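import Pool.Agent.PolyR126.Defs

set_option autoImplicit false

universe u v

namespace PolyR126

open Set Metric Filter Topology

namespace M2

private theorem norm_pair {X : Type u} [NormedAddCommGroup X] [NormedSpace ℝ X]
    (S : Spikes X) {i j : S.I} (hij : i ≠ j) :
    ‖S.ε j • S.Y i + S.ε i • S.Y j‖ ≤ S.ε i + S.ε j := by
  obtain ⟨g, hg, hgx⟩ := exists_dual_vector'' ℝ (S.ε j • S.Y i + S.ε i • S.Y j)
  have hgx' : g (S.ε j • S.Y i + S.ε i • S.Y j) = ‖S.ε j • S.Y i + S.ε i • S.Y j‖ := by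
    simpa using hgx
  rw [← hgx', map_add, map_smul, map_smul, smul_eq_mul, smul_eq_mul]
  have hi := S.ε_pos i
  have hj := S.ε_pos j
  have bound : ∀ k, g (S.Y k) ≤ 1 + S.ε k := by
    intro k
    calc g (S.Y k) ≤ ‖g (S.Y k)‖ := le_abs_self _
      _ ≤ ‖g‖ * ‖S.Y k‖ := g.le_opNorm _
      _ ≤ 1 * ‖S.Y k‖ := by gcongr
      _ = 1 + S.ε k := by rw [one_mul, S.norm_Y]
  by_cases h1 : 1 < g (S.Y j)
  · have h2 := S.excl g hg i j hij h1
    nlinarith [bound j]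
  · by_cases h2 : 1 < g (S.Y i)
    · have h3 := S.excl g hg j i hij.symm h2
      nlinarith [bound i]
    · push Not at h1 h2
      nlinarith

private theorem aux {X : Type u} [NormedAddCommGroup X] [NormedSpace ℝ X]
    (S : Spikes X) {i j : S.I} (hij : i ≠ j) {p q : ℝ} (hp : 0 ≤ p) (hq : 0 ≤ q)
    (hpq : p + q ≤ 1) (z : X)
    (hz : ‖z - (p • S.Y i + q • S.Y j)‖ ≤ 1 - (p + q)) (h : q * S.ε j ≤ p * S.ε i) :
    z ∈ S.ball := by
  have hi := S.ε_pos i
  have hj := S.ε_pos j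
  have hr : q * S.ε j / S.ε i ≤ p := by
    rw [div_le_iff₀ hi]; exact h
  have hr0 : 0 ≤ q * S.ε j / S.ε i := by positivity
  refine ⟨i, p - q * S.ε j / S.ε i, by linarith, by linarith, ?_⟩
  have e : z - (p - q * S.ε j / S.ε i) • S.Y i
      = (z - (p • S.Y i + q • S.Y j)) + (q / S.ε i) • (S.ε j • S.Y i + S.ε i • S.Y j) := by
    have h1 : q / S.ε i * S.ε i = q := by field_simp
    have h2 : q / S.ε i * S.ε j = q * S.ε j / S.ε i := by ring
    rw [smul_add, smul_smul, smul_smul, h1, h2, sub_smul]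
    abel
  rw [e]
  refine (norm_add_le _ _).trans ?_
  have hS : ‖(q / S.ε i) • (S.ε j • S.Y i + S.ε i • S.Y j)‖ ≤ q + q * S.ε j / S.ε i := by
    rw [norm_smul, Real.norm_of_nonneg (by positivity)]
    calc q / S.ε i * ‖S.ε j • S.Y i + S.ε i • S.Y j‖ ≤ q / S.ε i * (S.ε i + S.ε j) := by
          gcongr
          exact norm_pair S hij
      _ = q + q * S.ε j / S.ε i := by field_simp
  linarith

end M2

/-- PROOF. (a) `‖ε j • Y i + ε i • Y j‖ ≤ ε i + ε j` for `i ≠ j`: take a norming functional `g`, `‖g‖ ≤ 1`. If `g (Y i) > 1` then `g (Y j) ≤ 1 - ε j` by `excl`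
and `g (Y i) ≤ 1 + ε i`, so `ε j g (Y i) + ε i g (Y j) ≤ ε j (1 + ε i) + ε i (1 - ε j) = ε i + ε j`; symmetric if `g (Y j) > 1`; clear if both `≤ 1`.
(b) the ball is `{b + μ Y i | 0 ≤ μ, ‖b‖ + μ ≤ 1}`. A convex combination of `b₁ + μ₁ Y i` and `b₂ + μ₂ Y j` is `b + p Y i + q Y j` with `p, q ≥ 0`,
`‖b‖ + p + q ≤ 1`. If `i = j` done. Otherwise say `p ε i ≥ q ε j` (the other case is symmetric). Then
`p Y i + q Y j = (p - q ε j/ε i) Y i + S`, `S = (q/ε i) (ε j Y i + ε i Y j)`, `‖S‖ ≤ q + q ε j/ε i` by (a). So it is `(b + S) + (p - q ε j/ε i) Y i`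
with `‖b + S‖ + (p - q ε j/ε i) ≤ 1`. -/
theorem Spikes.convex_ball {X : Type u} [NormedAddCommGroup X] [NormedSpace ℝ X]
    (S : Spikes X) : Convex ℝ S.ball := by
  rintro x ⟨i, μ₁, h10, h11, hx⟩ y ⟨j, μ₂, h20, h21, hy⟩ a b ha hb hab
  have key : ‖(a • x + b • y) - ((a * μ₁) • S.Y i + (b * μ₂) • S.Y j)‖
      ≤ 1 - (a * μ₁ + b * μ₂) := by
    have e : (a • x + b • y) - ((a * μ₁) • S.Y i + (b * μ₂) • S.Y j)
        = a • (x - μ₁ • S.Y i) + b • (y - μ₂ • S.Y j) := by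
      rw [smul_sub, smul_sub, smul_smul, smul_smul]; abel
    rw [e]
    refine (norm_add_le _ _).trans ?_
    rw [norm_smul, norm_smul, Real.norm_of_nonneg ha, Real.norm_of_nonneg hb]
    nlinarith [mul_le_mul_of_nonneg_left hx ha, mul_le_mul_of_nonneg_left hy hb]
  have hp : 0 ≤ a * μ₁ := mul_nonneg ha h10
  have hq : 0 ≤ b * μ₂ := mul_nonneg hb h20
  have hpq : a * μ₁ + b * μ₂ ≤ 1 := by
    nlinarith [mul_le_mul_of_nonneg_left h11 ha, mul_le_mul_of_nonneg_left h21 hb]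
  by_cases hij : i = j
  · subst hij
    refine ⟨i, a * μ₁ + b * μ₂, by linarith, hpq, ?_⟩
    rw [add_smul]
    exact key
  · rcases le_total (b * μ₂ * S.ε j) (a * μ₁ * S.ε i) with h | h
    · exact M2.aux S hij hp hq hpq _ key h
    · refine M2.aux S (Ne.symm hij) hq hp (by linarith) _ ?_ h
      rw [add_comm ((b * μ₂) • S.Y j), add_comm (b * μ₂)]
      exact key

end PolyR126
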