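import Pool.Agent.PolyR126.Defs

set_option autoImplicit false

universe u v

namespace PolyR126

open Set Metric Filter Topology

/-- One piece of the ball is closed. -/
private theorem isClosed_piece {X : Type u} [NormedAddCommGroup X] [NormedSpace ℝ X] (y : X) :
    IsClosed {x : X | ∃ μ : ℝ, 0 ≤ μ ∧ μ ≤ 1 ∧ ‖x - μ • y‖ ≤ 1 - μ} := by
  have h : {x : X | ∃ μ : ℝ, 0 ≤ μ ∧ μ ≤ 1 ∧ ‖x - μ • y‖ ≤ 1 - μ} =
      Prod.snd '' {p : (Set.Icc (0 : ℝ) 1) × X | ‖p.2 - (p.1 : ℝ) • y‖ ≤ 1 - (p.1 : ℝ)} := by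
    ext x
    constructor
    · rintro ⟨μ, h0, h1, h2⟩
      exact ⟨(⟨μ, h0, h1⟩, x), h2, rfl⟩
    · rintro ⟨⟨⟨μ, h0, h1⟩, z⟩, h2, rfl⟩
      exact ⟨μ, h0, h1, h2⟩
  rw [h]
  apply isClosedMap_snd_of_compactSpace
  apply isClosed_le
  · fun_prop
  · fun_prop

/-- PROOF. For fixed `i` the set `C i = {x | ∃ μ ∈ [0,1], ‖x - μ Y i‖ ≤ 1 - μ}` is closed (compactness of `[0,1]`). Let `x_k → x`, `x_k ∈ S.ball`. If `‖x‖ ≤ 1`, `x` is in
the ball (`μ = 0`). Let `‖x‖ > 1`, `g` a norming functional of `x`, `‖g‖ ≤ 1`. For large `k` `g x_k > 1`; `x_k ∈ C i` with `μ`: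
`1 < g x_k ≤ (1 - μ) + μ g (Y i)` so `g (Y i) > 1`. By `excl` there is at most one such `i` (if `g (Y i) > 1`, `g (Y j) > 1`, `i ≠ j` then
`g (Y i) ≤ 1 - ε i < 1`). So all `x_k`, `k` large, are in one `C i`, and so is `x`. -/
theorem Spikes.isClosed_ball {X : Type u} [NormedAddCommGroup X] [NormedSpace ℝ X]
    (S : Spikes X) : IsClosed S.ball := by
  rw [← closure_subset_iff_isClosed]
  intro x hx
  by_cases hx1 : ‖x‖ ≤ 1
  · obtain ⟨i⟩ := S.ne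
    exact ⟨i, 0, le_rfl, zero_le_one, by simpa using hx1⟩
  · push Not at hx1
    obtain ⟨g, hg1, hgx⟩ := exists_dual_vector'' ℝ x
    have hgx1 : 1 < g x := by rw [hgx]; simpa using hx1
    have hU : IsOpen {z : X | 1 < g z} := isOpen_lt continuous_const g.continuous
    have hx2 : x ∈ closure ({z : X | 1 < g z} ∩ S.ball) := hU.inter_closure ⟨hgx1, hx⟩
    -- every point of the ball with 1 < g z lies in a piece whose new vertex satisfies 1 < g (Y i)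
    have hpiece : ∀ z ∈ {z : X | 1 < g z} ∩ S.ball, ∃ i, 1 < g (S.Y i) ∧
        z ∈ {x : X | ∃ μ : ℝ, 0 ≤ μ ∧ μ ≤ 1 ∧ ‖x - μ • S.Y i‖ ≤ 1 - μ} := by
      rintro z ⟨hz, i, μ, h0, h1, h2⟩
      refine ⟨i, ?_, μ, h0, h1, h2⟩
      have hz' : 1 < g z := hz
      have h3 : g (z - μ • S.Y i) ≤ 1 - μ := by
        calc g (z - μ • S.Y i) ≤ ‖g (z - μ • S.Y i)‖ := le_abs_self _
          _ ≤ ‖g‖ * ‖z - μ • S.Y i‖ := g.le_opNorm _
          _ ≤ 1 * (1 - μ) := mul_le_mul hg1 h2 (norm_nonneg _) zero_le_one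
          _ = 1 - μ := one_mul _
      rw [map_sub, map_smul, smul_eq_mul] at h3
      by_contra hcon
      push Not at hcon
      have h4 : μ * g (S.Y i) ≤ μ * 1 := mul_le_mul_of_nonneg_left hcon h0
      linarith
    obtain ⟨z0, hz0⟩ : ({z : X | 1 < g z} ∩ S.ball).Nonempty := closure_nonempty_iff.mp ⟨x, hx2⟩
    obtain ⟨i, hi, -⟩ := hpiece z0 hz0
    have hsub : {z : X | 1 < g z} ∩ S.ball ⊆
        {x : X | ∃ μ : ℝ, 0 ≤ μ ∧ μ ≤ 1 ∧ ‖x - μ • S.Y i‖ ≤ 1 - μ} := by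
      intro z hz
      obtain ⟨j, hj, hz'⟩ := hpiece z hz
      by_cases hij : i = j
      · rw [hij]; exact hz'
      · have := S.excl g hg1 i j hij hj
        have := S.ε_pos i
        linarith
    exact ⟨i, closure_minimal hsub (isClosed_piece (S.Y i)) hx2⟩

end PolyR126
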