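import Pool.Agent.PolyR126.Defs

set_option autoImplicit false

universe u v

namespace PolyR126

open Set Metric Filter Topology

/-- PROOF. `-x`: use `neg i`. `closedBall 0 1 ⊆ ball`: `μ = 0`. `ball ⊆ closedBall 0 2`: `‖x‖ ≤ (1 - μ) + μ (1 + ε i) ≤ 2`. -/
theorem Spikes.ball_basic {X : Type u} [NormedAddCommGroup X] [NormedSpace ℝ X]
    (S : Spikes X) : (∀ x ∈ S.ball, -x ∈ S.ball) ∧ closedBall (0 : X) 1 ⊆ S.ball ∧
      S.ball ⊆ closedBall (0 : X) 2 := by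
  refine ⟨?_, ?_, ?_⟩
  · rintro x ⟨i, μ, h0, h1, h2⟩
    refine ⟨S.neg i, μ, h0, h1, ?_⟩
    rw [S.Y_neg, smul_neg, sub_neg_eq_add, ← norm_neg, neg_add, neg_neg, ← sub_eq_add_neg]
    exact h2
  · intro x hx
    rw [mem_closedBall_zero_iff] at hx
    obtain ⟨i⟩ := S.ne
    refine ⟨i, 0, le_rfl, zero_le_one, ?_⟩
    rw [zero_smul, sub_zero, sub_zero]
    exact hx
  · rintro x ⟨i, μ, h0, h1, h2⟩
    rw [mem_closedBall_zero_iff]
    have h3 : x = (x - μ • S.Y i) + μ • S.Y i := by abel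
    have h4 : ‖μ • S.Y i‖ = μ * (1 + S.ε i) := by
      rw [norm_smul, Real.norm_of_nonneg h0, S.norm_Y]
    have h5 := S.ε_le i
    have h6 := S.ε_pos i
    calc ‖x‖ = ‖(x - μ • S.Y i) + μ • S.Y i‖ := by rw [← h3]
      _ ≤ ‖x - μ • S.Y i‖ + ‖μ • S.Y i‖ := norm_add_le _ _
      _ ≤ (1 - μ) + μ * (1 + S.ε i) := by rw [h4]; linarith
      _ ≤ 2 := by nlinarith

end PolyR126
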