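import Pool.Agent.PolyR126.Defs
import Pool.Agent.PolyR126.A11
import Pool.Agent.PolyR126.A2
import Pool.Agent.PolyR126.A4

set_option autoImplicit false

universe u v

namespace PolyR126

open Set Metric Filter Topology

/-- One piece of the new ball. -/
private def M5.C {X : Type u} [NormedAddCommGroup X] [NormedSpace ℝ X] (y : X) : Set X :=
  {x | ∃ μ : ℝ, 0 ≤ μ ∧ μ ≤ 1 ∧ ‖x - μ • y‖ ≤ 1 - μ}

private theorem M5.convex_C {X : Type u} [NormedAddCommGroup X] [NormedSpace ℝ X] (y : X) :
    Convex ℝ (M5.C y) := by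
  rintro x ⟨μ, hμ0, hμ1, hx⟩ z ⟨ν, hν0, hν1, hz⟩ a b ha hb hab
  refine ⟨a * μ + b * ν, by positivity, ?_, ?_⟩
  · nlinarith
  · have e : a • x + b • z - (a * μ + b * ν) • y = a • (x - μ • y) + b • (z - ν • y) := by
      module
    rw [e]
    calc ‖a • (x - μ • y) + b • (z - ν • y)‖
        ≤ ‖a • (x - μ • y)‖ + ‖b • (z - ν • y)‖ := norm_add_le _ _
      _ = a * ‖x - μ • y‖ + b * ‖z - ν • y‖ := by
          rw [norm_smul, norm_smul, Real.norm_of_nonneg ha, Real.norm_of_nonneg hb]
      _ ≤ a * (1 - μ) + b * (1 - ν) := by gcongr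
      _ = 1 - (a * μ + b * ν) := by linear_combination hab

private theorem M5.closedBall_subset_C {X : Type u} [NormedAddCommGroup X] [NormedSpace ℝ X]
    (y : X) : Metric.closedBall (0 : X) 1 ⊆ M5.C y := by
  intro x hx
  rw [mem_closedBall_zero_iff] at hx
  exact ⟨0, le_rfl, zero_le_one, by simpa using hx⟩

private theorem M5.self_mem_C {X : Type u} [NormedAddCommGroup X] [NormedSpace ℝ X]
    (y : X) : y ∈ M5.C y := ⟨1, zero_le_one, le_rfl, by simp⟩

private theorem M5.ball_eq_hull {X : Type u} [NormedAddCommGroup X] [NormedSpace ℝ X]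
    (hX : HP X) (F : Submodule ℝ X) (hF : FiniteDimensional ℝ F) :
    convexHull ℝ (Set.extremePoints ℝ (Metric.closedBall (0 : X) 1 ∩ (F : Set X))) =
      Metric.closedBall (0 : X) 1 ∩ (F : Set X) := by
  have hfin := polySpace_of_hp hX F hF
  have hcomp : IsCompact (Metric.closedBall (0 : X) 1 ∩ (F : Set X)) := by
    have h1 : IsCompact (Metric.closedBall (0 : F) 1) := isCompact_closedBall _ _
    have h2 : (Subtype.val : F → X) '' (Metric.closedBall (0 : F) 1) =
        Metric.closedBall (0 : X) 1 ∩ (F : Set X) := by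
      ext x
      constructor
      · rintro ⟨z, hz, rfl⟩
        rw [mem_closedBall_zero_iff] at hz
        refine ⟨?_, z.2⟩
        rw [mem_closedBall_zero_iff]
        simpa using hz
      · rintro ⟨hx, hxF⟩
        rw [mem_closedBall_zero_iff] at hx
        refine ⟨⟨x, hxF⟩, ?_, rfl⟩
        rw [mem_closedBall_zero_iff]
        simpa using hx
    rw [← h2]
    exact h1.image continuous_subtype_val
  have hconv : Convex ℝ (Metric.closedBall (0 : X) 1 ∩ (F : Set X)) :=
    (convex_closedBall _ _).inter F.convex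
  have h3 := closure_convexHull_extremePoints hcomp hconv
  rwa [(hfin.isClosed_convexHull (𝕜 := ℝ)).closure_eq] at h3

private theorem M5.piece_finite {X : Type u} [NormedAddCommGroup X] [NormedSpace ℝ X]
    (hX : HP X) (y : X) (F : Submodule ℝ X) (hF : FiniteDimensional ℝ F) :
    (Set.extremePoints ℝ (M5.C y ∩ (F : Set X))).Finite := by
  have hF' : FiniteDimensional ℝ (F ⊔ Submodule.span ℝ {y} : Submodule ℝ X) := inferInstance
  have hfin := polySpace_of_hp hX _ hF'
  have hull := M5.ball_eq_hull hX _ hF'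
  set V := Set.extremePoints ℝ
    (Metric.closedBall (0 : X) 1 ∩ ((F ⊔ Submodule.span ℝ {y} : Submodule ℝ X) : Set X))
    with hV
  have hVy : (insert y V).Finite := hfin.insert y
  have key : M5.C y ∩ (F : Set X) = convexHull ℝ (insert y V) ∩ (F : Set X) := by
    apply Set.Subset.antisymm
    · rintro x ⟨⟨μ, hμ0, hμ1, hx⟩, hxF⟩
      refine ⟨?_, hxF⟩
      have hy : y ∈ convexHull ℝ (insert y V) := subset_convexHull _ _ (Set.mem_insert _ _)
      rcases eq_or_lt_of_le hμ1 with rfl | hlt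
      · have h0 : x - (1 : ℝ) • y = 0 := by
          rw [← norm_le_zero_iff]; simpa using hx
        rw [one_smul, sub_eq_zero] at h0
        rw [h0]
        exact hy
      · have h1 : 0 < 1 - μ := by linarith
        have hb : (1 - μ)⁻¹ • (x - μ • y) ∈ convexHull ℝ (insert y V) := by
          apply convexHull_mono (Set.subset_insert y V)
          rw [hull]
          refine ⟨?_, ?_⟩
          · rw [mem_closedBall_zero_iff, norm_smul, norm_inv, Real.norm_of_nonneg h1.le,
              inv_mul_le_iff₀ h1, mul_one]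
            exact hx
          · apply Submodule.smul_mem
            apply Submodule.sub_mem
            · exact Submodule.mem_sup_left hxF
            · apply Submodule.smul_mem
              exact Submodule.mem_sup_right (Submodule.mem_span_singleton_self y)
        have hc := (convex_convexHull ℝ (insert y V)) hb hy h1.le hμ0 (by ring)
        have e : (1 - μ) • (1 - μ)⁻¹ • (x - μ • y) + μ • y = x := by
          rw [smul_inv_smul₀ h1.ne']; abel
        rwa [e] at hc
    · rintro x ⟨hx, hxF⟩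
      refine ⟨?_, hxF⟩
      refine convexHull_min ?_ (M5.convex_C y) hx
      intro z hz
      rcases hz with rfl | hz
      · exact M5.self_mem_C _
      · apply M5.closedBall_subset_C
        exact (extremePoints_subset hz).1
  rw [key]
  exact ext_finite_convexHull_inter _ hVy F

/-- PROOF. Let `F` be finite-dimensional and `G` a finite set of functionals of norm `≤ 1` norming `F` (`HP.norming`). If `x ∈ F` is in
`C i = {x | ∃ μ ∈ [0,1], ‖x - μ Y i‖ ≤ 1 - μ}` and `‖x‖ > 1`, some `φ ∈ G` has `φ x = ‖x‖ > 1`, and `φ x ≤ (1 - μ) + μ φ (Y i)`, so `φ (Y i) > 1`; by `excl` each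
`φ ∈ G` has at most one such `i`. So the set `I₀` of `i` for which `C i ∩ F ⊄ closedBall 0 1` is finite, and
`S.ball ∩ F = (closedBall 0 1 ∩ F) ∪ ⋃_{i ∈ I₀} (C i ∩ F)`. An extreme point of a union lying in one of the pieces is an extreme point of this piece. The
first piece has finitely many extreme points (`polySpace_of_hp`). Second: let `F' = F ⊔ span {Y i}`, finite-dimensional; `closedBall 0 1 ∩ F'` is a compact convex
set with finitely many extreme points `V`, so it is `convexHull V` (Krein-Milman `closure_convexHull_extremePoints`; a finite set has a closed convex hull).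
`C i ∩ F = convexHull (V ∪ {Y i}) ∩ F` (for `x ∈ C i ∩ F`, `x = b + μ Y i` with `b = x - μ Y i ∈ F'`, `‖b‖ ≤ 1 - μ`). `ext_finite_convexHull_inter`. -/
theorem Spikes.poly_ball {X : Type u} [NormedAddCommGroup X] [NormedSpace ℝ X]
    (hX : HP X) (S : Spikes X) (F : Submodule ℝ X) (hF : FiniteDimensional ℝ F) :
    (Set.extremePoints ℝ (S.ball ∩ (F : Set X))).Finite := by
  obtain ⟨G, hG1, hG2⟩ := hX.norming F hF
  have hone : ∀ φ ∈ G, {i | 1 < φ (S.Y i)}.Finite := by
    intro φ hφ
    apply Set.Subsingleton.finite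
    intro i hi j hj
    by_contra hij
    have h1 := S.excl φ (hG1 φ hφ) i j hij hj
    have h2 := S.ε_pos i
    have h3 : 1 < φ (S.Y i) := hi
    linarith
  have hI : (⋃ φ ∈ G, {i | 1 < φ (S.Y i)}).Finite :=
    Set.Finite.biUnion G.finite_toSet (fun φ hφ => hone φ hφ)
  have hcover : S.ball ∩ (F : Set X) ⊆ (Metric.closedBall (0 : X) 1 ∩ (F : Set X)) ∪
      ⋃ i ∈ (⋃ φ ∈ G, {i | 1 < φ (S.Y i)}), (M5.C (S.Y i) ∩ (F : Set X)) := by
    rintro x ⟨⟨i, μ, hμ0, hμ1, hx⟩, hxF⟩
    by_cases hle : ‖x‖ ≤ 1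
    · left
      exact ⟨by rwa [mem_closedBall_zero_iff], hxF⟩
    · right
      push Not at hle
      obtain ⟨φ, hφ, hφx⟩ := hG2 x hxF
      rw [Set.mem_iUnion₂]
      refine ⟨i, ?_, ⟨μ, hμ0, hμ1, hx⟩, hxF⟩
      rw [Set.mem_iUnion₂]
      refine ⟨φ, hφ, ?_⟩
      change 1 < φ (S.Y i)
      by_contra hcon
      push Not at hcon
      have h1 : φ x = φ (x - μ • S.Y i) + μ * φ (S.Y i) := by
        rw [map_sub, map_smul, smul_eq_mul]; ring
      have h2 : φ (x - μ • S.Y i) ≤ ‖x - μ • S.Y i‖ := by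
        calc φ (x - μ • S.Y i) ≤ ‖φ (x - μ • S.Y i)‖ := Real.le_norm_self _
          _ ≤ ‖φ‖ * ‖x - μ • S.Y i‖ := φ.le_opNorm _
          _ ≤ 1 * ‖x - μ • S.Y i‖ := by gcongr; exact hG1 φ hφ
          _ = ‖x - μ • S.Y i‖ := one_mul _
      have h3 : μ * φ (S.Y i) ≤ μ * 1 := mul_le_mul_of_nonneg_left hcon hμ0
      linarith
  have hsub : ∀ i, M5.C (S.Y i) ∩ (F : Set X) ⊆ S.ball ∩ (F : Set X) := by
    rintro i x ⟨⟨μ, h⟩, hxF⟩
    exact ⟨⟨i, μ, h⟩, hxF⟩
  have hsub0 : Metric.closedBall (0 : X) 1 ∩ (F : Set X) ⊆ S.ball ∩ (F : Set X) := by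
    obtain ⟨i⟩ := S.ne
    rintro x ⟨hx, hxF⟩
    exact hsub i ⟨M5.closedBall_subset_C _ hx, hxF⟩
  have hfin : (Set.extremePoints ℝ (Metric.closedBall (0 : X) 1 ∩ (F : Set X)) ∪
      ⋃ i ∈ (⋃ φ ∈ G, {i | 1 < φ (S.Y i)}),
        Set.extremePoints ℝ (M5.C (S.Y i) ∩ (F : Set X))).Finite :=
    (polySpace_of_hp hX F hF).union
      (hI.biUnion fun i _ => M5.piece_finite hX (S.Y i) F hF)
  refine hfin.subset ?_
  intro x hx
  rcases hcover (extremePoints_subset hx) with h | h
  · left
    exact inter_extremePoints_subset_extremePoints_of_subset hsub0 ⟨h, hx⟩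
  · right
    rw [Set.mem_iUnion₂] at h ⊢
    obtain ⟨i, hi, hxi⟩ := h
    exact ⟨i, hi, inter_extremePoints_subset_extremePoints_of_subset (hsub i) ⟨hxi, hx⟩⟩

end PolyR126
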