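import Pool.Agent.PolyR126.Defs

set_option autoImplicit false

universe u v

namespace PolyR126

open Set Metric Filter Topology

private theorem M6.F_le {X : Type u} [NormedAddCommGroup X] [NormedSpace ℝ X]
    (S : Spikes X) (i : S.I) {x : X} (hx : x ∈ S.ball) :
    S.F i x ≤ 1 + S.ε i ∧ (S.F i x = 1 + S.ε i → x = S.Y i) := by
  obtain ⟨j, μ, hμ0, hμ1, hxμ⟩ := hx
  have hε := S.ε_pos i
  have h1 : S.F i x = S.F i (x - μ • S.Y j) + μ * S.F i (S.Y j) := by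
    rw [map_sub, map_smul, smul_eq_mul]; ring
  have h2 : S.F i (x - μ • S.Y j) ≤ ‖x - μ • S.Y j‖ := by
    calc S.F i (x - μ • S.Y j) ≤ ‖S.F i (x - μ • S.Y j)‖ := Real.le_norm_self _
      _ ≤ ‖S.F i‖ * ‖x - μ • S.Y j‖ := (S.F i).le_opNorm _
      _ ≤ 1 * ‖x - μ • S.Y j‖ := by gcongr; exact S.F_norm i
      _ = ‖x - μ • S.Y j‖ := one_mul _
  by_cases hij : j = i
  · subst hij
    rw [S.F_Y] at h1
    have h3 : μ * S.ε j ≤ 1 * S.ε j := mul_le_mul_of_nonneg_right hμ1 hε.le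
    refine ⟨by nlinarith, ?_⟩
    intro heq
    have hμ : μ = 1 := by
      by_contra hne
      have hlt : μ < 1 := lt_of_le_of_ne hμ1 hne
      nlinarith
    subst hμ
    have h4 : x - (1 : ℝ) • S.Y j = 0 := by
      rw [← norm_le_zero_iff]; simpa using hxμ
    rwa [one_smul, sub_eq_zero] at h4
  · have h3 := S.excl (S.F i) (S.F_norm i) j i hij (by rw [S.F_Y]; linarith)
    have h4 := S.ε_pos j
    have h5 : μ * S.F i (S.Y j) ≤ μ * (1 - S.ε j) := mul_le_mul_of_nonneg_left h3 hμ0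
    have h6 : 0 ≤ μ * S.ε j := by positivity
    refine ⟨by nlinarith, ?_⟩
    intro heq
    exfalso
    nlinarith

/-- PROOF. Let `x ∈ S.ball`, `x = b + μ Y j`, `‖b‖ ≤ 1 - μ`, `0 ≤ μ ≤ 1`. `F i (Y i) = 1 + ε i > 1`. If `j ≠ i`, `excl` with `g = F i` gives `F i (Y j) ≤ 1 - ε j < 1`, so
`F i x ≤ 1`. If `j = i`: `F i x ≤ (1 - μ) + μ (1 + ε i) = 1 + μ ε i ≤ 1 + ε i` with equality only if `μ = 1`, when `b = 0` and `x = Y i`. So `Y i` is the unique
maximum point of `F i` on `S.ball`, hence an extreme point. -/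
theorem Spikes.Y_extreme {X : Type u} [NormedAddCommGroup X] [NormedSpace ℝ X]
    (S : Spikes X) (i : S.I) : S.Y i ∈ Set.extremePoints ℝ S.ball := by
  refine ⟨⟨i, 1, zero_le_one, le_rfl, by simp⟩, ?_⟩
  rintro x hx y hy ⟨a, b, ha, hb, hab, hxy⟩
  obtain ⟨h1, h2⟩ := M6.F_le S i hx
  obtain ⟨h3, _⟩ := M6.F_le S i hy
  apply h2
  have h5 : a * S.F i x + b * S.F i y = 1 + S.ε i := by
    rw [← S.F_Y i, ← hxy, map_add, map_smul, map_smul, smul_eq_mul, smul_eq_mul]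
  have h6 : b * S.F i y ≤ b * (1 + S.ε i) := mul_le_mul_of_nonneg_left h3 hb.le
  have h7 : a * (1 + S.ε i) ≤ a * S.F i x := by
    have : a * (1 + S.ε i) + b * (1 + S.ε i) = 1 + S.ε i := by
      rw [← add_mul, hab, one_mul]
    linarith
  exact le_antisymm h1 (le_of_mul_le_mul_left h7 ha)

end PolyR126
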