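import Pool.Agent.PolyR126.Defs

set_option autoImplicit false

universe u v

namespace PolyR126

open Set Metric Filter Topology

/-- PROOF. Let `A = closure (convexHull (range Y))`, `x ∈ S.ball`, suppose `x ∉ A`. Hahn-Banach (`geometric_hahn_banach_closed_point`): `g` and `s` with `g a < s < g x` for
`a ∈ A`. By symmetry `g (Y i) < s` and `-g (Y i) = g (Y (neg i)) < s`, so `s > 0`. `(s⁻¹ g) (Y i) ≤ 1` for all `i`, so `‖s⁻¹ g‖ ≤ 1` by `gen`. `x = b + μ Y i`: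
`s⁻¹ g x ≤ (1 - μ) + μ = 1`, so `g x ≤ s`, contradiction. -/
theorem Spikes.ball_subset {X : Type u} [NormedAddCommGroup X] [NormedSpace ℝ X]
    (S : Spikes X) : S.ball ⊆ closure (convexHull ℝ (Set.range S.Y)) := by
  rintro x ⟨i, μ, hμ0, hμ1, hx⟩
  by_contra hxA
  obtain ⟨g, s, hs, hgx⟩ := geometric_hahn_banach_closed_point
    ((convex_convexHull ℝ (Set.range S.Y)).closure) isClosed_closure hxA
  have hY : ∀ j, g (S.Y j) < s := fun j =>
    hs _ (subset_closure (subset_convexHull ℝ _ ⟨j, rfl⟩))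
  have hspos : 0 < s := by
    have h1 := hY i
    have h2 := hY (S.neg i)
    rw [S.Y_neg, map_neg] at h2
    linarith
  have hn : ‖s⁻¹ • g‖ ≤ 1 := S.gen _ fun j => by
    change s⁻¹ * g (S.Y j) ≤ 1
    rw [inv_mul_le_iff₀ hspos, mul_one]
    exact (hY j).le
  have h1 : (s⁻¹ • g) (x - μ • S.Y i) ≤ 1 - μ := by
    have h := (s⁻¹ • g).le_opNorm (x - μ • S.Y i)
    calc (s⁻¹ • g) (x - μ • S.Y i) ≤ ‖(s⁻¹ • g) (x - μ • S.Y i)‖ := le_abs_self _
      _ ≤ ‖s⁻¹ • g‖ * ‖x - μ • S.Y i‖ := h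
      _ ≤ 1 * (1 - μ) := mul_le_mul hn hx (norm_nonneg _) zero_le_one
      _ = 1 - μ := one_mul _
  have h2 : s⁻¹ * (g x - μ * g (S.Y i)) ≤ 1 - μ := by
    have e : (s⁻¹ • g) (x - μ • S.Y i) = s⁻¹ * (g x - μ * g (S.Y i)) := by
      simp [map_sub]
      ring
    rwa [e] at h1
  rw [inv_mul_le_iff₀ hspos] at h2
  have h3 : μ * g (S.Y i) ≤ μ * s := mul_le_mul_of_nonneg_left (hY i).le hμ0
  nlinarith

end PolyR126
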