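import Pool.Agent.PolyR126.M1
import Pool.Agent.PolyR126.M2
import Pool.Agent.PolyR126.M3
import Pool.Agent.PolyR126.M4
import Pool.Agent.PolyR126.M5
import Pool.Agent.PolyR126.M6
import Pool.Agent.PolyR126.M7

set_option autoImplicit false

universe u v

namespace PolyR126

open Set Metric Filter Topology

theorem exists_ball {X : Type u} [NormedAddCommGroup X] [NormedSpace ℝ X]
    (hX : HP X) (G : GoodFamily X) :
    ∃ B' : Set X, Convex ℝ B' ∧ IsClosed B' ∧ (∀ x ∈ B', -x ∈ B') ∧ closedBall (0 : X) 1 ⊆ B' ∧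
      B' ⊆ closedBall (0 : X) 2 ∧
      (∀ F : Submodule ℝ X, FiniteDimensional ℝ F →
        (Set.extremePoints ℝ (B' ∩ (F : Set X))).Finite) ∧
      B' = closure (convexHull ℝ (Set.extremePoints ℝ B')) := by
  obtain ⟨S⟩ := spikes_of_goodFamily G
  obtain ⟨h1, h2, h3⟩ := S.ball_basic
  refine ⟨S.ball, S.convex_ball, S.isClosed_ball, h1, h2, h3, S.poly_ball hX, ?_⟩
  apply Set.Subset.antisymm
  · refine S.ball_subset.trans (closure_mono (convexHull_mono ?_))
    rintro _ ⟨i, rfl⟩
    exact S.Y_extreme i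
  · exact closure_minimal (convexHull_min extremePoints_subset S.convex_ball) S.isClosed_ball

end PolyR126
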