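import Pool.Agent.PolyR126.Defs
import Pool.Agent.PolyR126.N1

set_option autoImplicit false

universe u v

namespace PolyR126

open Set Metric Filter Topology

/-- PROOF. `p = gauge B'` satisfies the hypotheses of `renorm` (`gauge_add_le`, `gauge_smul`/symmetry, `‖x‖/2 ≤ p x ≤ ‖x‖`), and `{x | p x ≤ 1} = B'` because
`B'` is closed, convex and `0` is interior. So `T` maps `B'` onto `closedBall 0 1`; extreme points, subspaces, convex hulls and closures are transported by the
linear homeomorphism `T` (`B' ∩ (G.comap T)` is mapped onto `closedBall 0 1 ∩ G`). -/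
theorem final_of_ball {E : Type u} [NormedAddCommGroup E] [NormedSpace ℝ E] [CompleteSpace E]
    (B' : Set E) (hconv : Convex ℝ B') (hcl : IsClosed B') (hsymm : ∀ x ∈ B', -x ∈ B')
    (hin : closedBall (0 : E) 1 ⊆ B') (hout : B' ⊆ closedBall (0 : E) 2)
    (hpoly : ∀ F : Submodule ℝ E, FiniteDimensional ℝ F →
        (Set.extremePoints ℝ (B' ∩ (F : Set E))).Finite)
    (hgen : B' = closure (convexHull ℝ (Set.extremePoints ℝ B'))) :
    ∃ (X : Type u) (_ : NormedAddCommGroup X) (_ : NormedSpace ℝ X),
      ∃ _T : E ≃L[ℝ] X,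
        (∀ G : Submodule ℝ X, FiniteDimensional ℝ G →
          (Set.extremePoints ℝ (Metric.closedBall (0 : X) 1 ∩ (G : Set X))).Finite) ∧
        Metric.closedBall (0 : X) 1 =
          closure (convexHull ℝ (Set.extremePoints ℝ (Metric.closedBall (0 : X) 1))) := by
  have hB0 : B' ∈ 𝓝 (0 : E) := Filter.mem_of_superset (Metric.closedBall_mem_nhds 0 one_pos) hin
  have habs : Absorbent ℝ B' := absorbent_nhds_zero hB0
  have hneg : ∀ x, gauge B' (-x) = gauge B' x := fun x => gauge_neg hsymm x
  have hsm : ∀ (c : ℝ) x, gauge B' (c • x) = |c| * gauge B' x := by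
    intro c x
    rcases le_total 0 c with hc | hc
    · rw [gauge_smul_of_nonneg hc, abs_of_nonneg hc, smul_eq_mul]
    · have h1 : c • x = -((-c) • x) := by simp
      rw [h1, hneg, gauge_smul_of_nonneg (by linarith : 0 ≤ -c), abs_of_nonpos hc, smul_eq_mul]
  obtain ⟨X, i1, i2, i3, T, hT⟩ := renorm (gauge B') (fun x y => gauge_add_le hconv habs x y) hsm
    (1 / 2) 1 (by norm_num)
    (fun x => by
      have h1 := le_gauge_of_subset_closedBall habs (by norm_num : (0 : ℝ) ≤ 2) hout (x := x)
      linarith)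
    (fun x => by
      have h1 := mul_gauge_le_norm (Metric.ball_subset_closedBall.trans hin) (x := x)
      linarith)
  have hmem : ∀ x, T x ∈ closedBall (0 : X) 1 ↔ x ∈ B' := by
    intro x
    rw [mem_closedBall_zero_iff, hT, gauge_le_one_iff_mem_closure hconv hB0, hcl.closure_eq]
  have himg : T '' B' = closedBall (0 : X) 1 := by
    ext z
    constructor
    · rintro ⟨x, hx, rfl⟩
      exact (hmem x).2 hx
    · intro hz
      refine ⟨T.symm z, ?_, T.apply_symm_apply z⟩
      rw [← hmem, T.apply_symm_apply]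
      exact hz
  refine ⟨X, i1, i2, T, ?_, ?_⟩
  · intro G hG
    have h1 : T '' (B' ∩ ((G.comap (T : E →ₗ[ℝ] X) : Submodule ℝ E) : Set E)) =
        closedBall (0 : X) 1 ∩ (G : Set X) := by
      ext z
      constructor
      · rintro ⟨x, ⟨hx, hx'⟩, rfl⟩
        exact ⟨(hmem x).2 hx, hx'⟩
      · rintro ⟨hz, hz'⟩
        refine ⟨T.symm z, ⟨?_, ?_⟩, T.apply_symm_apply z⟩
        · rw [← hmem, T.apply_symm_apply]
          exact hz
        · show T (T.symm z) ∈ G
          rw [T.apply_symm_apply]
          exact hz'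
    rw [← h1, ← image_extremePoints]
    refine Set.Finite.image _ (hpoly _ ?_)
    have h2 : G.comap (T : E →ₗ[ℝ] X) = G.map (T.symm : X →ₗ[ℝ] E) := by
      ext x
      constructor
      · intro hx
        exact ⟨T x, hx, T.symm_apply_apply x⟩
      · rintro ⟨z, hz, rfl⟩
        show T (T.symm z) ∈ G
        rw [T.apply_symm_apply]
        exact hz
    rw [h2]
    infer_instance
  · rw [← himg, ← image_extremePoints]
    conv_lhs => rw [hgen]
    have h1 : convexHull ℝ (T '' Set.extremePoints ℝ B') =
        T '' convexHull ℝ (Set.extremePoints ℝ B') :=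
      ((T : E →ₗ[ℝ] X).image_convexHull _).symm
    rw [h1]
    exact T.image_closure _

end PolyR126
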