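import Pool.Agent.PolyR126.A3
import Pool.Agent.PolyR126.K4
import Pool.Agent.PolyR126.L4
import Pool.Agent.PolyR126.M8
import Pool.Agent.PolyR126.N2

set_option autoImplicit false

universe u v

namespace PolyR126

open Set Metric Filter Topology

theorem main (E : Type u) [NormedAddCommGroup E] [NormedSpace ℝ E] [CompleteSpace E]
    (h : PolySpace E) :
    ∃ (X : Type u) (_ : NormedAddCommGroup X) (_ : NormedSpace ℝ X),
      ∃ _T : E ≃L[ℝ] X,
        (∀ G : Submodule ℝ X, FiniteDimensional ℝ G →
          (Set.extremePoints ℝ (Metric.closedBall (0 : X) 1 ∩ (G : Set X))).Finite) ∧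
        Metric.closedBall (0 : X) 1 =
          closure (convexHull ℝ (Set.extremePoints ℝ (Metric.closedBall (0 : X) 1))) := by
  by_cases hfin : FiniteDimensional ℝ E
  · refine ⟨E, inferInstance, inferInstance, ContinuousLinearEquiv.refl ℝ E, h, ?_⟩
    have : ProperSpace E := FiniteDimensional.proper_real E
    exact (closure_convexHull_extremePoints (isCompact_closedBall 0 1)
      (convex_closedBall 0 1)).symm
  · obtain ⟨X, i1, i2, i3, T, hX, ⟨b⟩⟩ := exists_base (hp_of_polySpace h) hfin
    obtain ⟨G⟩ := exists_goodFamily hX b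
    obtain ⟨B', h1, h2, h3, h4, h5, h6, h7⟩ := exists_ball hX G
    obtain ⟨Z, j1, j2, S, h8, h9⟩ := final_of_ball B' h1 h2 h3 h4 h5 h6 h7
    exact ⟨Z, j1, j2, T.trans S, h8, h9⟩

end PolyR126
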